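import Pool.Agent.Helper42.INC.Red

/-! Reduction steps: central subgroups of order `p`, abelian normal subgroups. -/

set_option linter.unusedSectionVars false

open MulAction
open scoped Pointwise IsMulCommutative

namespace Pool.Agent.Helper42.INC

section twist

variable {X : Type} [Group X] [Finite X]

/-- twisting a representation by a linear character -/
noncomputable def linTwist (l : X →* ℂˣ) {V : Type} [AddCommGroup V] [Module ℂ V]
    (ρ : Representation ℂ X V) : Representation ℂ X V where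
  toFun g := (l g : ℂ) • ρ g
  map_one' := by simp
  map_mul' g h := by
    rw [map_mul, map_mul, Units.val_mul, smul_mul_smul_comm]

lemma linTwist_char (l : X →* ℂˣ) {V : Type} [AddCommGroup V] [Module ℂ V]
    (ρ : Representation ℂ X V) (g : X) :
    (linTwist l ρ).character g = (l g : ℂ) * ρ.character g := by
  change LinearMap.trace ℂ V ((l g : ℂ) • ρ g) = _
  rw [map_smul, smul_eq_mul]
  rfl

lemma irr_linTwist (l : X →* ℂˣ) {χ : X → ℂ} (h : χ ∈ Irr X) :
    (fun x => (l x : ℂ) * χ x) ∈ Irr X := by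
  have := Fintype.ofFinite X
  have hB := B_irr_self h
  obtain ⟨V, _, _, _, ρ, hρ, rfl⟩ := h
  have he : (fun x => (l x : ℂ) * ρ.character x) = (linTwist l ρ).character := by
    ext x; exact (linTwist_char l ρ x).symm
  apply irr_of_norm_one
  · rw [he]; exact char_isClass _
  · rintro χ ⟨W, _, _, _, τ, _, rfl⟩
    rw [he]; exact B_char _ τ
  · rw [← hB, B_eq, B_eq]
    congr 1
    apply Finset.sum_congr rfl
    intro x _
    have h1 : (l x : ℂ) * (l x⁻¹ : ℂ) = 1 := by
      rw [← Units.val_mul, ← map_mul, mul_inv_cancel, map_one, Units.val_one]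
    linear_combination (ρ.character x * ρ.character x⁻¹) * h1

/-- twisting of relative counts -/
lemma cntR_linTwist {C : Type} [CommGroup C] (p : ℕ) (ζ : C →* X) (ν : C →* ℂˣ) (l : X →* ℂˣ)
    (s : ZMod p) : cntR p ζ ν s = cntR p ζ (l.comp ζ * ν) s := by
  unfold cntR
  have hdeg : ∀ (l : X →* ℂˣ) (χ : X → ℂ), deg (fun x => (l x : ℂ) * χ x) = deg χ := by
    intro l χ
    simp [deg]
  have hval : ∀ x, ((l⁻¹ x : ℂˣ) : ℂ) * (l x : ℂ) = 1 := by
    intro x
    rw [← Units.val_mul, ← MonoidHom.mul_apply, inv_mul_cancel]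
    rfl
  apply Nat.card_congr
  exact
    { toFun := fun χ => ⟨⟨fun x => (l x : ℂ) * χ.1.1 x, irr_linTwist l χ.1.2⟩, by
        refine ⟨?_, ?_⟩
        · intro c x
          simp only
          rw [χ.2.1 c x, map_mul, Units.val_mul, MonoidHom.mul_apply, Units.val_mul]
          change _ = (l (ζ c) : ℂ) * _ * _
          ring
        · rw [hdeg]; exact χ.2.2⟩
      invFun := fun χ => ⟨⟨fun x => (l⁻¹ x : ℂˣ) * χ.1.1 x, irr_linTwist l⁻¹ χ.1.2⟩, by
        refine ⟨?_, ?_⟩
        · intro c x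
          simp only
          rw [χ.2.1 c x, map_mul, Units.val_mul, MonoidHom.mul_apply, Units.val_mul]
          have h1 := hval (ζ c)
          change ((l⁻¹ (ζ c) : ℂˣ) : ℂ) * _ * (((l (ζ c) : ℂˣ) : ℂ) * _ * _) = _
          linear_combination (((l⁻¹ x : ℂˣ) : ℂ) * (ν c : ℂ) * χ.1.1 x) * h1
        · rw [hdeg]; exact χ.2.2⟩
      left_inv := fun χ => by
        apply Subtype.ext
        apply Subtype.ext
        ext x
        change ((l⁻¹ x : ℂˣ) : ℂ) * ((l x : ℂ) * χ.1.1 x) = χ.1.1 x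
        rw [← mul_assoc, hval, one_mul]
      right_inv := fun χ => by
        apply Subtype.ext
        apply Subtype.ext
        ext x
        change (l x : ℂ) * (((l⁻¹ x : ℂˣ) : ℂ) * χ.1.1 x) = χ.1.1 x
        rw [← mul_assoc, mul_comm (l x : ℂ), hval, one_mul] }

/-- `p'`-degree characters over a character of a central subgroup of exponent `p` give extensions -/
lemma exists_linear {C : Type} [CommGroup C] {p : ℕ} [Fact p.Prime] (hC : ∀ c : C, c ^ p = 1)
    (ζ : C →* X) (hζ : ∀ c, ζ c ∈ Subgroup.center X) (ν : C →* ℂˣ) {χ : X → ℂ} (hχ : χ ∈ Irr X)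
    (hov : Over ζ ν χ) (hd : ¬ p ∣ deg χ) : ∃ l : X →* ℂˣ, l.comp ζ = ν := by
  obtain ⟨n, hn0, hn⟩ := irr_one hχ
  have hdn : deg χ = n := deg_eq hn
  obtain ⟨V, _, _, _, ρ, hρ, rfl⟩ := hχ
  have hdim : Module.finrank ℂ V = n := by
    have := Representation.char_one ρ
    rw [hn] at this
    exact_mod_cast this.symm
  have hsc : ∀ c : C, ρ (ζ c) = (ν c : ℂ) • LinearMap.id := by
    intro c
    obtain ⟨a, ha⟩ :=
      (Representation.IsIrreducible.algebraMap_intertwiningMap_bijective_of_isAlgClosed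
        (ρ := ρ)).2 (⟨ρ (ζ c), fun g => by
      change ρ (ζ c) * ρ g = ρ g * ρ (ζ c)
      rw [← map_mul, ← map_mul]
      rw [(Subgroup.mem_center_iff.1 (hζ c) g)]⟩ : Representation.IntertwiningMap ρ ρ)
    have ha' : ρ (ζ c) = a • LinearMap.id := by
      have : (⟨ρ (ζ c), fun g => by
        change ρ (ζ c) * ρ g = ρ g * ρ (ζ c)
        rw [← map_mul, ← map_mul]
        rw [(Subgroup.mem_center_iff.1 (hζ c) g)]⟩ :
          Representation.IntertwiningMap ρ ρ).toLinearMap = a • LinearMap.id := by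
        rw [← ha]; rfl
      exact this
    have h1 := hov c 1
    rw [mul_one, hn] at h1
    have h2 : ρ.character (ζ c) = a * n := by
      change LinearMap.trace ℂ V (ρ (ζ c)) = _
      rw [ha', map_smul, smul_eq_mul, LinearMap.trace_id, hdim]
    rw [h2] at h1
    have hn' : (n : ℂ) ≠ 0 := by exact_mod_cast hn0.ne'
    rw [ha', mul_right_cancel₀ hn' h1]
  have hdet : ∀ c, (MonoidHom.toHomUnits ((LinearMap.det : (V →ₗ[ℂ] V) →* ℂ).comp ρ)) (ζ c) =
      (ν c) ^ n := by
    intro c
    ext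
    change LinearMap.det (ρ (ζ c)) = _
    rw [hsc, LinearMap.det_smul, hdim, LinearMap.det_id, mul_one]
    simp
  have hcop : Nat.Coprime n p := by
    rw [Nat.coprime_comm, Nat.Prime.coprime_iff_not_dvd Fact.out, ← hdn]
    exact hd
  obtain ⟨m, hm⟩ := Nat.exists_mul_mod_eq_one_of_coprime hcop (Fact.out : p.Prime).one_lt
  refine ⟨(MonoidHom.toHomUnits ((LinearMap.det : (V →ₗ[ℂ] V) →* ℂ).comp ρ)) ^ m, ?_⟩
  apply MonoidHom.ext
  intro c
  rw [MonoidHom.comp_apply, MonoidHom.pow_apply, hdet, ← pow_mul]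
  have h3 : (ν c) ^ p = 1 := by rw [← map_pow, hC, map_one]
  rw [← Nat.div_add_mod (n * m) p, pow_add, pow_mul, h3, one_pow, one_mul, hm.2, pow_one]

end twist

section transfer

variable {p : ℕ} [Fact p.Prime] {G : Type} [Group G] [Finite G] {C : Type} [CommGroup C] [Finite C]

/-- extension from the normalizer of a Sylow subgroup to the group -/
lemma exists_transfer (hC : ∀ c : C, c ^ p = 1) (ζ : C →* G)
    (hζ : ∀ c, ζ c ∈ Subgroup.center G) (P : Sylow p G) (ν : C →* ℂˣ)
    (l : Subgroup.normalizer (P : Set G) →* ℂˣ) (hl : l.comp (toNorm ζ hζ P) = ν) :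
    ∃ l' : G →* ℂˣ, l'.comp ζ = ν := by
  have htr : ∀ c, MonoidHom.transfer l (ζ c) =
      (ν c) ^ (Subgroup.normalizer (P : Set G)).index := by
    intro c
    rw [MonoidHom.transfer_eq_pow l (ζ c) (by
      intro k g _
      have h1 : ζ c ^ k ∈ Subgroup.center G := Subgroup.pow_mem _ (hζ c) k
      rw [mul_assoc, ← Subgroup.mem_center_iff.1 h1 g, inv_mul_cancel_left])]
    have h2 : (⟨ζ c ^ (Subgroup.normalizer (P : Set G)).index,
        MonoidHom.transfer_eq_pow_aux (ζ c) (by
      intro k g _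
      have h1 : ζ c ^ k ∈ Subgroup.center G := Subgroup.pow_mem _ (hζ c) k
      rw [mul_assoc, ← Subgroup.mem_center_iff.1 h1 g, inv_mul_cancel_left])⟩ :
        Subgroup.normalizer (P : Set G)) =
      (toNorm ζ hζ P c) ^ (Subgroup.normalizer (P : Set G)).index := by
      apply Subtype.ext
      rfl
    rw [h2, map_pow, ← hl]
    rfl
  have hcop : Nat.Coprime (Subgroup.normalizer (P : Set G)).index p := by
    rw [Nat.coprime_comm, Nat.Prime.coprime_iff_not_dvd Fact.out]
    intro hd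
    apply P.not_dvd_index
    exact hd.trans (Subgroup.index_dvd_of_le (Subgroup.le_normalizer (H := (P : Subgroup G))))
  obtain ⟨m, hm⟩ := Nat.exists_mul_mod_eq_one_of_coprime hcop (Fact.out : p.Prime).one_lt
  refine ⟨(MonoidHom.transfer l) ^ m, ?_⟩
  apply MonoidHom.ext
  intro c
  rw [MonoidHom.comp_apply, MonoidHom.pow_apply, htr, ← pow_mul]
  have h3 : (ν c) ^ p = 1 := by rw [← map_pow, hC, map_one]
  rw [← Nat.div_add_mod ((Subgroup.normalizer (P : Set G)).index * m) p, pow_add, pow_mul, h3, one_pow, one_mul, hm.2, pow_one]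

/-- the relative count over the trivial character -/
lemma cntR_one {X Y : Type} [Group X] [Group Y] [Finite X] [Finite Y] (f : X →* Y)
    (hf : Function.Surjective f) (ζ : C →* X) (hk : f.ker = ζ.range) (s : ZMod p) :
    cntR p ζ 1 s = cnt p Y s := by
  rw [cnt_infl f hf]
  unfold cntR
  apply Nat.card_congr
  apply Equiv.subtypeEquivRight
  intro χ
  rw [hk]
  constructor
  · rintro ⟨h1, h2⟩
    refine ⟨?_, h2⟩
    rintro _ ⟨c, rfl⟩ x
    rw [h1 c x]
    simp
  · rintro ⟨h1, h2⟩
    refine ⟨fun c x => ?_, h2⟩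
    rw [h1 _ ⟨c, rfl⟩ x]
    simp

/-- relative statement over a central subgroup of exponent `p` -/
lemma mcKay_of_quot_p (hC : ∀ c : C, c ^ p = 1) (ζ : C →* G)
    (hζ : ∀ c, ζ c ∈ Subgroup.center G) {Y : Type} [Group Y] [Finite Y] (f : G →* Y)
    (hf : Function.Surjective f) (hk : f.ker = ζ.range) (hY : McKayCongr p Y) :
    McKayCongr p G := by
  obtain ⟨P⟩ : Nonempty (Sylow p G) := inferInstance
  apply abs_of_rel P ζ hζ
  intro s hs ν
  have hc : f.ker ≤ Subgroup.center G := by
    rw [hk]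
    rintro _ ⟨c, rfl⟩
    exact hζ c
  have hk' : (normMap f hf hc P).ker = (toNorm ζ hζ P).range := by
    ext x
    rw [mem_ker_normMap, hk]
    constructor
    · rintro ⟨c, hc⟩
      exact ⟨c, Subtype.ext hc⟩
    · rintro ⟨c, hc⟩
      exact ⟨c, congrArg Subtype.val hc⟩
  have h1 : cntR p ζ 1 s = cntR p (toNorm ζ hζ P) 1 s := by
    rw [cntR_one f hf ζ hk s, cntR_one (normMap f hf hc P) (normMap_surjective f hf hc P) _ hk' s]
    exact (mcKay_iff _).1 hY s hs
  have hnd : ∀ (χ : G → ℂ), (deg χ : ZMod p) ^ 2 = s → ¬ p ∣ deg χ := by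
    intro χ h hd
    rw [(ZMod.natCast_eq_zero_iff _ _).2 hd] at h
    exact hs (by rw [← h]; simp)
  have hnd' : ∀ (χ : Subgroup.normalizer (P : Set G) → ℂ),
      (deg χ : ZMod p) ^ 2 = s → ¬ p ∣ deg χ := by
    intro χ h hd
    rw [(ZMod.natCast_eq_zero_iff _ _).2 hd] at h
    exact hs (by rw [← h]; simp)
  by_cases hE : ∃ l : G →* ℂˣ, l.comp ζ = ν
  · obtain ⟨l, hl⟩ := hE
    have h2 := cntR_linTwist p ζ 1 l s
    have h3 := cntR_linTwist p (toNorm ζ hζ P) 1
      (l.comp (Subgroup.normalizer (P : Set G)).subtype) s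
    have h4 : (l.comp (Subgroup.normalizer (P : Set G)).subtype).comp (toNorm ζ hζ P) = ν := by
      rw [← hl]; rfl
    have e1 : l.comp ζ * 1 = ν := by
      rw [← hl]; ext c; simp
    have e2 : (l.comp (Subgroup.normalizer (P : Set G)).subtype).comp (toNorm ζ hζ P) * 1 = ν := by
      rw [h4]; ext c; simp
    rw [e1] at h2
    rw [e2] at h3
    rw [← h2, ← h3, h1]
  · have z1 : cntR p ζ ν s = 0 := by
      unfold cntR
      rw [Nat.card_eq_zero]
      left
      refine ⟨fun χ => hE ?_⟩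
      exact exists_linear hC ζ hζ ν χ.1.2 χ.2.1 (hnd _ χ.2.2)
    have z2 : cntR p (toNorm ζ hζ P) ν s = 0 := by
      unfold cntR
      rw [Nat.card_eq_zero]
      left
      refine ⟨fun χ => hE ?_⟩
      obtain ⟨l, hl⟩ := exists_linear hC (toNorm ζ hζ P) (toNorm_central ζ hζ P) ν χ.1.2 χ.2.1
        (hnd' _ χ.2.2)
      exact exists_transfer hC ζ hζ P ν l hl
    rw [z1, z2]

/-- Case: `p` divides the order of the center -/
lemma case_coprime (ih : ∀ (X : Type) [Group X] [Finite X],
      ((Subgroup.center X).index < (Subgroup.center G).index ∨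
        ((Subgroup.center X).index ≤ (Subgroup.center G).index ∧ Nat.card X < Nat.card G)) →
      McKayCongr p X)
    (hc : p ∣ Nat.card (Subgroup.center G)) : McKayCongr p G := by
  obtain ⟨z, hz⟩ := exists_prime_orderOf_dvd_card' p hc
  set C : Subgroup (Subgroup.center G) := Subgroup.zpowers z with hCdef
  have hC : ∀ c : C, c ^ p = 1 := by
    rintro ⟨_, i, rfl⟩
    apply Subtype.ext
    change (z ^ i) ^ p = 1
    rw [← zpow_natCast, ← zpow_mul, mul_comm, zpow_mul, zpow_natCast, ← hz, pow_orderOf_eq_one,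
      one_zpow]
  set ζ : C →* G := (Subgroup.center G).subtype.comp C.subtype with hζdef
  have hζ : ∀ c, ζ c ∈ Subgroup.center G := fun c => c.1.2
  have hnor : ζ.range.Normal := by
    refine ⟨fun a ha g => ?_⟩
    have h2 : a ∈ Subgroup.center G := by
      obtain ⟨c, rfl⟩ := ha
      exact hζ c
    have h3 : g * a * g⁻¹ = a := by
      rw [Subgroup.mem_center_iff.1 h2 g, mul_assoc, mul_inv_cancel, mul_one]
    rw [h3]; exact ha
  refine mcKay_of_quot_p hC ζ hζ (QuotientGroup.mk' ζ.range) (QuotientGroup.mk'_surjective _)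
    (QuotientGroup.ker_mk' _) ?_
  apply ih
  right
  refine ⟨index_center_le_of_surj _ (QuotientGroup.mk'_surjective _) _ le_rfl, ?_⟩
  apply card_quotient_lt
  intro h
  have h1 : ζ ⟨z, Subgroup.mem_zpowers z⟩ ∈ (⊥ : Subgroup G) := by
    rw [← h]; exact ⟨_, rfl⟩
  rw [Subgroup.mem_bot] at h1
  have h2 : z = 1 := Subtype.ext h1
  rw [h2, orderOf_one] at hz
  exact (Fact.out : p.Prime).one_lt.ne hz

end transfer

end Pool.Agent.Helper42.INC
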