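import Pool.Agent.Helper42.INC.Little

/-! Orbits of a finite group and the action of the normalizer of a Sylow subgroup. -/

set_option linter.unusedSectionVars false

open MulAction
open scoped Pointwise

namespace Pool.Agent.Helper42.INC

section abstract_action

variable {H X : Type} [Group H] [Finite H] [MulAction H X] {p : ℕ} [Fact p.Prime]
  (Q : Sylow p H)

/-- points fixed by `Q` -/
def QFix (l : X) : Prop := ∀ q ∈ Q, q • l = l

lemma qfix_iff_le {l : X} : QFix Q l ↔ (Q : Subgroup H) ≤ stabilizer H l := by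
  constructor
  · intro h q hq; exact mem_stabilizer_iff.2 (h q hq)
  · intro h q hq; exact mem_stabilizer_iff.1 (h hq)

variable {Q}

lemma normalizer_conj_mem {n : H} (hn : n ∈ Subgroup.normalizer (Q : Set H)) {q : H} (hq : q ∈ Q) :
    n⁻¹ * q * n ∈ Q := by
  have h := (Subgroup.mem_normalizer_iff''.1 hn q).1 hq
  exact h

lemma normalizer_conj_mem' {n : H} (hn : n ∈ Subgroup.normalizer (Q : Set H)) {q : H} (hq : q ∈ Q) :
    n * q * n⁻¹ ∈ Q := (Subgroup.mem_normalizer_iff.1 hn q).1 hq

lemma QFix.smul {l : X} (hl : QFix Q l) {n : H} (hn : n ∈ Subgroup.normalizer (Q : Set H)) :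
    QFix Q (n • l) := by
  intro q hq
  have h := hl _ (normalizer_conj_mem hn hq)
  have h2 : q • n • l = n • (n⁻¹ * q * n) • l := by
    rw [smul_smul, smul_smul]; congr 1; group
  rw [h2, h]

/-- two `Q`-fixed points in one orbit are conjugate under the normalizer -/
lemma exists_normalizer {l : X} (hl : QFix Q l) {x : H} (hx : QFix Q (x • l)) :
    ∃ n ∈ Subgroup.normalizer (Q : Set H), n • l = x • l := by
  -- both `Q` and `x • Q` are Sylow subgroups of the stabilizer of `x • l`
  set K := stabilizer H (x • l) with hK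
  have h1 : (Q : Subgroup H) ≤ K := (qfix_iff_le Q).1 hx
  have h2 : ((x • Q : Sylow p H) : Subgroup H) ≤ K := by
    intro y hy
    rw [Sylow.smul_def, Sylow.pointwise_smul_def] at hy
    rw [Subgroup.mem_smul_pointwise_iff_exists] at hy
    obtain ⟨q, hq, rfl⟩ := hy
    rw [hK, mem_stabilizer_iff]
    have h3 : (MulAut.conj x • q) • x • l = x • q • l := by
      rw [smul_smul, smul_smul]; congr 1
      simp
    rw [h3, hl q hq]
  obtain ⟨k, hk⟩ := MulAction.exists_smul_eq K ((x • Q).subtype h2) (Q.subtype h1)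
  rw [Sylow.smul_subtype] at hk
  have h4 : (k : H) • x • Q = Q := Sylow.subtype_injective hk
  refine ⟨(k : H) * x, ?_, ?_⟩
  · rw [← Sylow.smul_eq_iff_mem_normalizer, mul_smul]
    exact h4
  · rw [mul_smul]
    exact mem_stabilizer_iff.1 k.2

/-- an orbit of size prime to `p` contains a `Q`-fixed point -/
lemma exists_qfix {l : X} (hl : ¬ p ∣ (stabilizer H l).index) : ∃ x : H, QFix Q (x • l) := by
  obtain ⟨P, hP⟩ : ∃ P : Sylow p H, (P : Subgroup H) ≤ stabilizer H l := by
    obtain ⟨P₀⟩ : Nonempty (Sylow p (stabilizer H l)) := inferInstance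
    have hPG : IsPGroup p ((P₀ : Subgroup (stabilizer H l)).map (stabilizer H l).subtype) :=
      P₀.isPGroup'.map _
    refine ⟨hPG.toSylow ?_, ?_⟩
    · rw [Subgroup.index_map_subtype]
      intro hd
      rcases (Nat.Prime.dvd_mul Fact.out).1 hd with h | h
      · exact P₀.not_dvd_index h
      · exact hl h
    · rw [IsPGroup.toSylow_coe]
      exact Subgroup.map_subtype_le _
  obtain ⟨g, hg⟩ := MulAction.exists_smul_eq H P Q
  refine ⟨g, ?_⟩
  rw [← hg]
  intro q hq
  have hq' : q ∈ MulAut.conj g • (P : Subgroup H) := by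
    rw [Sylow.smul_def] at hq
    exact hq
  rw [Subgroup.mem_smul_pointwise_iff_exists] at hq'
  obtain ⟨y, hy, rfl⟩ := hq'
  have h3 : (MulAut.conj g • y) • g • l = g • y • l := by
    rw [smul_smul, smul_smul]; congr 1
    simp
  rw [h3, mem_stabilizer_iff.1 (hP hy)]

lemma qfix_not_dvd {l : X} (hl : QFix Q l) : ¬ p ∣ (stabilizer H l).index := by
  intro hd
  have h1 := (qfix_iff_le Q).1 hl
  exact Q.not_dvd_index (hd.trans (Subgroup.index_dvd_of_le h1))

/-- the size of the orbit under `H` and under the normalizer are congruent -/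
lemma index_modEq {l : X} (hl : QFix Q l) :
    (stabilizer H l).index ≡
      (stabilizer (Subgroup.normalizer (Q : Set H)) l).index [MOD p] := by
  classical
  rw [index_stabilizer, index_stabilizer]
  have : Finite (orbit H l) := Finite.of_surjective
    (fun h : H => (⟨h • l, mem_orbit l h⟩ : orbit H l)) (by
      rintro ⟨y, h, rfl⟩; exact ⟨h, rfl⟩)
  have h1 : Nat.card (orbit H l) ≡ Nat.card (fixedPoints Q (orbit H l)) [MOD p] :=
    Q.isPGroup'.card_modEq_card_fixedPoints _
  rw [← Nat.card_coe_set_eq, ← Nat.card_coe_set_eq]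
  refine h1.trans ?_
  suffices hs : Nat.card (fixedPoints Q (orbit H l)) =
      Nat.card (orbit (Subgroup.normalizer (Q : Set H)) l) by rw [hs]
  apply Nat.card_congr
  refine
    { toFun := fun y => ⟨y.1.1, ?_⟩
      invFun := fun y => ⟨⟨y.1, ?_⟩, ?_⟩
      left_inv := fun y => rfl
      right_inv := fun y => rfl }
  · obtain ⟨⟨y, hy⟩, hfix⟩ := y
    obtain ⟨x, rfl⟩ := hy
    have hx : QFix Q (x • l) := by
      intro q hq
      have := hfix ⟨q, hq⟩
      exact congrArg Subtype.val this
    obtain ⟨n, hn, hnl⟩ := exists_normalizer hl hx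
    exact ⟨⟨n, hn⟩, hnl⟩
  · obtain ⟨n, hn⟩ := y.2
    exact ⟨(n : H), hn⟩
  · obtain ⟨y, hy⟩ := y
    obtain ⟨n, rfl⟩ := hy
    rintro ⟨q, hq⟩
    apply Subtype.ext
    exact (hl.smul n.2) q hq

/-- the normalizer of `Q` in the stabilizer, compared with the stabilizer in the normalizer -/
noncomputable def normStabEquiv {l : X} (h : (Q : Subgroup H) ≤ stabilizer H l) :
    Subgroup.normalizer ((Q.subtype h : Sylow p (stabilizer H l)) : Set (stabilizer H l)) ≃*
      stabilizer (Subgroup.normalizer (Q : Set H)) l where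
  toFun x := ⟨⟨x.1.1, by
      refine (Subgroup.mem_normalizer_iff (H := (Q : Subgroup H))).2 (fun q => ?_)
      constructor
      · intro hq
        exact (Subgroup.mem_normalizer_iff.1 x.2 ⟨q, h hq⟩).1 hq
      · intro hq
        have hqK : q ∈ stabilizer H l := by
          have h1 : x.1.1 * q * x.1.1⁻¹ ∈ stabilizer H l := h hq
          have h2 := (stabilizer H l).mul_mem ((stabilizer H l).mul_mem
            ((stabilizer H l).inv_mem x.1.2) h1) x.1.2
          have h3 : x.1.1⁻¹ * (x.1.1 * q * x.1.1⁻¹) * x.1.1 = q := by group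
          rwa [h3] at h2
        exact (Subgroup.mem_normalizer_iff.1 x.2 ⟨q, hqK⟩).2 hq⟩, mem_stabilizer_iff.1 x.1.2⟩
  invFun y := ⟨⟨y.1.1, mem_stabilizer_iff.2 (mem_stabilizer_iff.1 y.2)⟩, by
      refine (Subgroup.mem_normalizer_iff (H := ((Q.subtype h : Sylow p (stabilizer H l)) :
        Subgroup (stabilizer H l)))).2 (fun q => ?_)
      exact Subgroup.mem_normalizer_iff.1 y.1.2 q.1⟩
  left_inv x := rfl
  right_inv y := rfl
  map_mul' x y := rfl

end abstract_action

end Pool.Agent.Helper42.INC
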