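import Pool.Agent.Helper42.INC.Galois
import Pool.Agent.Helper42.INC.SylowOrbit

/-! Inflation of characters, central characters, relative counting. -/

set_option linter.unusedSectionVars false

open scoped Pointwise

namespace Pool.Agent.Helper42.INC

section inflate

variable {X Y : Type} [Group X] [Group Y] [Finite X] [Finite Y] (f : X →* Y)
  (hf : Function.Surjective f)

include hf in
lemma sum_comp_surj [Fintype X] [Fintype Y] (F : Y → ℂ) :
    ∑ x : X, F (f x) = (Nat.card f.ker : ℂ) * ∑ y : Y, F y := by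
  classical
  have h1 : ∑ x : X, F (f x) = ∑ y : Y, ∑ x ∈ Finset.univ.filter (fun x => f x = y), F (f x) := by
    exact (Finset.sum_fiberwise Finset.univ f (fun x => F (f x))).symm
  rw [h1, Finset.mul_sum]
  apply Finset.sum_congr rfl
  intro y _
  have h2 : ∑ x ∈ Finset.univ.filter (fun x => f x = y), F (f x) =
      ∑ x ∈ Finset.univ.filter (fun x => f x = y), F y := by
    apply Finset.sum_congr rfl
    intro x hx
    rw [(Finset.mem_filter.1 hx).2]
  rw [h2, Finset.sum_const, nsmul_eq_mul]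
  congr 2
  obtain ⟨x₀, hx₀⟩ := hf y
  rw [Nat.card_eq_fintype_card, ← Fintype.card_coe]
  apply Fintype.card_congr
  exact
    { toFun := fun x => ⟨x.1 * x₀⁻¹, by
        have := (Finset.mem_filter.1 x.2).2
        rw [MonoidHom.mem_ker, map_mul, map_inv, this, hx₀, mul_inv_cancel]⟩
      invFun := fun k => ⟨k.1 * x₀, by
        rw [Finset.mem_filter]
        refine ⟨Finset.mem_univ _, ?_⟩
        rw [map_mul, MonoidHom.mem_ker.1 k.2, one_mul, hx₀]⟩
      left_inv := fun x => by simp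
      right_inv := fun k => by simp }

include hf in
lemma B_comp (F F' : Y → ℂ) : B (fun x => F (f x)) (fun x => F' (f x)) = B F F' := by
  classical
  have := Fintype.ofFinite X
  have := Fintype.ofFinite Y
  rw [B_eq, B_eq]
  have h := sum_comp_surj f hf (fun y => F y * F' y⁻¹)
  simp only [map_inv] at h ⊢
  rw [h, ← mul_assoc]
  congr 1
  have hcard : Nat.card X = Nat.card f.ker * Nat.card Y := by
    have h1 := f.ker.card_mul_index
    rw [← h1, Subgroup.index_ker, MonoidHom.range_eq_top.2 hf, Subgroup.card_top]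
  rw [hcard]
  have hk : (Nat.card f.ker : ℂ) ≠ 0 := by exact_mod_cast Nat.card_pos.ne'
  push_cast
  field_simp

include hf in
lemma irr_infl {η : Y → ℂ} (h : η ∈ Irr Y) : (fun x => η (f x)) ∈ Irr X := by
  have hB := B_irr_self h
  obtain ⟨V, _, _, _, ρ, hρ, rfl⟩ := h
  let ρ' : Representation ℂ X V := ρ.comp f
  have he : (fun x => ρ.character (f x)) = ρ'.character := rfl
  apply irr_of_norm_one
  · rw [he]; exact char_isClass ρ'
  · rintro χ ⟨W, _, _, _, τ, _, rfl⟩
    rw [he]; exact B_char ρ' τ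
  · rw [B_comp f hf, hB]

include hf in
lemma irr_defl {χ : X → ℂ} (h : χ ∈ Irr X) (η : Y → ℂ) (he : χ = fun x => η (f x)) :
    η ∈ Irr Y := by
  apply irr_of_norm_one
  · intro g x
    obtain ⟨g, rfl⟩ := hf g
    obtain ⟨x, rfl⟩ := hf x
    have := Irr.isClass h g x
    rw [he] at this
    simpa using this
  · intro θ hθ
    rw [← B_comp f hf]
    have h1 := irr_infl f hf hθ
    rw [← he]
    by_cases hc : χ = fun x => θ (f x)
    · exact ⟨1, by rw [B_irr h h1, if_pos hc]; simp⟩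
    · exact ⟨0, by rw [B_irr h h1, if_neg hc]; simp⟩
  · rw [← B_comp f hf, ← he, B_irr_self h]

/-- characters of the quotient -/
noncomputable def inflEquiv : Irr Y ≃ {χ : Irr X // ∀ k ∈ f.ker, ∀ x, χ.1 (k * x) = χ.1 x} := by
  classical
  refine Equiv.ofBijective (fun η => ⟨⟨fun x => η.1 (f x), irr_infl f hf η.2⟩, ?_⟩) ⟨?_, ?_⟩
  · intro k hk x
    simp only [map_mul, MonoidHom.mem_ker.1 hk, one_mul]
  · intro η η' he
    have h1 : (fun x => η.1 (f x)) = fun x => η'.1 (f x) := congrArg (fun t => t.1.1) he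
    apply Subtype.ext
    ext y
    obtain ⟨x, rfl⟩ := hf y
    exact congrFun h1 x
  · rintro ⟨⟨χ, hχ⟩, hk⟩
    have hη : ∃ η : Y → ℂ, χ = fun x => η (f x) := by
      refine ⟨fun y => χ (Function.surjInv hf y), ?_⟩
      ext x
      have h1 : f (Function.surjInv hf (f x)) = f x := Function.surjInv_eq hf (f x)
      have h2 : x * (Function.surjInv hf (f x))⁻¹ ∈ f.ker := by
        rw [MonoidHom.mem_ker, map_mul, map_inv, h1, mul_inv_cancel]
      have h3 := hk _ h2 (Function.surjInv hf (f x))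
      rw [inv_mul_cancel_right] at h3
      exact h3
    obtain ⟨η, hη⟩ := hη
    exact ⟨⟨η, irr_defl f hf hχ η hη⟩, Subtype.ext (Subtype.ext hη.symm)⟩

include hf in
lemma cnt_infl (p : ℕ) (s : ZMod p) : cnt p Y s =
    Nat.card {χ : Irr X // (∀ k ∈ f.ker, ∀ x, χ.1 (k * x) = χ.1 x) ∧ (deg χ.1 : ZMod p) ^ 2 = s} := by
  unfold cnt
  have e1 : {χ : Irr X // (∀ k ∈ f.ker, ∀ x, χ.1 (k * x) = χ.1 x) ∧ (deg χ.1 : ZMod p) ^ 2 = s} ≃
    {χ : {χ : Irr X // ∀ k ∈ f.ker, ∀ x, χ.1 (k * x) = χ.1 x} // (deg χ.1.1 : ZMod p) ^ 2 = s} :=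
    (Equiv.subtypeSubtypeEquivSubtypeInter _ _).symm
  rw [Nat.card_congr e1]
  apply Nat.card_congr
  refine (inflEquiv f hf).subtypeEquiv ?_
  intro η
  have : deg ((inflEquiv f hf) η).1.1 = deg η.1 := by
    change deg (fun x => η.1 (f x)) = _
    unfold deg
    simp only [map_one]
  rw [this]

end inflate

section central

variable {X : Type} [Group X] [Finite X] {C : Type} [CommGroup C] [Finite C]

/-- the character has central character `ν` on the image of `ζ` -/
def Over (ζ : C →* X) (ν : C →* ℂˣ) (χ : X → ℂ) : Prop :=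
  ∀ c x, χ (ζ c * x) = (ν c : ℂ) * χ x

/-- relative number of irreducible characters with `(degree)² = s` modulo `p` -/
noncomputable def cntR (p : ℕ) (ζ : C →* X) (ν : C →* ℂˣ) (s : ZMod p) : ℕ :=
  Nat.card {χ : Irr X // Over ζ ν χ.1 ∧ (deg χ.1 : ZMod p) ^ 2 = s}

lemma exists_central (ζ : C →* X) (hζ : ∀ c, ζ c ∈ Subgroup.center X) {χ : X → ℂ}
    (hχ : χ ∈ Irr X) : ∃ ν : C →* ℂˣ, Over ζ ν χ := by
  obtain ⟨V, _, _, _, ρ, hρ, rfl⟩ := hχ
  have hnt := ((isIrreducible_iff ρ).1 hρ).1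
  -- each central element acts by a scalar
  have hsc : ∀ c : C, ∃ a : ℂ, ρ (ζ c) = a • LinearMap.id := by
    intro c
    let F : Representation.IntertwiningMap ρ ρ := ⟨ρ (ζ c), fun g => by
      change ρ (ζ c) * ρ g = ρ g * ρ (ζ c)
      rw [← map_mul, ← map_mul]
      rw [(Subgroup.mem_center_iff.1 (hζ c) g)]⟩
    obtain ⟨a, ha⟩ :=
      (Representation.IsIrreducible.algebraMap_intertwiningMap_bijective_of_isAlgClosed
        (ρ := ρ)).2 F
    refine ⟨a, ?_⟩
    have : F.toLinearMap = a • LinearMap.id := by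
      rw [← ha]; rfl
    exact this
  choose a ha using hsc
  obtain ⟨v, hv⟩ := exists_ne (0 : V)
  have hmul : ∀ c d, a (c * d) = a c * a d := by
    intro c d
    have h1 : ρ (ζ (c * d)) v = (a c * a d) • v := by
      rw [map_mul, map_mul]
      change ρ (ζ c) (ρ (ζ d) v) = _
      rw [ha, ha]
      simp [mul_smul, smul_comm (a c) (a d)]
    rw [ha] at h1
    have h2 : (a (c * d) - a c * a d) • v = 0 := by
      rw [sub_smul, sub_eq_zero]; exact h1
    exact sub_eq_zero.1 ((smul_eq_zero.1 h2).resolve_right hv)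
  have hone : a 1 = 1 := by
    have h1 : ρ (ζ 1) v = v := by rw [map_one, map_one]; rfl
    rw [ha] at h1
    have h2 : (a 1 - 1) • v = 0 := by rw [sub_smul, sub_eq_zero, one_smul]; exact h1
    exact sub_eq_zero.1 ((smul_eq_zero.1 h2).resolve_right hv)
  refine ⟨MonoidHom.toHomUnits { toFun := a, map_one' := hone, map_mul' := hmul }, ?_⟩
  intro c x
  change LinearMap.trace ℂ V (ρ (ζ c * x)) = a c * LinearMap.trace ℂ V (ρ x)
  rw [map_mul, ha]
  have : (a c • LinearMap.id : V →ₗ[ℂ] V) * ρ x = a c • ρ x := by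
    ext w; rfl
  rw [this, map_smul, smul_eq_mul]

lemma over_unique {ζ : C →* X} {ν ν' : C →* ℂˣ} {χ : X → ℂ} (hχ : χ ∈ Irr X) (h : Over ζ ν χ)
    (h' : Over ζ ν' χ) : ν = ν' := by
  obtain ⟨n, hn0, hn⟩ := irr_one hχ
  ext c
  have h1 := h c 1
  rw [h' c 1, hn] at h1
  have hn' : (n : ℂ) ≠ 0 := by exact_mod_cast hn0.ne'
  exact (mul_right_cancel₀ hn' h1).symm

/-- Galois invariance of the relative counts -/
lemma cntR_pow (p : ℕ) (ζ : C →* X) (ν : C →* ℂˣ) (k : ℕ) (hk : Nat.Coprime k (orderOf ν))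
    (s : ZMod p) : cntR p ζ (ν ^ k) s = cntR p ζ ν s := by
  have hfin : 0 < orderOf ν := orderOf_pos ν
  obtain ⟨σ, hσ⟩ := exists_aut (orderOf ν) hfin k hk
  have hval : ∀ c, σ (ν c : ℂ) = (ν c : ℂ) ^ k := by
    intro c
    apply hσ
    have h1 : (ν ^ orderOf ν) c = 1 := by rw [pow_orderOf_eq_one]; rfl
    have h2 : (ν c) ^ orderOf ν = 1 := h1
    have h3 := congrArg Units.val h2
    simpa using h3
  have hdeg : ∀ χ : Irr X, deg (fun x => σ (χ.1 x)) = deg χ.1 := by
    intro χ
    apply deg_eq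
    rw [← deg_cast χ.2, map_natCast]
  have hdeg' : ∀ χ : Irr X, deg (fun x => σ.symm (χ.1 x)) = deg χ.1 := by
    intro χ
    apply deg_eq
    rw [← deg_cast χ.2, map_natCast]
  unfold cntR
  apply Nat.card_congr
  exact
    { toFun := fun χ => ⟨⟨fun x => σ.symm (χ.1.1 x), irr_twist σ.symm χ.1.2⟩, by
        refine ⟨?_, ?_⟩
        · intro c x
          simp only
          rw [χ.2.1 c x, map_mul]
          congr 1
          rw [RingEquiv.symm_apply_eq, hval]
          rfl
        · rw [hdeg' χ.1]; exact χ.2.2⟩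
      invFun := fun χ => ⟨⟨fun x => σ (χ.1.1 x), irr_twist σ χ.1.2⟩, by
        refine ⟨?_, ?_⟩
        · intro c x
          simp only
          rw [χ.2.1 c x, map_mul, hval]
          rfl
        · rw [hdeg χ.1]; exact χ.2.2⟩
      left_inv := fun χ => by simp
      right_inv := fun χ => by simp }

lemma cnt_eq_sum_of (p : ℕ) (ζ : C →* X) (hζ : ∀ c, ζ c ∈ Subgroup.center X) (s : ZMod p)
    (C₁ : Subgroup C) [Fintype {ν : C →* ℂˣ // C₁ ≤ ν.ker}] :
    Nat.card {χ : Irr X // (∀ c ∈ C₁, ∀ x, χ.1 (ζ c * x) = χ.1 x) ∧ (deg χ.1 : ZMod p) ^ 2 = s} =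
      ∑ ν : {ν : C →* ℂˣ // C₁ ≤ ν.ker}, cntR p ζ ν.1 s := by
  unfold cntR
  rw [← Nat.card_sigma]
  symm
  refine Nat.card_congr (Equiv.ofBijective
    (fun y => ⟨y.2.1, fun c hc x => by
      have h1 := y.2.2.1 c x
      have h2 : y.1.1 c = 1 := y.1.2 hc
      rw [h2] at h1
      simpa using h1, y.2.2.2⟩) ⟨?_, ?_⟩)
  · rintro ⟨ν, χ⟩ ⟨ν', χ'⟩ he
    have h1 : χ.1 = χ'.1 := congrArg (fun t => t.1) he
    have h2 : ν = ν' := by
      apply Subtype.ext
      refine over_unique χ.1.2 χ.2.1 ?_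
      rw [h1]; exact χ'.2.1
    subst h2
    congr 1
    exact Subtype.ext h1
  · rintro ⟨χ, hχ, hd⟩
    obtain ⟨ν, hν⟩ := exists_central ζ hζ χ.2
    refine ⟨⟨⟨ν, ?_⟩, ⟨χ, hν, hd⟩⟩, rfl⟩
    intro c hc
    rw [MonoidHom.mem_ker]
    have h1 := hν c 1
    rw [hχ c hc 1] at h1
    obtain ⟨n, hn0, hn⟩ := irr_one χ.2
    rw [hn] at h1
    have hn' : (n : ℂ) ≠ 0 := by exact_mod_cast hn0.ne'
    ext
    have h2 : (1 : ℂ) * n = (ν c : ℂ) * n := by rw [one_mul]; exact h1
    exact (mul_right_cancel₀ hn' h2).symm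

/-- characters trivial on the kernel are powers -/
lemma le_ker_iff (ν ν' : C →* ℂˣ) : ν.ker ≤ ν'.ker ↔ ν' ∈ Subgroup.zpowers ν := by
  constructor
  · intro h
    have : Finite ν.range := Set.finite_range ν
    have hcyc : IsCyclic ν.range := inferInstance
    obtain ⟨⟨g, c₀, hc₀⟩, hg⟩ := hcyc.exists_generator
    set n := orderOf g with hn
    have hgen : ∀ c, ∃ i : ℤ, ν c = ν c₀ ^ i := by
      intro c
      obtain ⟨i, hi⟩ := hg ⟨ν c, c, rfl⟩
      refine ⟨i, ?_⟩
      have := congrArg Subtype.val hi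
      simp only [Subgroup.coe_zpow] at this
      rw [hc₀, this]
    have hfin : IsOfFinOrder g := by
      rw [← hc₀]
      exact MonoidHom.isOfFinOrder ν (isOfFinOrder_of_finite c₀)
    have hn0 : 0 < n := hfin.orderOf_pos
    have : NeZero n := ⟨hn0.ne'⟩
    have hpr : IsPrimitiveRoot (g : ℂ) n := by
      rw [IsPrimitiveRoot.coe_units_iff]
      exact IsPrimitiveRoot.orderOf g
    have hc₀n : c₀ ^ n ∈ ν.ker := by
      rw [MonoidHom.mem_ker, map_pow, hc₀, hn, pow_orderOf_eq_one]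
    have h1 : (ν' c₀) ^ n = 1 := by
      rw [← map_pow]; exact h hc₀n
    obtain ⟨j, _, hj⟩ := hpr.eq_pow_of_pow_eq_one (ξ := (ν' c₀ : ℂ)) (by
      have := congrArg Units.val h1
      simpa using this)
    have hj' : ν' c₀ = ν c₀ ^ j := by
      ext
      rw [hc₀]
      simpa using hj.symm
    refine ⟨j, ?_⟩
    ext c
    obtain ⟨i, hi⟩ := hgen c
    have h2 : c * (c₀ ^ i)⁻¹ ∈ ν.ker := by
      rw [MonoidHom.mem_ker, map_mul, map_inv, map_zpow, hi, mul_inv_cancel]
    have h3 := h h2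
    rw [MonoidHom.mem_ker, map_mul, map_inv, map_zpow, mul_inv_eq_one] at h3
    have h4 : ν c ^ (j : ℤ) = ν' c := by
      rw [hi, h3, hj', ← zpow_natCast (ν c₀) j, ← zpow_mul, ← zpow_mul, mul_comm]
    exact congrArg Units.val h4
  · rintro ⟨i, rfl⟩ c hc
    rw [MonoidHom.mem_ker] at hc ⊢
    simp only [MonoidHom.zpow_apply, hc, one_zpow]

/-- an abstract vanishing principle -/
lemma vanish {Γ : Type} [CommGroup Γ] [Finite Γ] (D : Γ → ℤ)
    (h1 : ∀ ν : Γ, ∀ k : ℕ, Nat.Coprime k (orderOf ν) → D (ν ^ k) = D ν)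
    (h2 : ∀ ν : Γ, ∑ᶠ ν' : Subgroup.zpowers ν, D ν' = 0) : ∀ ν, D ν = 0 := by
  classical
  have key : ∀ n : ℕ, ∀ ν : Γ, orderOf ν = n → D ν = 0 := by
    intro n
    induction n using Nat.strong_induction_on with
    | _ n ih =>
      intro ν hν
      have := Fintype.ofFinite (Subgroup.zpowers ν)
      have h3 := h2 ν
      rw [finsum_eq_sum_of_fintype] at h3
      have h4 : ∀ ν' : Subgroup.zpowers ν, D ν' = if orderOf (ν' : Γ) = n then D ν else 0 := by
        rintro ⟨ν', hν'⟩
        split_ifs with ho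
        · obtain ⟨k, rfl⟩ := (mem_powers_iff_mem_zpowers).2 hν'
          apply h1
          simp only at ho
          have h5 := orderOf_pow ν (n := k)
          rw [ho, hν] at h5
          have hn0 : 0 < n := by rw [← hν]; exact orderOf_pos ν
          have h6 : Nat.gcd n k = 1 := by
            have h7 : Nat.gcd n k ∣ n := Nat.gcd_dvd_left _ _
            obtain ⟨m, hm⟩ := h7
            have hg : 0 < Nat.gcd n k := Nat.gcd_pos_of_pos_left _ hn0
            have h8 : n / Nat.gcd n k = m := Nat.div_eq_of_eq_mul_right hg hm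
            rw [h8] at h5
            rw [← h5] at hm
            nlinarith
          rw [hν, Nat.coprime_comm]
          exact h6
        · apply ih (orderOf ν') _ ν' rfl
          have hd : orderOf ν' ∣ orderOf ν := by
            obtain ⟨k, rfl⟩ := hν'
            exact orderOf_dvd_of_mem_zpowers (Subgroup.zpow_mem_zpowers ν k)
          rw [hν] at hd
          have hn0 : 0 < n := by rw [← hν]; exact orderOf_pos ν
          exact lt_of_le_of_ne (Nat.le_of_dvd hn0 hd) ho
      rw [Finset.sum_congr rfl (fun ν' _ => h4 ν'), ← Finset.sum_filter, Finset.sum_const,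
        nsmul_eq_mul] at h3
      rcases mul_eq_zero.1 h3 with h5 | h5
      · exfalso
        have h6 : (⟨ν, Subgroup.mem_zpowers ν⟩ : Subgroup.zpowers ν) ∈
            Finset.univ.filter (fun ν' : Subgroup.zpowers ν => orderOf (ν' : Γ) = n) := by
          rw [Finset.mem_filter]; exact ⟨Finset.mem_univ _, hν⟩
        have h7 := Finset.card_pos.2 ⟨_, h6⟩
        have : (Finset.univ.filter (fun ν' : Subgroup.zpowers ν => orderOf (ν' : Γ) = n)).card = 0 := by
          exact_mod_cast h5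
        omega
      · exact h5
  intro ν
  exact key _ ν rfl

end central

end Pool.Agent.Helper42.INC
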