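import Pool.Agent.Helper42.INC.Defs

/-! Character theory of finite groups: class functions, orthogonality, completeness. -/

open scoped MonoidAlgebra

set_option linter.unusedSectionVars false

namespace Pool.Agent.Helper42.INC

/-- class functions -/
def IsClass {G : Type} [Group G] (f : G → ℂ) : Prop := ∀ g x : G, f (g * x * g⁻¹) = f x

/-- the bilinear form `|G|⁻¹ Σ f(x) g(x⁻¹)` -/
noncomputable def B {G : Type} [Group G] (f g : G → ℂ) : ℂ :=
  (Nat.card G : ℂ)⁻¹ * ∑ᶠ x, f x * g x⁻¹

section basics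

variable {G : Type} [Group G] [Finite G]

lemma B_eq [Fintype G] (f g : G → ℂ) : B f g = (Nat.card G : ℂ)⁻¹ * ∑ x, f x * g x⁻¹ := by
  unfold B
  rw [finsum_eq_sum_of_fintype]

lemma B_symm (f g : G → ℂ) : B f g = B g f := by
  have := Fintype.ofFinite G
  rw [B_eq, B_eq]
  congr 1
  rw [← Equiv.sum_comp (Equiv.inv G)]
  simp [mul_comm]

lemma B_add_left (f f' g : G → ℂ) : B (f + f') g = B f g + B f' g := by
  have := Fintype.ofFinite G
  rw [B_eq, B_eq, B_eq, ← mul_add, ← Finset.sum_add_distrib]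
  congr 2; ext x; simp [add_mul]

lemma B_smul_left (c : ℂ) (f g : G → ℂ) : B (c • f) g = c * B f g := by
  have := Fintype.ofFinite G
  rw [B_eq, B_eq, Finset.mul_sum, Finset.mul_sum, Finset.mul_sum]
  apply Finset.sum_congr rfl
  intro x _
  simp only [Pi.smul_apply, smul_eq_mul]; ring

lemma B_zero_left (g : G → ℂ) : B 0 g = 0 := by
  have := Fintype.ofFinite G
  rw [B_eq]; simp

lemma B_neg_left (f g : G → ℂ) : B (-f) g = - B f g := by
  have h := B_smul_left (-1) f g
  simpa using h

lemma B_sub_left (f f' g : G → ℂ) : B (f - f') g = B f g - B f' g := by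
  rw [sub_eq_add_neg, B_add_left, B_neg_left, sub_eq_add_neg]

lemma B_sum_left {ι : Type*} (s : Finset ι) (F : ι → G → ℂ) (g : G → ℂ) :
    B (∑ i ∈ s, F i) g = ∑ i ∈ s, B (F i) g := by
  classical
  induction s using Finset.induction_on with
  | empty => simp [B_zero_left]
  | insert a s ha ih => rw [Finset.sum_insert ha, Finset.sum_insert ha, B_add_left, ih]

noncomputable instance invCard : Invertible (Nat.card G : ℂ) :=
  invertibleOfNonzero (by exact_mod_cast Nat.card_pos.ne')

lemma B_char {V W : Type} [AddCommGroup V] [Module ℂ V] [FiniteDimensional ℂ V]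
    [AddCommGroup W] [Module ℂ W] [FiniteDimensional ℂ W]
    (ρ : Representation ℂ G V) (σ : Representation ℂ G W) :
    ∃ n : ℕ, B ρ.character σ.character = n := by
  have := Fintype.ofFinite G
  refine ⟨Module.finrank ℂ (Representation.IntertwiningMap σ ρ), ?_⟩
  rw [← Representation.card_inv_mul_sum_char_mul_char_eq_finrank, B_eq]

lemma char_isClass {V : Type} [AddCommGroup V] [Module ℂ V]
    (ρ : Representation ℂ G V) : IsClass ρ.character := by
  intro g x
  exact Representation.char_conj ρ x g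

lemma Irr.isClass {χ : G → ℂ} (h : χ ∈ Irr G) : IsClass χ := by
  obtain ⟨V, _, _, _, ρ, hρ, rfl⟩ := h
  exact char_isClass ρ

open Classical in
lemma B_irr {χ χ' : G → ℂ} (h : χ ∈ Irr G) (h' : χ' ∈ Irr G) :
    B χ χ' = if χ = χ' then 1 else 0 := by
  have := Fintype.ofFinite G
  obtain ⟨V, _, _, _, ρ, hρ, rfl⟩ := h
  obtain ⟨W, _, _, _, σ, hσ, rfl⟩ := h'
  by_cases hn : Nonempty (Representation.Equiv σ ρ)
  · obtain ⟨e⟩ := hn
    have heq : σ.character = ρ.character := Representation.char_iso e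
    rw [if_pos heq.symm, B_eq, Representation.char_orthonormal, if_pos ⟨e⟩]
  · have h0 : B ρ.character σ.character = 0 := by
      rw [B_eq, Representation.char_orthonormal, if_neg hn]
    rw [h0, if_neg]
    intro heq
    have h1 : B ρ.character ρ.character = 1 := by
      rw [B_eq, Representation.char_orthonormal, if_pos]
      exact ⟨Representation.Equiv.refl ρ⟩
    rw [← heq, h1] at h0
    exact one_ne_zero h0

lemma B_irr_self {χ : G → ℂ} (h : χ ∈ Irr G) : B χ χ = 1 := by
  rw [B_irr h h, if_pos rfl]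

lemma B_irr_ne {χ χ' : G → ℂ} (h : χ ∈ Irr G) (h' : χ' ∈ Irr G) (hne : χ ≠ χ') : B χ χ' = 0 := by
  rw [B_irr h h', if_neg hne]

lemma irr_linearIndependent : LinearIndependent ℂ (fun χ : Irr G => (χ : G → ℂ)) := by
  classical
  rw [linearIndependent_iff']
  intro s c hsum i hi
  have h : B (∑ j ∈ s, c j • (j : G → ℂ)) (i : G → ℂ) = 0 := by rw [hsum, B_zero_left]
  rw [B_sum_left] at h
  rw [Finset.sum_eq_single i] at h
  · rw [B_smul_left, B_irr_self i.2, mul_one] at h
    exact h
  · intro j _ hji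
    rw [B_smul_left, B_irr_ne j.2 i.2 (fun he => hji (Subtype.ext he)), mul_zero]
  · intro hni; exact absurd hi hni

instance irr_finite : Finite (Irr G) := by
  have := Fintype.ofFinite G
  have h := (irr_linearIndependent (G := G))
  exact h.finite

/-- Schur: the class sum operator vanishes on an irreducible representation orthogonal to `f`. -/
lemma schur_zero [Fintype G] {V : Type} [AddCommGroup V] [Module ℂ V] [FiniteDimensional ℂ V]
    (ρ : Representation ℂ G V) [hρ : ρ.IsIrreducible] (f : G → ℂ) (hf : IsClass f)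
    (h0 : B f ρ.character = 0) : ∑ x : G, f x⁻¹ • ρ x = 0 := by
  set T : V →ₗ[ℂ] V := ∑ x : G, f x⁻¹ • ρ x with hT
  have hcomm : ∀ g : G, T ∘ₗ ρ g = ρ g ∘ₗ T := by
    intro g
    ext v
    simp only [hT, LinearMap.comp_apply, LinearMap.sum_apply, LinearMap.smul_apply, map_sum,
      map_smul]
    rw [← (MulAut.conj g).toEquiv.sum_comp]
    apply Finset.sum_congr rfl
    intro x _
    have e1 : f ((MulAut.conj g).toEquiv x)⁻¹ = f x⁻¹ := by
      have : ((MulAut.conj g).toEquiv x)⁻¹ = g * x⁻¹ * g⁻¹ := by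
        simp [mul_assoc]
      rw [this, hf]
    rw [e1]
    congr 1
    have : ρ ((MulAut.conj g).toEquiv x) (ρ g v) = ρ (((MulAut.conj g).toEquiv x) * g) v := by
      rw [map_mul]; rfl
    rw [this]
    have e2 : ((MulAut.conj g).toEquiv x) * g = g * x := by simp
    rw [e2, map_mul]; rfl
  let F : Representation.IntertwiningMap ρ ρ := ⟨T, fun g => hcomm g⟩
  obtain ⟨c, hc⟩ :=
    (Representation.IsIrreducible.algebraMap_intertwiningMap_bijective_of_isAlgClosed
      (ρ := ρ)).2 F
  have hTc : T = c • LinearMap.id := by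
    have : F.toLinearMap = c • LinearMap.id := by
      rw [← hc]; rfl
    exact this
  have htr : LinearMap.trace ℂ V T = 0 := by
    rw [hT, map_sum]
    have : B f ρ.character = (Nat.card G : ℂ)⁻¹ * ∑ x : G, f x⁻¹ * ρ.character x := by
      rw [B_eq]
      congr 1
      rw [← Equiv.sum_comp (Equiv.inv G)]
      simp
    rw [this] at h0
    have hcard : (Nat.card G : ℂ)⁻¹ ≠ 0 := by
      apply inv_ne_zero
      exact_mod_cast Nat.card_pos.ne'
    have h1 := (mul_eq_zero.1 h0).resolve_left hcard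
    simpa [Representation.character] using h1
  have hV : Nontrivial V := by
    by_contra hn
    rw [not_nontrivial_iff_subsingleton] at hn
    have hne : (⊥ : Subrepresentation ρ) ≠ ⊤ := bot_ne_top
    apply hne
    apply Subrepresentation.toSubmodule_injective
    exact Subsingleton.elim _ _
  rw [hTc, map_smul, LinearMap.trace_id, smul_eq_mul] at htr
  have hfin : (Module.finrank ℂ V : ℂ) ≠ 0 := by
    exact_mod_cast (Module.finrank_pos (R := ℂ) (M := V)).ne'
  have hc0 : c = 0 := (mul_eq_zero.1 htr).resolve_right hfin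
  rw [hTc, hc0, zero_smul]

set_option backward.isDefEq.respectTransparency false in
/-- completeness of the irreducible characters among class functions -/
lemma complete (f : G → ℂ) (hf : IsClass f) (h : ∀ χ ∈ Irr G, B f χ = 0) : f = 0 := by
  classical
  have := Fintype.ofFinite G
  set z : ℂ[G] := ∑ x : G, MonoidAlgebra.single x (f x⁻¹) with hz
  have hsimple : ∀ m : Submodule ℂ[G] ℂ[G], IsSimpleModule ℂ[G] m → ∀ v ∈ m, z * v = 0 := by
    intro m hm v hv
    have hirr := (Representation.isSimpleModule_iff_irreducible_ofModule (k := ℂ) (G := G) m).1 hm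
    have hfd : FiniteDimensional ℂ (RestrictScalars ℂ ℂ[G] m) := by
      have h1 : FiniteDimensional ℂ ℂ[G] := by
        exact Module.Finite.equiv (MonoidAlgebra.coeffLinearEquiv ℂ).symm
      let ι : RestrictScalars ℂ ℂ[G] m →ₗ[ℂ] ℂ[G] :=
        { toFun := fun w => ((RestrictScalars.addEquiv ℂ ℂ[G] m w : m) : ℂ[G])
          map_add' := fun a b => by simp
          map_smul' := fun c a => by
            rw [RestrictScalars.addEquiv_map_smul]
            simp [Algebra.smul_def] }
      exact FiniteDimensional.of_injective ι (fun a b hab => by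
        have : (RestrictScalars.addEquiv ℂ ℂ[G] m a : m) = RestrictScalars.addEquiv ℂ ℂ[G] m b :=
          Subtype.ext hab
        exact (RestrictScalars.addEquiv ℂ ℂ[G] m).injective this)
    set σ := Representation.ofModule (k := ℂ) (G := G) m with hσ
    have h0 := h σ.character ⟨_, _, _, hfd, σ, hirr, rfl⟩
    have hT := schur_zero σ f hf h0
    set w : RestrictScalars ℂ ℂ[G] m := (RestrictScalars.addEquiv ℂ ℂ[G] m).symm ⟨v, hv⟩ with hw
    have h1 : (∑ x : G, f x⁻¹ • σ x) w = 0 := by rw [hT]; rfl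
    have h2 : (((RestrictScalars.addEquiv ℂ ℂ[G] m) ((∑ x : G, f x⁻¹ • σ x) w) : m) : ℂ[G]) = 0 := by
      rw [h1]; simp
    rw [← h2]
    simp only [LinearMap.sum_apply, LinearMap.smul_apply, map_sum,
      Submodule.coe_sum]
    rw [hz, Finset.sum_mul]
    apply Finset.sum_congr rfl
    intro x _
    rw [RestrictScalars.addEquiv_map_smul]
    have h3 : (RestrictScalars.addEquiv ℂ ℂ[G] m) (σ x w) =
        MonoidAlgebra.single x (1 : ℂ) • (⟨v, hv⟩ : m) := by
      simp [hσ, Representation.ofModule, hw]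
      rfl
    rw [h3]
    simp only [Submodule.coe_smul, smul_eq_mul]
    rw [← mul_assoc]
    congr 1
    rw [MonoidAlgebra.coe_algebraMap]
    simp
  have hann : z ∈ Submodule.annihilator (⊤ : Submodule ℂ[G] ℂ[G]) := by
    rw [← IsSemisimpleModule.sSup_simples_eq_top, sSup_eq_iSup', Submodule.annihilator_iSup]
    rw [Submodule.mem_iInf]
    intro i
    rw [Submodule.mem_annihilator]
    intro v hv
    exact hsimple i.1 i.2 v hv
  have hz0 : z = 0 := by
    have := Submodule.mem_annihilator.1 hann 1 Submodule.mem_top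
    simpa using this
  ext x
  have h4 : z.coeff x⁻¹ = 0 := by rw [hz0]; rfl
  rw [hz] at h4
  simpa [Finsupp.single_apply] using h4

lemma IsClass.sub {f g : G → ℂ} (hf : IsClass f) (hg : IsClass g) : IsClass (f - g) := by
  intro a b; simp [hf a b, hg a b]

lemma IsClass.smul {f : G → ℂ} (c : ℂ) (hf : IsClass f) : IsClass (c • f) := by
  intro a b; simp [hf a b]

lemma IsClass.sum {ι : Type*} (s : Finset ι) (F : ι → G → ℂ) (h : ∀ i ∈ s, IsClass (F i)) :
    IsClass (∑ i ∈ s, F i) := by
  intro a b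
  simp only [Finset.sum_apply]
  exact Finset.sum_congr rfl (fun i hi => h i hi a b)

/-- expansion of class functions in irreducible characters -/
lemma expand [Fintype (Irr G)] (f : G → ℂ) (hf : IsClass f) :
    f = ∑ χ : Irr G, B f χ.1 • χ.1 := by
  classical
  have h := complete (f - ∑ χ : Irr G, B f χ.1 • χ.1)
    (hf.sub (IsClass.sum _ _ (fun χ _ => (Irr.isClass χ.2).smul _))) (by
      intro χ' hχ'
      rw [B_sub_left, B_sum_left, Finset.sum_eq_single ⟨χ', hχ'⟩]
      · rw [B_smul_left, B_irr_self hχ']; ring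
      · intro χ _ hne
        rw [B_smul_left, B_irr_ne χ.2 hχ' (fun he => hne (Subtype.ext he)), mul_zero]
      · intro h; exact absurd (Finset.mem_univ _) h)
  exact sub_eq_zero.1 h

lemma irr_one {χ : G → ℂ} (h : χ ∈ Irr G) : ∃ n : ℕ, 0 < n ∧ χ 1 = n := by
  obtain ⟨V, _, _, _, ρ, hρ, rfl⟩ := h
  have hV : Nontrivial V := by
    by_contra hn
    rw [not_nontrivial_iff_subsingleton] at hn
    have hne : (⊥ : Subrepresentation ρ) ≠ ⊤ := bot_ne_top
    apply hne
    apply Subrepresentation.toSubmodule_injective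
    exact Subsingleton.elim _ _
  exact ⟨Module.finrank ℂ V, Module.finrank_pos, Representation.char_one ρ⟩

/-- a class function of norm one with natural number coefficients is irreducible -/
lemma irr_of_norm_one (f : G → ℂ) (hf : IsClass f) (hn : ∀ χ ∈ Irr G, ∃ n : ℕ, B f χ = n)
    (h1 : B f f = 1) : f ∈ Irr G := by
  classical
  have := Fintype.ofFinite (Irr G)
  have hexp := expand f hf
  choose n hn' using fun χ : Irr G => hn χ.1 χ.2
  have hsum : ∑ χ : Irr G, (n χ) ^ 2 = 1 := by
    have h2 : B f f = ∑ χ : Irr G, B f χ.1 * B f χ.1 := by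
      nth_rewrite 1 [hexp]
      rw [B_sum_left]
      apply Finset.sum_congr rfl
      intro χ _
      rw [B_smul_left, B_symm χ.1 f]
    rw [h1] at h2
    have h3 : ((∑ χ : Irr G, (n χ) ^ 2 : ℕ) : ℂ) = 1 := by
      push_cast
      rw [h2]
      apply Finset.sum_congr rfl
      intro χ _
      rw [hn', sq]
    exact_mod_cast h3
  obtain ⟨χ₀, hχ₀⟩ : ∃ χ : Irr G, n χ ≠ 0 := by
    by_contra hcon
    push Not at hcon
    simp [hcon] at hsum
  have hle : ∀ χ : Irr G, χ ≠ χ₀ → n χ = 0 := by
    intro χ hne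
    by_contra h0
    have h2 : (n χ) ^ 2 + (n χ₀) ^ 2 ≤ ∑ χ : Irr G, (n χ) ^ 2 := by
      rw [← Finset.sum_pair hne (f := fun χ => (n χ) ^ 2)]
      exact Finset.sum_le_sum_of_subset (Finset.subset_univ _)
    have h3 : 1 ≤ (n χ) ^ 2 := Nat.one_le_iff_ne_zero.2 (pow_ne_zero 2 h0)
    have h4 : 1 ≤ (n χ₀) ^ 2 := Nat.one_le_iff_ne_zero.2 (pow_ne_zero 2 hχ₀)
    omega
  have hn0 : n χ₀ = 1 := by
    rw [Finset.sum_eq_single χ₀] at hsum
    · nlinarith [Nat.one_le_iff_ne_zero.2 hχ₀]
    · intro χ _ hne; rw [hle χ hne]; rfl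
    · intro h; exact absurd (Finset.mem_univ _) h
  have hf' : f = χ₀.1 := by
    rw [hexp, Finset.sum_eq_single χ₀]
    · rw [hn', hn0]; simp
    · intro χ _ hne; rw [hn', hle χ hne]; simp
    · intro h; exact absurd (Finset.mem_univ _) h
  rw [hf']; exact χ₀.2

/-- degree of a character -/
noncomputable def deg (χ : G → ℂ) : ℕ := ⌊(χ 1).re⌋₊

lemma deg_eq {χ : G → ℂ} {n : ℕ} (h : χ 1 = n) : deg χ = n := by
  unfold deg; rw [h]; simp

lemma deg_cast {χ : G → ℂ} (h : χ ∈ Irr G) : (deg χ : ℂ) = χ 1 := by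
  obtain ⟨n, _, hn⟩ := irr_one h
  rw [deg_eq hn, hn]

lemma deg_pos {χ : G → ℂ} (h : χ ∈ Irr G) : 0 < deg χ := by
  obtain ⟨n, h0, hn⟩ := irr_one h
  rwa [deg_eq hn]

/-- characters of abelian degree sum: `Σ χ(1)² = |G|` -/
lemma sum_deg_sq [Fintype (Irr G)] : ∑ χ : Irr G, (deg χ.1) ^ 2 = Nat.card G := by
  classical
  have := Fintype.ofFinite G
  set δ : G → ℂ := fun x => if x = 1 then (Nat.card G : ℂ) else 0 with hδ
  have hδc : IsClass δ := by
    intro g x
    simp only [hδ, conj_eq_one_iff]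
  have hB : ∀ χ ∈ Irr G, B δ χ = χ 1 := by
    intro χ _
    rw [B_eq, Finset.sum_eq_single 1]
    · simp only [hδ, if_true, inv_one]
      rw [← mul_assoc, inv_mul_cancel₀, one_mul]
      exact_mod_cast Nat.card_pos.ne'
    · intro x _ hx; simp only [hδ, if_neg hx]; simp
    · intro h; exact absurd (Finset.mem_univ _) h
  have h := congrFun (expand δ hδc) 1
  simp only [hδ, if_true, Finset.sum_apply, Pi.smul_apply, smul_eq_mul] at h
  have h2 : ((Nat.card G : ℕ) : ℂ) = ((∑ χ : Irr G, (deg χ.1) ^ 2 : ℕ) : ℂ) := by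
    rw [h]
    push_cast
    apply Finset.sum_congr rfl
    intro χ _
    rw [hB χ.1 χ.2, deg_cast χ.2, sq]
  exact_mod_cast h2.symm

end basics

section transport

variable {G G' : Type} [Group G] [Group G']

lemma isIrreducible_iff {V : Type} [AddCommGroup V] [Module ℂ V] (ρ : Representation ℂ G V) :
    ρ.IsIrreducible ↔ Nontrivial V ∧
      ∀ W : Submodule ℂ V, (∀ g, ∀ v ∈ W, ρ g v ∈ W) → W = ⊥ ∨ W = ⊤ := by
  constructor
  · intro h
    refine ⟨?_, ?_⟩
    · by_contra hn
      rw [not_nontrivial_iff_subsingleton] at hn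
      have hne : (⊥ : Subrepresentation ρ) ≠ ⊤ := bot_ne_top
      apply hne
      apply Subrepresentation.toSubmodule_injective
      exact Subsingleton.elim _ _
    · intro W hW
      rcases h.eq_bot_or_eq_top ⟨W, fun g v hv => hW g v hv⟩ with h1 | h1
      · left; exact congrArg Subrepresentation.toSubmodule h1
      · right; exact congrArg Subrepresentation.toSubmodule h1
  · rintro ⟨hnt, hW⟩
    refine { exists_pair_ne := ⟨⊥, ⊤, ?_⟩, eq_bot_or_eq_top := ?_ }
    · intro he
      have h1 : (⊥ : Submodule ℂ V) = ⊤ := congrArg Subrepresentation.toSubmodule he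
      exact bot_ne_top h1
    · intro U
      rcases hW U.toSubmodule (fun g v hv => U.apply_mem_toSubmodule g hv) with h1 | h1
      · left; exact Subrepresentation.toSubmodule_injective h1
      · right; exact Subrepresentation.toSubmodule_injective h1

lemma irr_comp (e : G ≃* G') {χ : G' → ℂ} (h : χ ∈ Irr G') : (fun x => χ (e x)) ∈ Irr G := by
  obtain ⟨V, _, _, _, ρ, hρ, rfl⟩ := h
  refine ⟨V, _, _, ‹_›, ρ.comp e.toMonoidHom, ?_, rfl⟩
  rw [isIrreducible_iff] at hρ ⊢
  refine ⟨hρ.1, fun W hW => hρ.2 W (fun g v hv => ?_)⟩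
  have := hW (e.symm g) v hv
  simpa using this

/-- transport of irreducible characters along an isomorphism -/
def irrEquiv (e : G ≃* G') : Irr G' ≃ Irr G where
  toFun χ := ⟨fun x => χ.1 (e x), irr_comp e χ.2⟩
  invFun χ := ⟨fun x => χ.1 (e.symm x), irr_comp e.symm χ.2⟩
  left_inv χ := by ext x; simp
  right_inv χ := by ext x; simp

end transport

end Pool.Agent.Helper42.INC
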