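import Pool.Agent.Helper42.INC.Red2

/-! Reduction steps: abelian normal subgroups. -/

set_option linter.unusedSectionVars false

open MulAction
open scoped Pointwise IsMulCommutative

namespace Pool.Agent.Helper42.INC

section transport

/-- invariance under isomorphism -/
lemma mcKay_iso {p : ℕ} [Fact p.Prime] {G G' : Type} [Group G] [Group G'] [Finite G]
    [Finite G'] (e : G ≃* G') (h : McKayCongr p G') : McKayCongr p G := by
  obtain ⟨P⟩ : Nonempty (Sylow p G) := inferInstance
  have hN : (Subgroup.normalizer (P : Set G)).map e.toMonoidHom =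
      Subgroup.normalizer ((P.mapSurjective (f := e.toMonoidHom) e.surjective : Sylow p G') :
        Set G') :=
    Subgroup.map_equiv_normalizer_eq (P : Subgroup G) e
  have e2 : Subgroup.normalizer (P : Set G) ≃*
      Subgroup.normalizer ((P.mapSurjective (f := e.toMonoidHom) e.surjective : Sylow p G') :
        Set G') :=
    (e.subgroupMap _).trans (MulEquiv.subgroupCongr hN)
  rw [mcKay_iff P]
  intro s hs
  rw [cnt_congr e, cnt_congr e2]
  exact (mcKay_iff _).1 h s hs

variable {p : ℕ} [Fact p.Prime] {N : Type} [Group N] [Finite N]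

/-- subgroups of index prime to `p` of a group with normal Sylow subgroup -/
lemma mcKay_sub_of_normal (P : Sylow p N) (hP : (P : Subgroup N).Normal) (K : Subgroup N)
    (hK : ¬ p ∣ K.index) : McKayCongr p K := by
  obtain ⟨S⟩ : Nonempty (Sylow p K) := inferInstance
  have hPG : IsPGroup p ((S : Subgroup K).map K.subtype) := S.isPGroup'.map _
  have hS : ¬ p ∣ ((S : Subgroup K).map K.subtype).index := by
    rw [Subgroup.index_map_subtype]
    intro hd
    rcases (Nat.Prime.dvd_mul Fact.out).1 hd with h | h
    · exact S.not_dvd_index h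
    · exact hK h
  obtain ⟨g, hg⟩ := MulAction.exists_smul_eq N P (hPG.toSylow hS)
  rw [Sylow.smul_eq_of_normal] at hg
  have hmem : ∀ x : K, x ∈ S ↔ (x : N) ∈ P := by
    intro x
    rw [hg]
    change _ ↔ (x : N) ∈ ((hPG.toSylow hS : Sylow p N) : Subgroup N)
    rw [IsPGroup.toSylow_coe]
    constructor
    · intro hx
      exact ⟨x, hx, rfl⟩
    · rintro ⟨y, hy, hyx⟩
      have : y = x := Subtype.ext hyx
      rw [← this]; exact hy
  apply mcKay_of_normal S
  refine ⟨fun x hx k => ?_⟩
  have h1 := (hmem x).1 hx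
  exact (hmem _).2 (hP.conj_mem _ h1 k)

end transport

section abel

variable {p : ℕ} [Fact p.Prime] {G : Type} [Group G] [Finite G]

lemma normal_p_normalizer (K : Subgroup G) (hK : K.Normal) (hKp : IsPGroup p K) (P : Sylow p G)
    (h : K ⊔ Subgroup.normalizer (P : Set G) = ⊤) : Subgroup.normalizer (P : Set G) = ⊤ := by
  have h1 : K ≤ P := hKp.le_sylow_of_normal P
  have h2 : K ≤ Subgroup.normalizer (P : Set G) :=
    h1.trans (Subgroup.le_normalizer (H := (P : Subgroup G)))
  rw [sup_eq_right.2 h2] at h
  exact h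

/-- the norm map -/
noncomputable def nm (P : Sylow p G) [Fintype (P : Subgroup G)] (A : Subgroup G) [A.Normal]
    [IsMulCommutative A] : A →* A :=
  ∏ x : (P : Subgroup G), (MulAut.conjNormal (x : G) : MulAut A).toMonoidHom

lemma nm_apply (P : Sylow p G) [Fintype (P : Subgroup G)] (A : Subgroup G) [A.Normal]
    [IsMulCommutative A] (a : A) : nm P A a = ∏ x : (P : Subgroup G), (MulAut.conjNormal (x : G) : MulAut A) a := by
  unfold nm
  rw [MonoidHom.finsetProd_apply]
  rfl

lemma nm_conj (P : Sylow p G) [Fintype (P : Subgroup G)] (A : Subgroup G) [A.Normal]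
    [IsMulCommutative A] (n : G) (hn : n ∈ Subgroup.normalizer (P : Set G)) (a : A) :
    nm P A ((MulAut.conjNormal n : MulAut A) a) = (MulAut.conjNormal n : MulAut A) (nm P A a) := by
  rw [nm_apply, nm_apply, map_prod]
  let e : (P : Subgroup G) ≃ (P : Subgroup G) :=
    { toFun := fun x => ⟨n * x * n⁻¹, normalizer_conj_mem' hn x.2⟩
      invFun := fun x => ⟨n⁻¹ * x * n, normalizer_conj_mem hn x.2⟩
      left_inv := fun x => by apply Subtype.ext; simp [mul_assoc]
      right_inv := fun x => by apply Subtype.ext; simp [mul_assoc] }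
  rw [← Equiv.prod_comp e]
  apply Finset.prod_congr rfl
  intro x _
  rw [← MulAut.mul_apply, ← MulAut.mul_apply, ← map_mul, ← map_mul]
  congr 2
  change n * x * n⁻¹ * n = n * x
  group

/-- abelian normal subgroups with supplement `N_G(P)` -/
lemma case_abelian_coprime (A : Subgroup G) (hA : A.Normal) [hAc : IsMulCommutative A]
    (hAp : ¬ p ∣ Nat.card A) (P : Sylow p G)
    (hG : A ⊔ Subgroup.normalizer (P : Set G) = ⊤) : McKayCongr p G := by
  classical
  have := Fintype.ofFinite (P : Subgroup G)
  set N := Subgroup.normalizer (P : Set G) with hN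
  have hPN : (P : Subgroup G) ≤ N := Subgroup.le_normalizer (H := (P : Subgroup G))
  set L : Subgroup G := (nm P A).ker.map A.subtype with hL
  have hLA : L ≤ A := Subgroup.map_subtype_le _
  have hcop : Nat.Coprime (Nat.card P) (Nat.card A) := by
    obtain ⟨n, hn⟩ := IsPGroup.iff_card.1 P.isPGroup'
    have h1 : Nat.card P = p ^ n := hn
    rw [h1]
    apply Nat.Coprime.pow_left
    rw [Nat.Prime.coprime_iff_not_dvd Fact.out]
    exact hAp
  -- normality
  have hLn : L.Normal := by
    have h1 : A ⊔ N ≤ Subgroup.normalizer (L : Set G) := by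
      rw [sup_le_iff]
      constructor
      · intro a ha
        refine (Subgroup.mem_normalizer_iff (H := L)).2 (fun l => ?_)
        constructor
        · intro hl
          have h2 : a * l = l * a :=
            congrArg Subtype.val (mul_comm (⟨a, ha⟩ : A) ⟨l, hLA hl⟩)
          rw [h2, mul_inv_cancel_right]; exact hl
        · intro hl
          have h3 : l ∈ A := by
            have h4 := A.mul_mem (A.mul_mem (A.inv_mem ha) (hLA hl)) ha
            have h5 : a⁻¹ * (a * l * a⁻¹) * a = l := by group
            rwa [h5] at h4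
          have h2 : a * l = l * a :=
            congrArg Subtype.val (mul_comm (⟨a, ha⟩ : A) ⟨l, h3⟩)
          rw [h2, mul_inv_cancel_right] at hl; exact hl
      · have key : ∀ n ∈ N, ∀ l ∈ L, n * l * n⁻¹ ∈ L := by
          rintro n hn _ ⟨a, ha, rfl⟩
          refine ⟨(MulAut.conjNormal n : MulAut A) a, ?_, by simp⟩
          change _ ∈ (nm P A).ker
          rw [MonoidHom.mem_ker, nm_conj P A n hn]
          have ha' : nm P A a = 1 := ha
          rw [ha', map_one]
        intro n hn
        refine (Subgroup.mem_normalizer_iff (H := L)).2 (fun l => ⟨key n hn l, ?_⟩)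
        intro hl
        have h2 := key n⁻¹ (N.inv_mem hn) _ hl
        have h3 : n⁻¹ * (n * l * n⁻¹) * n⁻¹⁻¹ = l := by group
        rwa [h3] at h2
    rw [hG] at h1
    exact Subgroup.normalizer_eq_top_iff.1 (top_le_iff.1 h1)
  -- trivial intersection
  have hdis : Disjoint L N := by
    rw [Subgroup.disjoint_def]
    rintro _ ⟨a, ha, rfl⟩ haN
    have ha1 : nm P A a = 1 := ha
    have hcomm : ∀ x : (P : Subgroup G), (MulAut.conjNormal (x : G) : MulAut A) a = a := by
      intro x
      apply Subtype.ext
      rw [MulAut.conjNormal_apply]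
      -- the commutator lies in `P ∩ A = 1`
      set y : G := (x : G) * a * (x : G)⁻¹ * (a : G)⁻¹ with hy
      have hyA : y ∈ A := A.mul_mem (hA.conj_mem a a.2 x) (A.inv_mem a.2)
      have hyP : y ∈ P := by
        have h1 : (a : G) * (x : G)⁻¹ * (a : G)⁻¹ ∈ P :=
          normalizer_conj_mem' haN ((P : Subgroup G).inv_mem x.2)
        have h2 := (P : Subgroup G).mul_mem x.2 h1
        have h3 : (x : G) * ((a : G) * (x : G)⁻¹ * (a : G)⁻¹) = y := by rw [hy]; group
        rw [h3] at h2
        exact h2
      have hy1 : y = 1 := by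
        have h1 : orderOf y ∣ Nat.card A := by
          have := orderOf_dvd_natCard (⟨y, hyA⟩ : A)
          rwa [Subgroup.orderOf_mk] at this
        have h2 : orderOf y ∣ Nat.card P := by
          have := orderOf_dvd_natCard (⟨y, hyP⟩ : (P : Subgroup G))
          rw [← Subgroup.orderOf_coe] at this
          exact this
        have h3 := Nat.dvd_gcd h2 h1
        rw [hcop, Nat.dvd_one] at h3
        exact orderOf_eq_one_iff.1 h3
      exact mul_inv_eq_one.1 hy1
    have h1 : nm P A a = a ^ Nat.card P := by
      rw [nm_apply, Finset.prod_congr rfl (fun x _ => hcomm x), Finset.prod_const,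
        Finset.card_univ, Nat.card_eq_fintype_card]
    rw [h1] at ha1
    have h2 : orderOf a ∣ Nat.card P := orderOf_dvd_of_pow_eq_one ha1
    have h3 : orderOf a ∣ Nat.card A := orderOf_dvd_natCard a
    have h4 := Nat.dvd_gcd h2 h3
    rw [hcop, Nat.dvd_one] at h4
    have h5 : a = 1 := orderOf_eq_one_iff.1 h4
    rw [h5]; rfl
  -- supplement
  have hinv : ∀ a : A, ∀ x : (P : Subgroup G), (MulAut.conjNormal (x : G) : MulAut A) (nm P A a) = nm P A a := by
    intro a x
    rw [nm_apply, map_prod]
    rw [← Equiv.prod_comp (Equiv.mulLeft x)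
      (fun y : (P : Subgroup G) => (MulAut.conjNormal (y : G) : MulAut A) a)]
    apply Finset.prod_congr rfl
    intro y _
    rw [← MulAut.mul_apply, ← map_mul]
    rfl
  have hnmN : ∀ a : A, ((nm P A a : A) : G) ∈ N := by
    intro a
    refine (Subgroup.mem_normalizer_iff (H := (P : Subgroup G))).2 (fun x => ?_)
    have key : ∀ x ∈ P, ((nm P A a : A) : G) * x * ((nm P A a : A) : G)⁻¹ = x := by
      intro x hx
      have h1 := congrArg Subtype.val (hinv a ⟨x, hx⟩)
      rw [MulAut.conjNormal_apply] at h1
      change x * ((nm P A a : A) : G) * x⁻¹ = ((nm P A a : A) : G) at h1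
      rw [mul_inv_eq_iff_eq_mul] at h1
      rw [← h1, mul_inv_cancel_right]
    constructor
    · intro hx
      rw [key x hx]; exact hx
    · intro hx
      have h2 := key _ hx
      have h3 : x = ((nm P A a : A) : G) * x * ((nm P A a : A) : G)⁻¹ := by
        have h4 := congrArg (fun t => ((nm P A a : A) : G)⁻¹ * t * ((nm P A a : A) : G)) h2
        simp only [mul_assoc, inv_mul_cancel_left, inv_mul_cancel, mul_one] at h4
        rw [mul_assoc, h4]
      rw [h3]; exact hx
  obtain ⟨m, hm⟩ : ∃ m : ℕ, ∀ b : A, (b ^ Nat.card P) ^ m = b := by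
    by_cases hA1 : Nat.card A = 1
    · refine ⟨0, fun b => ?_⟩
      have : Subsingleton A := (Nat.card_eq_one_iff_unique.1 hA1).1
      exact Subsingleton.elim _ _
    · have hA2 : 1 < Nat.card A := by
        have := Nat.card_pos (α := A)
        omega
      obtain ⟨m, hm⟩ := Nat.exists_mul_mod_eq_one_of_coprime hcop hA2
      refine ⟨m, fun b => ?_⟩
      rw [← pow_mul, ← Nat.div_add_mod (Nat.card P * m) (Nat.card A), pow_add, pow_mul,
        pow_card_eq_one', one_pow, one_mul, hm.2, pow_one]
  have hnm2 : ∀ a : A, nm P A (nm P A a) = (nm P A a) ^ Nat.card P := by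
    intro a
    rw [nm_apply P A (nm P A a), Finset.prod_congr rfl (fun x _ => hinv a x), Finset.prod_const,
      Finset.card_univ, Nat.card_eq_fintype_card]
  have hsup : L ⊔ N = ⊤ := by
    rw [← top_le_iff, ← hG, sup_le_iff]
    refine ⟨?_, le_sup_right⟩
    intro a ha
    set a' : A := ⟨a, ha⟩ with ha'
    have h1 : a' * ((nm P A a') ^ m)⁻¹ ∈ (nm P A).ker := by
      rw [MonoidHom.mem_ker, map_mul, map_inv, map_pow, hnm2, hm, mul_inv_cancel]
    have h2 : ((a' * ((nm P A a') ^ m)⁻¹ : A) : G) ∈ L := ⟨_, h1, rfl⟩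
    have h3 : (((nm P A a') ^ m : A) : G) ∈ N := by
      rw [Subgroup.coe_pow]
      exact N.pow_mem (hnmN a') m
    have h4 : a = ((a' * ((nm P A a') ^ m)⁻¹ : A) : G) * (((nm P A a') ^ m : A) : G) := by
      rw [← Subgroup.coe_mul, inv_mul_cancel_right]
    rw [h4]
    exact Subgroup.mul_mem _ (Subgroup.mem_sup_left h2) (Subgroup.mem_sup_right h3)
  have hcompl : L.IsComplement' N := by
    apply Subgroup.isComplement'_of_disjoint_and_mul_eq_univ hdis
    rw [← Subgroup.normal_mul, hsup, Subgroup.coe_top]
  -- conclusion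
  have hLc : IsMulCommutative L := ⟨⟨fun a b => by
    apply Subtype.ext
    have h := congrArg Subtype.val (mul_comm (⟨a, hLA a.2⟩ : A) ⟨b, hLA b.2⟩)
    exact h⟩⟩
  have e := SemidirectProduct.mulEquivSubgroup hcompl
  refine mcKay_iso e.symm ?_
  refine (affine_reduction (A := L) (H := N) _ ?_).2 ?_
  · intro K _ hK
    exact mcKay_sub_of_normal (P.subtype hPN) (by
      have := Subgroup.normal_in_normalizer (H := (P : Subgroup G))
      exact this) K hK
  · exact mcKay_of_normal (P.subtype hPN) (Subgroup.normal_in_normalizer (H := (P : Subgroup G)))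

end abel

end Pool.Agent.Helper42.INC
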