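import Pool.Agent.Helper42.INC.Triple

/-! Clifford theory through the central extensions `Gam`. -/

set_option linter.unusedSectionVars false

open scoped Pointwise

namespace Pool.Agent.Helper42.INC

section indhom

variable {Γ G : Type} [Group Γ] [Group G] [Finite Γ] [Finite G] (π : Γ →* G)

open Classical in
/-- induction of a function along a homomorphism -/
noncomputable def indHom (F : Γ → ℂ) (g : G) : ℂ :=
  (Nat.card Γ : ℂ)⁻¹ * ∑ᶠ x : G, ∑ᶠ γ : Γ, if π γ = x⁻¹ * g * x then F γ else 0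

lemma indHom_eq [Fintype Γ] [Fintype G] [DecidableEq G] (F : Γ → ℂ) (g : G) :
    indHom π F g = (Nat.card Γ : ℂ)⁻¹ *
      ∑ x : G, ∑ γ : Γ, if π γ = x⁻¹ * g * x then F γ else 0 := by
  unfold indHom
  rw [finsum_eq_sum_of_fintype]
  congr 1
  apply Finset.sum_congr rfl
  intro x _
  rw [finsum_eq_sum_of_fintype]
  apply Finset.sum_congr rfl
  intro γ _
  congr

lemma indHom_isClass (F : Γ → ℂ) : IsClass (indHom π F) := by
  classical
  have := Fintype.ofFinite Γ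
  have := Fintype.ofFinite G
  intro g x
  rw [indHom_eq, indHom_eq]
  congr 1
  rw [← Equiv.sum_comp (Equiv.mulLeft g)]
  apply Finset.sum_congr rfl
  intro y _
  apply Finset.sum_congr rfl
  intro γ _
  have : ((Equiv.mulLeft g) y)⁻¹ * (g * x * g⁻¹) * (Equiv.mulLeft g) y = y⁻¹ * x * y := by
    simp [mul_assoc]
  rw [this]

/-- Frobenius reciprocity -/
lemma B_indHom (F : Γ → ℂ) {χ : G → ℂ} (hχ : IsClass χ) :
    B (indHom π F) χ = B F (fun γ => χ (π γ)) := by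
  classical
  have := Fintype.ofFinite Γ
  have := Fintype.ofFinite G
  rw [B_eq, B_eq]
  have h1 : ∑ g : G, indHom π F g * χ g⁻¹ = (Nat.card Γ : ℂ)⁻¹ *
      ∑ x : G, ∑ g : G, ∑ γ : Γ, (if π γ = x⁻¹ * g * x then F γ else 0) * χ g⁻¹ := by
    rw [Finset.sum_comm, Finset.mul_sum]
    apply Finset.sum_congr rfl
    intro g _
    rw [indHom_eq, mul_assoc, Finset.sum_mul]
    congr 1
    apply Finset.sum_congr rfl
    intro x _
    rw [Finset.sum_mul]
  have h2 : ∀ x : G, ∑ g : G, ∑ γ : Γ, (if π γ = x⁻¹ * g * x then F γ else 0) * χ g⁻¹ =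
      ∑ γ : Γ, F γ * χ (π γ⁻¹) := by
    intro x
    rw [Finset.sum_comm]
    apply Finset.sum_congr rfl
    intro γ _
    rw [Finset.sum_eq_single (x * π γ * x⁻¹)]
    · rw [if_pos (by group)]
      congr 1
      have : (x * π γ * x⁻¹)⁻¹ = x * π γ⁻¹ * x⁻¹ := by rw [map_inv]; group
      rw [this, hχ]
    · intro g _ hg
      rw [if_neg, zero_mul]
      intro he
      apply hg
      rw [he]; group
    · intro h; exact absurd (Finset.mem_univ _) h
  rw [h1, Finset.sum_congr rfl (fun x _ => h2 x), Finset.sum_const, nsmul_eq_mul,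
    Finset.card_univ, ← Nat.card_eq_fintype_card]
  have hG : (Nat.card G : ℂ) ≠ 0 := by exact_mod_cast Nat.card_pos.ne'
  field_simp

lemma sum_hom [Fintype Γ] [Fintype G] (F : G → ℂ) [DecidablePred (· ∈ π.range)] :
    ∑ y : Γ, F (π y) = (Nat.card π.ker : ℂ) * ∑ x : G, if x ∈ π.range then F x else 0 := by
  classical
  have h1 : ∑ y : Γ, F (π y) = ∑ x : G, ∑ y ∈ Finset.univ.filter (fun y => π y = x), F (π y) :=
    (Finset.sum_fiberwise Finset.univ π (fun y => F (π y))).symm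
  rw [h1, Finset.mul_sum]
  apply Finset.sum_congr rfl
  intro x _
  have h2 : ∑ y ∈ Finset.univ.filter (fun y => π y = x), F (π y) =
      ∑ y ∈ Finset.univ.filter (fun y => π y = x), F x := by
    apply Finset.sum_congr rfl
    intro y hy
    rw [(Finset.mem_filter.1 hy).2]
  rw [h2, Finset.sum_const, nsmul_eq_mul]
  split_ifs with hx
  · congr 2
    obtain ⟨x₀, hx₀⟩ := hx
    rw [Nat.card_eq_fintype_card, ← Fintype.card_coe]
    apply Fintype.card_congr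
    exact
      { toFun := fun y => ⟨y.1 * x₀⁻¹, by
          have := (Finset.mem_filter.1 y.2).2
          rw [MonoidHom.mem_ker, map_mul, map_inv, this, hx₀, mul_inv_cancel]⟩
        invFun := fun k => ⟨k.1 * x₀, by
          rw [Finset.mem_filter]
          refine ⟨Finset.mem_univ _, ?_⟩
          rw [map_mul, MonoidHom.mem_ker.1 k.2, one_mul, hx₀]⟩
        left_inv := fun y => by simp
        right_inv := fun k => by simp }
  · have : Finset.univ.filter (fun y => π y = x) = ∅ := by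
      rw [Finset.filter_eq_empty_iff]
      intro y _ hy
      exact hx ⟨y, hy⟩
    rw [this]; simp

end indhom

section clifford

variable {M G : Type} [Group M] [Group G] [Finite M] [Finite G] (D : NP M G)
  {V : Type} [AddCommGroup V] [Module ℂ V] [FiniteDimensional ℂ V] (ρ : Representation ℂ M V)

/-- invariance under the image of `M` -/
def InvM (ψ : Gam D ρ → ℂ) : Prop := ∀ m γ, ψ (gamInc D ρ m * γ) = ψ γ

/-- scalars act by the inverse -/
def ScInv (ψ : Gam D ρ → ℂ) : Prop := ∀ (c : Sc M V) γ, ψ (gamSc D ρ c * γ) = (c.1 : ℂ)⁻¹ * ψ γ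

/-- the character of `Hom_M(V, -)` -/
noncomputable def resHat (χ : G → ℂ) (γ : Gam D ρ) : ℂ :=
  (Nat.card M : ℂ)⁻¹ * ∑ᶠ m : M, gamChar D ρ (gamInc D ρ m * γ)⁻¹ *
    χ (gamProj D ρ (gamInc D ρ m * γ))

lemma resHat_eq [Fintype M] (χ : G → ℂ) (γ : Gam D ρ) :
    resHat D ρ χ γ = (Nat.card M : ℂ)⁻¹ * ∑ m : M, gamChar D ρ (gamInc D ρ m * γ)⁻¹ *
      χ (gamProj D ρ (gamInc D ρ m * γ)) := by
  unfold resHat; rw [finsum_eq_sum_of_fintype]

lemma resHat_inv (χ : G → ℂ) : InvM D ρ (resHat D ρ χ) := by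
  have := Fintype.ofFinite M
  intro m₀ γ
  rw [resHat_eq, resHat_eq]
  congr 1
  rw [← Equiv.sum_comp (Equiv.mulRight m₀) (fun m => gamChar D ρ (gamInc D ρ m * γ)⁻¹ *
      χ (gamProj D ρ (gamInc D ρ m * γ)))]
  apply Finset.sum_congr rfl
  intro m _
  have : gamInc D ρ ((Equiv.mulRight m₀) m) * γ = gamInc D ρ m * (gamInc D ρ m₀ * γ) := by
    change gamInc D ρ (m * m₀) * γ = _
    rw [map_mul, mul_assoc]
  rw [this]

lemma resHat_sc (χ : G → ℂ) : ScInv D ρ (resHat D ρ χ) := by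
  have := Fintype.ofFinite M
  intro c γ
  rw [resHat_eq, resHat_eq, Finset.mul_sum, Finset.mul_sum, Finset.mul_sum]
  apply Finset.sum_congr rfl
  intro m _
  have hc := gamSc_central D ρ c
  have e1 : gamInc D ρ m * (gamSc D ρ c * γ) = gamSc D ρ c * (gamInc D ρ m * γ) := by
    rw [← mul_assoc, ← mul_assoc, Subgroup.mem_center_iff.1 hc]
  have e2 : (gamSc D ρ c * (gamInc D ρ m * γ))⁻¹ = gamSc D ρ c⁻¹ * (gamInc D ρ m * γ)⁻¹ := by
    rw [mul_inv_rev, map_inv]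
    have hc' := (Subgroup.center (Gam D ρ)).inv_mem hc
    exact Subgroup.mem_center_iff.1 hc' _
  rw [e1, e2, gamChar_sc_mul]
  have e3 : gamProj D ρ (gamSc D ρ c * (gamInc D ρ m * γ)) =
      gamProj D ρ (gamInc D ρ m * γ) := by
    rw [map_mul, gamProj_sc, one_mul]
  have e4 : (((c⁻¹ : Sc M V) : ℂˣ) : ℂ) = (c.1 : ℂ)⁻¹ := by
    rw [Subgroup.coe_inv, Units.val_inv_eq_inv_val]
  rw [e3, e4]
  ring

lemma gamChar_conj (y γ : Gam D ρ) : gamChar D ρ (y * γ * y⁻¹) = gamChar D ρ γ :=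
  Representation.char_conj _ _ _

lemma resHat_isClass {χ : G → ℂ} (hχ : IsClass χ) : IsClass (resHat D ρ χ) := by
  have := Fintype.ofFinite M
  intro y γ
  rw [resHat_eq, resHat_eq]
  congr 1
  rw [← Equiv.sum_comp (D.α (gamProj D ρ y)).toEquiv]
  apply Finset.sum_congr rfl
  intro m _
  have e1 : gamInc D ρ ((D.α (gamProj D ρ y)).toEquiv m) * (y * γ * y⁻¹) =
      y * (gamInc D ρ m * γ) * y⁻¹ := by
    change gamInc D ρ (D.α (gamProj D ρ y) m) * (y * γ * y⁻¹) = _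
    rw [← gam_conj]
    group
  rw [e1]
  have e2 : (y * (gamInc D ρ m * γ) * y⁻¹)⁻¹ = y * (gamInc D ρ m * γ)⁻¹ * y⁻¹ := by group
  rw [e2, gamChar_conj]
  congr 1
  rw [map_mul, map_mul, map_inv, hχ]

/-- the induced character attached to `ψ` -/
noncomputable def cliff (ψ : Gam D ρ → ℂ) : G → ℂ :=
  indHom (gamProj D ρ) (fun γ => gamChar D ρ γ * ψ γ)

lemma cliff_isClass [ρ.IsIrreducible] (ψ : Gam D ρ → ℂ) : IsClass (cliff D ρ ψ) :=
  indHom_isClass _ _

lemma mul_inc (γ : Gam D ρ) (m : M) :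
    γ * gamInc D ρ m = gamInc D ρ (D.α (gamProj D ρ γ) m) * γ := by
  rw [← gam_conj]; group

variable [hρ : ρ.IsIrreducible]

lemma B_cliff {ψ : Gam D ρ → ℂ} (hψ : InvM D ρ ψ) {χ : G → ℂ} (hχ : IsClass χ) :
    B (cliff D ρ ψ) χ = B ψ (resHat D ρ χ) := by
  have := Fintype.ofFinite M
  have := Fintype.ofFinite (Gam D ρ)
  unfold cliff
  rw [B_indHom _ _ hχ, B_eq, B_eq]
  congr 1
  have h1 : ∑ γ : Gam D ρ, ψ γ * resHat D ρ χ γ⁻¹ = (Nat.card M : ℂ)⁻¹ * ∑ m : M,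
      ∑ γ : Gam D ρ, ψ γ * (gamChar D ρ (gamInc D ρ m * γ⁻¹)⁻¹ *
        χ (gamProj D ρ (gamInc D ρ m * γ⁻¹))) := by
    rw [Finset.sum_comm, Finset.mul_sum]
    apply Finset.sum_congr rfl
    intro γ _
    rw [resHat_eq, ← mul_assoc, mul_comm (ψ γ), mul_assoc, Finset.mul_sum]
  have h2 : ∀ m : M, ∑ γ : Gam D ρ, ψ γ * (gamChar D ρ (gamInc D ρ m * γ⁻¹)⁻¹ *
        χ (gamProj D ρ (gamInc D ρ m * γ⁻¹))) =
      ∑ γ : Gam D ρ, gamChar D ρ γ * ψ γ * χ (gamProj D ρ γ⁻¹) := by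
    intro m
    rw [← Equiv.sum_comp (Equiv.mulRight (gamInc D ρ m))]
    apply Finset.sum_congr rfl
    intro γ _
    have e1 : gamInc D ρ m * ((Equiv.mulRight (gamInc D ρ m)) γ)⁻¹ = γ⁻¹ := by
      change gamInc D ρ m * (γ * gamInc D ρ m)⁻¹ = γ⁻¹
      rw [mul_inv_rev, mul_inv_cancel_left]
    have e2 : ψ ((Equiv.mulRight (gamInc D ρ m)) γ) = ψ γ := by
      change ψ (γ * gamInc D ρ m) = ψ γ
      rw [mul_inc, hψ]
    rw [e1, e2, inv_inv]
    ring
  rw [h1, Finset.sum_congr rfl (fun m _ => h2 m), Finset.sum_const, nsmul_eq_mul,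
    Finset.card_univ, ← Nat.card_eq_fintype_card, ← mul_assoc, inv_mul_cancel₀, one_mul]
  exact_mod_cast Nat.card_pos.ne'

lemma B_cliff_nat {ψ : Gam D ρ → ℂ} (hψ : ψ ∈ Irr (Gam D ρ)) {χ : G → ℂ} (hχ : χ ∈ Irr G) :
    ∃ n : ℕ, B (cliff D ρ ψ) χ = n := by
  have hχc := Irr.isClass hχ
  obtain ⟨W, _, _, _, τ, hτ, rfl⟩ := hψ
  obtain ⟨U, _, _, _, σ, hσ, rfl⟩ := hχ
  unfold cliff
  rw [B_indHom _ _ hχc]
  let σ' : Representation ℂ (Gam D ρ) U := σ.comp (gamProj D ρ)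
  obtain ⟨n, hn⟩ := B_char (Representation.tprod (gamRep D ρ) τ) σ'
  refine ⟨n, ?_⟩
  rw [← hn]
  congr 1
  rw [Representation.char_tensor]
  rfl

end clifford

section key

variable {M G : Type} [Group M] [Group G] [Finite M] [Finite G] (D : NP M G)
  {V : Type} [AddCommGroup V] [Module ℂ V] [FiniteDimensional ℂ V] (ρ : Representation ℂ M V)
  [hρ : ρ.IsIrreducible]
  {W : Type} [AddCommGroup W] [Module ℂ W] [FiniteDimensional ℂ W] (τ : Representation ℂ M W)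
  [hτ : τ.IsIrreducible]

/-- the inner sum -/
noncomputable def innerSum [Fintype M] (γ : Gam D ρ) (x : G) (δ : Gam D τ) : ℂ :=
  ∑ m : M, LinearMap.trace ℂ V (gamRep D ρ γ⁻¹ ∘ₗ ρ m⁻¹) *
    LinearMap.trace ℂ W (τ (D.α x⁻¹ m) ∘ₗ gamRep D τ δ)

open Classical in
lemma resHat_cliff [Fintype M] [Fintype G] [Fintype (Gam D τ)] {ψ : Gam D τ → ℂ}
    (hψ : InvM D τ ψ) (γ : Gam D ρ) :
    resHat D ρ (cliff D τ ψ) γ = (Nat.card M : ℂ)⁻¹ * (Nat.card (Gam D τ) : ℂ)⁻¹ *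
      ∑ x : G, ∑ δ : Gam D τ, if gamProj D τ δ = x⁻¹ * gamProj D ρ γ * x then
        ψ δ * innerSum D ρ τ γ x δ else 0 := by
  rw [resHat_eq, mul_assoc]
  congr 1
  have h1 : ∀ m : M, gamChar D ρ (gamInc D ρ m * γ)⁻¹ *
      cliff D τ ψ (gamProj D ρ (gamInc D ρ m * γ)) = (Nat.card (Gam D τ) : ℂ)⁻¹ *
      ∑ x : G, ∑ δ : Gam D τ, if gamProj D τ δ = x⁻¹ * gamProj D ρ γ * x then
        ψ δ * (LinearMap.trace ℂ V (gamRep D ρ γ⁻¹ ∘ₗ ρ m⁻¹) *
          LinearMap.trace ℂ W (τ (D.α x⁻¹ m) ∘ₗ gamRep D τ δ)) else 0 := by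
    intro m
    unfold cliff
    rw [indHom_eq, ← mul_assoc, mul_comm (gamChar D ρ (gamInc D ρ m * γ)⁻¹), mul_assoc,
      Finset.mul_sum]
    congr 1
    apply Finset.sum_congr rfl
    intro x _
    rw [Finset.mul_sum]
    rw [← Equiv.sum_comp (Equiv.mulLeft (gamInc D τ (D.α x⁻¹ m)))]
    apply Finset.sum_congr rfl
    intro δ _
    have e0 : (Equiv.mulLeft (gamInc D τ (D.α x⁻¹ m))) δ = gamInc D τ (D.α x⁻¹ m) * δ := rfl
    rw [e0, hψ]
    have e1 : (gamProj D τ (gamInc D τ (D.α x⁻¹ m) * δ) =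
        x⁻¹ * gamProj D ρ (gamInc D ρ m * γ) * x) ↔
        (gamProj D τ δ = x⁻¹ * gamProj D ρ γ * x) := by
      rw [map_mul, map_mul, gamProj_inc, gamProj_inc, D.compat, inv_inv]
      have : x⁻¹ * (D.ι m * gamProj D ρ γ) * x =
        x⁻¹ * D.ι m * x * (x⁻¹ * gamProj D ρ γ * x) := by group
      rw [this]
      exact mul_right_inj _
    have e2 : gamChar D ρ (gamInc D ρ m * γ)⁻¹ =
        LinearMap.trace ℂ V (gamRep D ρ γ⁻¹ ∘ₗ ρ m⁻¹) := by
      change LinearMap.trace ℂ V (gamRep D ρ (gamInc D ρ m * γ)⁻¹) = _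
      rw [mul_inv_rev, map_mul, ← map_inv (gamInc D ρ), gamRep_inc]
      rfl
    have e3 : gamChar D τ (gamInc D τ (D.α x⁻¹ m) * δ) =
        LinearMap.trace ℂ W (τ (D.α x⁻¹ m) ∘ₗ gamRep D τ δ) := by
      change LinearMap.trace ℂ W (gamRep D τ (gamInc D τ (D.α x⁻¹ m) * δ)) = _
      rw [map_mul, gamRep_inc]
      rfl
    by_cases hc : gamProj D τ δ = x⁻¹ * gamProj D ρ γ * x
    · rw [if_pos (e1.2 hc), if_pos hc, e2, e3]
      ring
    · rw [if_neg (fun h => hc (e1.1 h)), if_neg hc, mul_zero]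
  rw [Finset.sum_congr rfl (fun m _ => h1 m), ← Finset.mul_sum]
  congr 1
  rw [Finset.sum_comm]
  apply Finset.sum_congr rfl
  intro x _
  rw [Finset.sum_comm]
  apply Finset.sum_congr rfl
  intro δ _
  split_ifs with hc
  · unfold innerSum
    rw [Finset.mul_sum]
  · simp

/-- twisting by an automorphism -/
noncomputable def twistA (x : G) : Representation ℂ M W := τ.comp (D.α x).toMonoidHom

lemma twistA_irr (x : G) : (twistA D τ x).IsIrreducible := by
  rw [isIrreducible_iff] at hτ ⊢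
  refine ⟨hτ.1, fun U hU => hτ.2 U (fun m v hv => ?_)⟩
  have := hU ((D.α x).symm m) v hv
  simpa [twistA] using this

lemma innerSum_zero [Fintype M] (γ : Gam D ρ) (x : G) (δ : Gam D τ)
    (h : ρ.character ≠ (twistA D τ x⁻¹).character) : innerSum D ρ τ γ x δ = 0 := by
  have := twistA_irr D τ x⁻¹
  exact schur_trace_zero ρ (twistA D τ x⁻¹) h _ _

lemma resHat_cliff_ne {ψ : Gam D τ → ℂ} (hψ : InvM D τ ψ)
    (h : ∀ x : G, ρ.character ≠ (twistA D τ x).character) : resHat D ρ (cliff D τ ψ) = 0 := by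
  classical
  have := Fintype.ofFinite M
  have := Fintype.ofFinite G
  have := Fintype.ofFinite (Gam D τ)
  ext γ
  rw [resHat_cliff D ρ τ hψ]
  have : ∀ x : G, ∀ δ : Gam D τ, (if gamProj D τ δ = x⁻¹ * gamProj D ρ γ * x then
        ψ δ * innerSum D ρ τ γ x δ else 0) = 0 := by
    intro x δ
    rw [innerSum_zero D ρ τ γ x δ (h x⁻¹), mul_zero, ite_self]
  simp [this]

lemma innerSum_self [Fintype M] (γ y δ : Gam D ρ) :
    innerSum D ρ ρ γ (gamProj D ρ y) δ =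
      (Nat.card M : ℂ) / Module.finrank ℂ V * gamChar D ρ (γ⁻¹ * (y * δ * y⁻¹)) := by
  have h1 : innerSum D ρ ρ γ (gamProj D ρ y) δ =
      ∑ m : M, LinearMap.trace ℂ V (gamRep D ρ γ⁻¹ ∘ₗ ρ m⁻¹) *
        LinearMap.trace ℂ V (ρ m ∘ₗ gamRep D ρ (y * δ * y⁻¹)) := by
    apply Finset.sum_congr rfl
    intro m _
    congr 1
    have h2 : ρ (D.α (gamProj D ρ y)⁻¹ m) = gamRep D ρ y⁻¹ * ρ m * gamRep D ρ y := by
      have h3 := gamRep_comm D ρ y⁻¹ m
      rw [map_inv (gamProj D ρ)] at h3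
      rw [h3, mul_assoc, ← map_mul, inv_mul_cancel, map_one, mul_one]
    change LinearMap.trace ℂ V (ρ (D.α (gamProj D ρ y)⁻¹ m) * gamRep D ρ δ) =
      LinearMap.trace ℂ V (ρ m * gamRep D ρ (y * δ * y⁻¹))
    rw [h2, mul_assoc, mul_assoc, LinearMap.trace_mul_comm, mul_assoc, ← map_mul, ← map_mul]
  rw [h1, schur_trace]
  have h5 : gamRep D ρ γ⁻¹ ∘ₗ gamRep D ρ (y * δ * y⁻¹) = gamRep D ρ (γ⁻¹ * (y * δ * y⁻¹)) :=
    (map_mul (gamRep D ρ) _ _).symm
  rw [h5]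
  rfl

lemma resHat_cliff_self {ψ : Gam D ρ → ℂ} (hψ : InvM D ρ ψ) (hc : IsClass ψ)
    (hs : ScInv D ρ ψ) : resHat D ρ (cliff D ρ ψ) = ψ := by
  classical
  have := Fintype.ofFinite M
  have := Fintype.ofFinite G
  have := Fintype.ofFinite (Gam D ρ)
  ext γ
  rw [resHat_cliff D ρ ρ hψ]
  set κ : ℂ := (Nat.card (gamProj D ρ).ker : ℂ) with hκ
  have hκ0 : κ ≠ 0 := by rw [hκ]; exact_mod_cast Nat.card_pos.ne'
  have hd := finrank_ne_zero_of_irr ρ
  set F : G → ℂ := fun x => ∑ δ : Gam D ρ, if gamProj D ρ δ = x⁻¹ * gamProj D ρ γ * x then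
        ψ δ * innerSum D ρ ρ γ x δ else 0 with hF
  -- vanishing outside the range
  have hF0 : ∀ x, x ∉ (gamProj D ρ).range → F x = 0 := by
    intro x hx
    apply Finset.sum_eq_zero
    intro δ _
    rw [innerSum_zero D ρ ρ γ x δ, mul_zero, ite_self]
    intro he
    have h1 : ∃ γ, gamProj D ρ γ = x⁻¹ := by
      rw [mem_range_gamProj]
      intro m
      exact (congrFun he m).symm
    obtain ⟨y, hy⟩ := h1
    apply hx
    exact ⟨y⁻¹, by rw [map_inv, hy, inv_inv]⟩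
  have hsum : ∑ x : G, F x = κ⁻¹ * ∑ y : Gam D ρ, F (gamProj D ρ y) := by
    rw [sum_hom, ← mul_assoc, inv_mul_cancel₀ hκ0, one_mul]
    apply Finset.sum_congr rfl
    intro x _
    split_ifs with hx
    · rfl
    · exact hF0 x hx
  -- value on the range
  have hFy : ∀ y : Gam D ρ, F (gamProj D ρ y) = (Nat.card M : ℂ) * κ * ψ γ := by
    intro y
    simp only [hF]
    rw [← Equiv.sum_comp ((Equiv.mulLeft γ).trans (MulAut.conj y⁻¹).toEquiv)]
    have h1 : ∀ δ : Gam D ρ, (if gamProj D ρ (((Equiv.mulLeft γ).trans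
          (MulAut.conj y⁻¹).toEquiv) δ) = (gamProj D ρ y)⁻¹ * gamProj D ρ γ * gamProj D ρ y then
        ψ (((Equiv.mulLeft γ).trans (MulAut.conj y⁻¹).toEquiv) δ) *
          innerSum D ρ ρ γ (gamProj D ρ y) (((Equiv.mulLeft γ).trans
            (MulAut.conj y⁻¹).toEquiv) δ) else 0) =
        if δ ∈ (gamProj D ρ).ker then (Nat.card M : ℂ) * ψ γ else 0 := by
      intro δ
      have e0 : ((Equiv.mulLeft γ).trans (MulAut.conj y⁻¹).toEquiv) δ = y⁻¹ * (γ * δ) * y := by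
        change y⁻¹ * (γ * δ) * (y⁻¹)⁻¹ = _
        rw [inv_inv]
      rw [e0]
      have e1 : (gamProj D ρ (y⁻¹ * (γ * δ) * y) =
          (gamProj D ρ y)⁻¹ * gamProj D ρ γ * gamProj D ρ y) ↔ δ ∈ (gamProj D ρ).ker := by
        rw [map_mul, map_mul, map_mul, map_inv, MonoidHom.mem_ker]
        constructor
        · intro h
          have h2 := mul_right_cancel h
          have h3 := mul_left_cancel h2
          exact mul_eq_left.1 h3
        · intro h
          rw [h, mul_one]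
      by_cases hδ : δ ∈ (gamProj D ρ).ker
      · rw [if_pos (e1.2 hδ), if_pos hδ]
        obtain ⟨c, rfl⟩ := gam_ker D ρ (MonoidHom.mem_ker.1 hδ)
        rw [innerSum_self]
        have e2 : ψ (y⁻¹ * (γ * gamSc D ρ c) * y) = (c.1 : ℂ)⁻¹ * ψ γ := by
          have h4 := hc y⁻¹ (γ * gamSc D ρ c)
          rw [inv_inv] at h4
          rw [h4, Subgroup.mem_center_iff.1 (gamSc_central D ρ c) γ, hs]
        have e3 : γ⁻¹ * (y * (y⁻¹ * (γ * gamSc D ρ c) * y) * y⁻¹) = gamSc D ρ c * 1 := by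
          group
        rw [e2, e3, gamChar_sc_mul, gamChar_one]
        have hc0 : (c.1 : ℂ) ≠ 0 := Units.ne_zero _
        field_simp
      · rw [if_neg (fun h => hδ (e1.1 h)), if_neg hδ]
    rw [Finset.sum_congr rfl (fun δ _ => h1 δ), ← Finset.sum_filter, Finset.sum_const,
      nsmul_eq_mul]
    have h2 : ((Finset.univ.filter (fun δ => δ ∈ (gamProj D ρ).ker)).card : ℂ) = κ := by
      rw [hκ, Nat.card_eq_fintype_card, Fintype.card_subtype]
    rw [h2]
    ring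
  change (Nat.card M : ℂ)⁻¹ * (Nat.card (Gam D ρ) : ℂ)⁻¹ * ∑ x : G, F x = ψ γ
  rw [hsum, Finset.sum_congr rfl (fun y _ => hFy y), Finset.sum_const, nsmul_eq_mul,
    Finset.card_univ, ← Nat.card_eq_fintype_card]
  have hM : (Nat.card M : ℂ) ≠ 0 := by exact_mod_cast Nat.card_pos.ne'
  have hΓ : (Nat.card (Gam D ρ) : ℂ) ≠ 0 := by exact_mod_cast Nat.card_pos.ne'
  field_simp

end key

end Pool.Agent.Helper42.INC
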