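import Pool.Agent.Helper42.INC.Basic

/-! Schur orthogonality for matrix coefficients, in trace form. -/

set_option linter.unusedSectionVars false

namespace Pool.Agent.Helper42.INC

lemma finrank_ne_zero_of_irr {M : Type} [Group M] {V : Type} [AddCommGroup V] [Module ℂ V]
    [FiniteDimensional ℂ V] (ρ : Representation ℂ M V) [hρ : ρ.IsIrreducible] :
    (Module.finrank ℂ V : ℂ) ≠ 0 := by
  have hV : Nontrivial V := ((isIrreducible_iff ρ).1 hρ).1
  exact_mod_cast (Module.finrank_pos (R := ℂ) (M := V)).ne'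

variable {M : Type} [Group M] [Finite M] [Fintype M]

section

variable {V W : Type} [AddCommGroup V] [Module ℂ V] [FiniteDimensional ℂ V]
  [AddCommGroup W] [Module ℂ W] [FiniteDimensional ℂ W]
  (ρ : Representation ℂ M V) (τ : Representation ℂ M W)

/-- the averaged map -/
noncomputable def avgMap (L : V →ₗ[ℂ] W) : V →ₗ[ℂ] W := ∑ m : M, τ m ∘ₗ L ∘ₗ ρ m⁻¹

lemma avgMap_comm (L : V →ₗ[ℂ] W) (g : M) : avgMap ρ τ L ∘ₗ ρ g = τ g ∘ₗ avgMap ρ τ L := by
  ext v
  simp only [avgMap, LinearMap.comp_apply, LinearMap.sum_apply, map_sum]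
  rw [← Equiv.sum_comp (Equiv.mulLeft g)]
  apply Finset.sum_congr rfl
  intro m _
  have h1 : ρ (Equiv.mulLeft g m)⁻¹ (ρ g v) = ρ m⁻¹ v := by
    have : ρ m⁻¹ v = ρ ((Equiv.mulLeft g m)⁻¹ * g) v := by
      congr 2
      simp
    rw [this, map_mul]; rfl
  rw [h1]
  have h2 : τ (Equiv.mulLeft g m) (L (ρ m⁻¹ v)) = τ g (τ m (L (ρ m⁻¹ v))) := by
    have : Equiv.mulLeft g m = g * m := rfl
    rw [this, map_mul]; rfl
  rw [h2]

/-- the averaged map as an intertwiner -/
noncomputable def avgInt (L : V →ₗ[ℂ] W) : Representation.IntertwiningMap ρ τ :=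
  ⟨avgMap ρ τ L, fun g => avgMap_comm ρ τ L g⟩

lemma avgMap_zero [hρ : ρ.IsIrreducible] [hτ : τ.IsIrreducible]
    (hne : ρ.character ≠ τ.character) (L : V →ₗ[ℂ] W) : avgMap ρ τ L = 0 := by
  rcases Representation.IsIrreducible.bijective_or_eq_zero (avgInt ρ τ L) with h | h
  · exfalso
    apply hne
    exact Representation.char_iso (Representation.IntertwiningMap.ofBijective (avgInt ρ τ L) h)
  · exact congrArg (fun f => f.toLinearMap) h

lemma avgMap_scalar [hρ : ρ.IsIrreducible] (L : V →ₗ[ℂ] V) :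
    avgMap ρ ρ L = ((Nat.card M : ℂ) * LinearMap.trace ℂ V L / Module.finrank ℂ V) •
      LinearMap.id := by
  obtain ⟨c, hc⟩ :=
    (Representation.IsIrreducible.algebraMap_intertwiningMap_bijective_of_isAlgClosed
      (ρ := ρ)).2 (avgInt ρ ρ L)
  have h1 : avgMap ρ ρ L = c • LinearMap.id := by
    have : (avgInt ρ ρ L).toLinearMap = c • LinearMap.id := by
      rw [← hc]; rfl
    exact this
  have h2 : LinearMap.trace ℂ V (avgMap ρ ρ L) = (Nat.card M : ℂ) * LinearMap.trace ℂ V L := by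
    unfold avgMap
    rw [map_sum]
    have : ∀ m : M, LinearMap.trace ℂ V (ρ m ∘ₗ L ∘ₗ ρ m⁻¹) = LinearMap.trace ℂ V L := by
      intro m
      change LinearMap.trace ℂ V (ρ m * (L * ρ m⁻¹)) = _
      rw [LinearMap.trace_mul_comm, mul_assoc, ← map_mul, inv_mul_cancel, map_one, mul_one]
    rw [Finset.sum_congr rfl (fun m _ => this m), Finset.sum_const, nsmul_eq_mul,
      Finset.card_univ, Nat.card_eq_fintype_card]
  rw [h1, map_smul, LinearMap.trace_id, smul_eq_mul] at h2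
  have h3 := finrank_ne_zero_of_irr ρ
  rw [h1]
  congr 1
  rw [← h2]
  field_simp

lemma trace_eq_sum {ι : Type} [Fintype ι] [DecidableEq ι] (b : Module.Basis ι ℂ V)
    (f : V →ₗ[ℂ] V) : LinearMap.trace ℂ V f = ∑ i, b.repr (f (b i)) i := by
  rw [LinearMap.trace_eq_matrix_trace ℂ b]
  simp [Matrix.trace, LinearMap.toMatrix_apply]

/-- rewriting a product of traces through averaged rank one maps -/
lemma sum_trace_mul (A : V →ₗ[ℂ] V) (B' : W →ₗ[ℂ] W) :
    ∑ m : M, LinearMap.trace ℂ V (A ∘ₗ ρ m⁻¹) * LinearMap.trace ℂ W (τ m ∘ₗ B') =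
      ∑ i, ∑ k, (Module.finBasis ℂ W).repr
        (avgMap ρ τ (LinearMap.smulRight ((Module.finBasis ℂ V).coord i ∘ₗ A)
          (B' (Module.finBasis ℂ W k))) (Module.finBasis ℂ V i)) k := by
  classical
  have h1 : ∀ m : M, LinearMap.trace ℂ V (A ∘ₗ ρ m⁻¹) * LinearMap.trace ℂ W (τ m ∘ₗ B') =
      ∑ i, ∑ k, (Module.finBasis ℂ W).repr
        ((τ m ∘ₗ (LinearMap.smulRight ((Module.finBasis ℂ V).coord i ∘ₗ A)
          (B' (Module.finBasis ℂ W k))) ∘ₗ ρ m⁻¹) (Module.finBasis ℂ V i)) k := by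
    intro m
    rw [trace_eq_sum (Module.finBasis ℂ V), trace_eq_sum (Module.finBasis ℂ W),
      Finset.sum_mul_sum]
    apply Finset.sum_congr rfl
    intro i _
    apply Finset.sum_congr rfl
    intro k _
    simp
  rw [Finset.sum_congr rfl (fun m _ => h1 m), Finset.sum_comm]
  apply Finset.sum_congr rfl
  intro i _
  rw [Finset.sum_comm]
  apply Finset.sum_congr rfl
  intro k _
  unfold avgMap
  rw [LinearMap.sum_apply, map_sum, Finsupp.finsetSum_apply]

lemma schur_trace_zero [hρ : ρ.IsIrreducible] [hτ : τ.IsIrreducible]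
    (hne : ρ.character ≠ τ.character) (A : V →ₗ[ℂ] V) (B' : W →ₗ[ℂ] W) :
    ∑ m : M, LinearMap.trace ℂ V (A ∘ₗ ρ m⁻¹) * LinearMap.trace ℂ W (τ m ∘ₗ B') = 0 := by
  rw [sum_trace_mul]
  apply Finset.sum_eq_zero
  intro i _
  apply Finset.sum_eq_zero
  intro k _
  rw [avgMap_zero ρ τ hne]
  simp

lemma schur_trace [hρ : ρ.IsIrreducible] (A B' : V →ₗ[ℂ] V) :
    ∑ m : M, LinearMap.trace ℂ V (A ∘ₗ ρ m⁻¹) * LinearMap.trace ℂ V (ρ m ∘ₗ B') =
      (Nat.card M : ℂ) / Module.finrank ℂ V * LinearMap.trace ℂ V (A ∘ₗ B') := by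
  classical
  rw [sum_trace_mul]
  have h1 : ∀ i k, (Module.finBasis ℂ V).repr
        (avgMap ρ ρ (LinearMap.smulRight ((Module.finBasis ℂ V).coord i ∘ₗ A)
          (B' (Module.finBasis ℂ V k))) (Module.finBasis ℂ V i)) k =
      (Nat.card M : ℂ) / Module.finrank ℂ V * ((Module.finBasis ℂ V).repr
        (A (B' (Module.finBasis ℂ V k))) i * if i = k then 1 else 0) := by
    intro i k
    rw [avgMap_scalar]
    have h2 : LinearMap.trace ℂ V (LinearMap.smulRight ((Module.finBasis ℂ V).coord i ∘ₗ A)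
          (B' (Module.finBasis ℂ V k))) = (Module.finBasis ℂ V).repr
        (A (B' (Module.finBasis ℂ V k))) i := by
      rw [LinearMap.trace_smulRight]
      simp
    rw [h2, LinearMap.smul_apply, LinearMap.id_apply, map_smul, Finsupp.smul_apply,
      Module.Basis.repr_self, Finsupp.single_apply, smul_eq_mul]
    split_ifs
    · ring
    · ring
  rw [Finset.sum_congr rfl (fun i _ => Finset.sum_congr rfl (fun k _ => h1 i k))]
  rw [trace_eq_sum (Module.finBasis ℂ V), Finset.mul_sum]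
  apply Finset.sum_congr rfl
  intro i _
  rw [Finset.sum_eq_single i]
  · simp
  · intro k _ hk
    rw [if_neg (Ne.symm hk)]; simp
  · intro h; exact absurd (Finset.mem_univ _) h

end

end Pool.Agent.Helper42.INC
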