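import Pool.Agent.Helper42.INC.Clifford

/-! Clifford theory: classification and counting. -/

set_option linter.unusedSectionVars false

open scoped Pointwise

namespace Pool.Agent.Helper42.INC

section

variable {M G : Type} [Group M] [Group G] [Finite M] [Finite G] (D : NP M G)
  {V : Type} [AddCommGroup V] [Module ℂ V] [FiniteDimensional ℂ V] (ρ : Representation ℂ M V)
  [hρ : ρ.IsIrreducible]

lemma cliff_irr {ψ : Gam D ρ → ℂ} (hψ : ψ ∈ Irr (Gam D ρ)) (hI : InvM D ρ ψ)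
    (hS : ScInv D ρ ψ) : cliff D ρ ψ ∈ Irr G := by
  apply irr_of_norm_one _ (cliff_isClass D ρ ψ) (fun χ hχ => B_cliff_nat D ρ hψ hχ)
  rw [B_cliff D ρ hI (cliff_isClass D ρ ψ), resHat_cliff_self D ρ hI (Irr.isClass hψ) hS,
    B_irr_self hψ]

omit hρ in
lemma resHat_one (χ : G → ℂ) : resHat D ρ χ 1 = B (fun m => χ (D.ι m)) ρ.character := by
  have := Fintype.ofFinite M
  rw [resHat_eq, B_eq]
  congr 1
  apply Finset.sum_congr rfl
  intro m _
  rw [mul_one, ← map_inv, gamChar_inc, gamProj_inc, mul_comm]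

omit hρ in
lemma right_inv_of {R : Gam D ρ → ℂ} (hI : InvM D ρ R) (γ : Gam D ρ) (m : M) :
    R (γ * gamInc D ρ m) = R γ := by
  rw [mul_inc, hI]

lemma invM_of_B {R : Gam D ρ → ℂ} (hI : InvM D ρ R) {ψ : Gam D ρ → ℂ}
    (hψ : ψ ∈ Irr (Gam D ρ)) (hB : B ψ R ≠ 0) : InvM D ρ ψ := by
  have := Fintype.ofFinite M
  have := Fintype.ofFinite (Gam D ρ)
  obtain ⟨U, _, _, _, σ, hσ, rfl⟩ := hψ
  set E : U →ₗ[ℂ] U := ∑ m : M, σ (gamInc D ρ m) with hE
  have hcomm : ∀ γ, E * σ γ = σ γ * E := by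
    intro γ
    rw [hE, Finset.sum_mul, Finset.mul_sum]
    rw [← Equiv.sum_comp (D.α (gamProj D ρ γ)).toEquiv]
    apply Finset.sum_congr rfl
    intro m _
    change σ (gamInc D ρ (D.α (gamProj D ρ γ) m)) * σ γ = _
    rw [← map_mul, ← map_mul, ← mul_inc]
  obtain ⟨c, hc⟩ :=
    (Representation.IsIrreducible.algebraMap_intertwiningMap_bijective_of_isAlgClosed
      (ρ := σ)).2 (⟨E, fun γ => hcomm γ⟩ : Representation.IntertwiningMap σ σ)
  have hEc : E = c • (1 : U →ₗ[ℂ] U) := by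
    have : (⟨E, fun γ => hcomm γ⟩ : Representation.IntertwiningMap σ σ).toLinearMap =
      c • (1 : U →ₗ[ℂ] U) := by
      rw [← hc]; rfl
    exact this
  have hsum : ∀ γ, ∑ m : M, σ.character (gamInc D ρ m * γ) = c * σ.character γ := by
    intro γ
    have h1 : ∑ m : M, σ.character (gamInc D ρ m * γ) = LinearMap.trace ℂ U (E * σ γ) := by
      rw [hE, Finset.sum_mul, map_sum]
      apply Finset.sum_congr rfl
      intro m _
      rw [← map_mul]; rfl
    rw [h1, hEc, smul_mul_assoc, one_mul, map_smul, smul_eq_mul]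
    rfl
  have hM : (Nat.card M : ℂ) = c := by
    have h1 : (Nat.card M : ℂ) * B σ.character R = c * B σ.character R := by
      have h2 : ∀ m : M, B σ.character R = (Nat.card (Gam D ρ) : ℂ)⁻¹ *
          ∑ γ : Gam D ρ, σ.character (gamInc D ρ m * γ) * R γ⁻¹ := by
        intro m
        rw [B_eq]
        congr 1
        rw [← Equiv.sum_comp (Equiv.mulLeft (gamInc D ρ m))]
        apply Finset.sum_congr rfl
        intro γ _
        have e : ((Equiv.mulLeft (gamInc D ρ m)) γ)⁻¹ = γ⁻¹ * gamInc D ρ m⁻¹ := by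
          change (gamInc D ρ m * γ)⁻¹ = _
          rw [mul_inv_rev, map_inv]
        rw [e, right_inv_of D ρ hI]
        rfl
      have h3 : (Nat.card M : ℂ) * B σ.character R = ∑ m : M, B σ.character R := by
        rw [Finset.sum_const, nsmul_eq_mul, Finset.card_univ, Nat.card_eq_fintype_card]
      rw [h3, Finset.sum_congr rfl (fun m _ => h2 m), ← Finset.mul_sum, Finset.sum_comm, B_eq]
      have h6 : ∑ γ : Gam D ρ, ∑ m : M, σ.character (gamInc D ρ m * γ) * R γ⁻¹ =
          c * ∑ γ : Gam D ρ, σ.character γ * R γ⁻¹ := by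
        rw [Finset.mul_sum]
        apply Finset.sum_congr rfl
        intro γ _
        rw [← Finset.sum_mul, hsum]
        ring
      rw [h6]
      ring
    exact mul_right_cancel₀ hB h1
  have hM0 : (Nat.card M : ℂ) ≠ 0 := by exact_mod_cast Nat.card_pos.ne'
  have hid : ∀ m₀ : M, σ (gamInc D ρ m₀) = 1 := by
    intro m₀
    have h1 : σ (gamInc D ρ m₀) * E = E := by
      rw [hE, Finset.mul_sum]
      rw [← Equiv.sum_comp (Equiv.mulLeft m₀) (fun m => σ (gamInc D ρ m))]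
      apply Finset.sum_congr rfl
      intro m _
      rw [← map_mul, ← map_mul]
      rfl
    rw [hEc, ← hM, mul_smul_comm, mul_one] at h1
    exact smul_right_injective _ hM0 h1
  intro m γ
  change LinearMap.trace ℂ U (σ (gamInc D ρ m * γ)) = LinearMap.trace ℂ U (σ γ)
  rw [map_mul, hid, one_mul]

lemma scInv_of_B {R : Gam D ρ → ℂ} (hS : ScInv D ρ R) {ψ : Gam D ρ → ℂ}
    (hψ : ψ ∈ Irr (Gam D ρ)) (hB : B ψ R ≠ 0) : ScInv D ρ ψ := by
  have := nontrivial_of_irr ρ
  have := Fintype.ofFinite (Gam D ρ)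
  obtain ⟨ν, hν⟩ := exists_central (gamSc D ρ) (gamSc_central D ρ) hψ
  intro c γ
  rw [hν c γ]
  congr 1
  have h1 : B ψ R = (ν c : ℂ) * (c.1 : ℂ) * B ψ R := by
    rw [B_eq]
    rw [mul_comm ((ν c : ℂ) * (c.1 : ℂ)), mul_assoc, Finset.sum_mul]
    congr 1
    rw [← Equiv.sum_comp (Equiv.mulLeft (gamSc D ρ c))]
    apply Finset.sum_congr rfl
    intro γ _
    have e : ((Equiv.mulLeft (gamSc D ρ c)) γ)⁻¹ = gamSc D ρ c⁻¹ * γ⁻¹ := by
      change (gamSc D ρ c * γ)⁻¹ = _
      rw [mul_inv_rev, map_inv]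
      exact Subgroup.mem_center_iff.1 ((Subgroup.center (Gam D ρ)).inv_mem
        (gamSc_central D ρ c)) _
    have e2 : ψ ((Equiv.mulLeft (gamSc D ρ c)) γ) = (ν c : ℂ) * ψ γ := hν c γ
    rw [e, e2, hS]
    have e4 : (((c⁻¹ : Sc M V) : ℂˣ) : ℂ) = (c.1 : ℂ)⁻¹ := by
      rw [Subgroup.coe_inv, Units.val_inv_eq_inv_val]
    rw [e4, inv_inv]
    ring
  have h2 : (ν c : ℂ) * (c.1 : ℂ) = 1 := by
    have h3 : 1 * B ψ R = (ν c : ℂ) * (c.1 : ℂ) * B ψ R := by rw [one_mul]; exact h1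
    exact (mul_right_cancel₀ hB h3).symm
  exact eq_inv_of_mul_eq_one_left h2

/-- every irreducible character of `G` over `ρ` comes from `Gam` -/
lemma exists_cliff {χ : G → ℂ} (hχ : χ ∈ Irr G)
    (h : B (fun m => χ (D.ι m)) ρ.character ≠ 0) :
    ∃ ψ ∈ Irr (Gam D ρ), InvM D ρ ψ ∧ ScInv D ρ ψ ∧ χ = cliff D ρ ψ := by
  have hχc := Irr.isClass hχ
  have h1 : ∃ ψ ∈ Irr (Gam D ρ), B (resHat D ρ χ) ψ ≠ 0 := by
    by_contra hcon
    push Not at hcon
    have := complete (resHat D ρ χ) (resHat_isClass D ρ hχc) hcon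
    apply h
    rw [← resHat_one, this]; rfl
  obtain ⟨ψ, hψ, hne⟩ := h1
  rw [B_symm] at hne
  have hI := invM_of_B D ρ (resHat_inv D ρ χ) hψ hne
  have hS := scInv_of_B D ρ (resHat_sc D ρ χ) hψ hne
  refine ⟨ψ, hψ, hI, hS, ?_⟩
  by_contra hneq
  apply hne
  rw [← B_cliff D ρ hI hχc]
  exact B_irr_ne (cliff_irr D ρ hψ hI hS) hχ (fun h => hneq h.symm)

lemma cliff_deg {ψ : Gam D ρ → ℂ} (hψ : ψ ∈ Irr (Gam D ρ)) (hS : ScInv D ρ ψ) :
    deg (cliff D ρ ψ) = (gamProj D ρ).range.index * (Module.finrank ℂ V * deg ψ) := by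
  classical
  have := Fintype.ofFinite G
  have := Fintype.ofFinite (Gam D ρ)
  apply deg_eq
  unfold cliff
  rw [indHom_eq]
  have h1 : ∀ x : G, (∑ γ : Gam D ρ, if gamProj D ρ γ = x⁻¹ * 1 * x then
      gamChar D ρ γ * ψ γ else 0) =
      (Nat.card (gamProj D ρ).ker : ℂ) * (Module.finrank ℂ V * deg ψ) := by
    intro x
    have h2 : ∀ γ : Gam D ρ, (if gamProj D ρ γ = x⁻¹ * 1 * x then
      gamChar D ρ γ * ψ γ else 0) = if γ ∈ (gamProj D ρ).ker then
        ((Module.finrank ℂ V : ℂ) * deg ψ) else 0 := by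
      intro γ
      have e : x⁻¹ * 1 * x = 1 := by group
      rw [e]
      by_cases hγ : gamProj D ρ γ = 1
      · rw [if_pos hγ, if_pos (MonoidHom.mem_ker.2 hγ)]
        obtain ⟨c, rfl⟩ := gam_ker D ρ hγ
        have e1 : gamSc D ρ c = gamSc D ρ c * 1 := (mul_one _).symm
        rw [e1, gamChar_sc_mul, hS, gamChar_one, deg_cast hψ]
        have hc0 : (c.1 : ℂ) ≠ 0 := Units.ne_zero _
        field_simp
      · rw [if_neg hγ, if_neg (fun h => hγ (MonoidHom.mem_ker.1 h))]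
    rw [Finset.sum_congr rfl (fun γ _ => h2 γ), ← Finset.sum_filter, Finset.sum_const,
      nsmul_eq_mul]
    congr 1
    rw [Nat.card_eq_fintype_card, Fintype.card_subtype]
  rw [Finset.sum_congr rfl (fun x _ => h1 x), Finset.sum_const, nsmul_eq_mul, Finset.card_univ,
    ← Nat.card_eq_fintype_card]
  have hΓ : Nat.card (Gam D ρ) = Nat.card (gamProj D ρ).ker * Nat.card (gamProj D ρ).range := by
    rw [← (gamProj D ρ).ker.card_mul_index, Subgroup.index_ker]
  have hG : Nat.card G = Nat.card (gamProj D ρ).range * (gamProj D ρ).range.index :=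
    ((gamProj D ρ).range.card_mul_index).symm
  rw [hΓ, hG]
  have hk : (Nat.card (gamProj D ρ).ker : ℂ) ≠ 0 := by exact_mod_cast Nat.card_pos.ne'
  have hr : (Nat.card (gamProj D ρ).range : ℂ) ≠ 0 := by exact_mod_cast Nat.card_pos.ne'
  push_cast
  field_simp

end

/-! ### The `G`-set of irreducible characters of `M` -/

section gset

variable {M G : Type} [Group M] [Group G] [Finite M] [Finite G]

/-- irreducible characters of `M` with the action of `G` -/
structure IrrX (D : NP M G) : Type where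
  /-- the character -/
  chi : M → ℂ
  mem : chi ∈ Irr M

variable {D : NP M G}

lemma IrrX.ext' {θ θ' : IrrX D} (h : θ.chi = θ'.chi) : θ = θ' := by
  cases θ; cases θ'; simp only at h; subst h; rfl

instance : SMul G (IrrX D) where
  smul g θ := ⟨fun m => θ.chi (D.α g⁻¹ m), irr_comp (D.α g⁻¹) θ.mem⟩

@[simp] lemma IrrX.smul_chi (g : G) (θ : IrrX D) (m : M) :
    (g • θ).chi m = θ.chi (D.α g⁻¹ m) := rfl

instance : MulAction G (IrrX D) where
  one_smul θ := by
    apply IrrX.ext'; ext m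
    rw [IrrX.smul_chi]; simp
  mul_smul x y θ := by
    apply IrrX.ext'; ext m
    rw [IrrX.smul_chi, IrrX.smul_chi, IrrX.smul_chi, mul_inv_rev, map_mul]
    rfl

/-- equivalence with irreducible characters -/
def IrrX.equiv (D : NP M G) : IrrX D ≃ Irr M where
  toFun θ := ⟨θ.chi, θ.mem⟩
  invFun θ := ⟨θ.1, θ.2⟩
  left_inv _ := rfl
  right_inv _ := rfl

instance : Finite (IrrX D) := Finite.of_equiv _ (IrrX.equiv D).symm

/-- the space of a chosen representation -/
noncomputable def IrrX.V (θ : IrrX D) : Type := θ.mem.choose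

noncomputable instance (θ : IrrX D) : AddCommGroup θ.V := θ.mem.choose_spec.choose

noncomputable instance (θ : IrrX D) : Module ℂ θ.V := θ.mem.choose_spec.choose_spec.choose

instance (θ : IrrX D) : FiniteDimensional ℂ θ.V :=
  θ.mem.choose_spec.choose_spec.choose_spec.choose

/-- the chosen representation -/
noncomputable def IrrX.rep (θ : IrrX D) : Representation ℂ M θ.V :=
  θ.mem.choose_spec.choose_spec.choose_spec.choose_spec.choose

instance (θ : IrrX D) : θ.rep.IsIrreducible :=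
  θ.mem.choose_spec.choose_spec.choose_spec.choose_spec.choose_spec.1

lemma IrrX.char_rep (θ : IrrX D) : θ.rep.character = θ.chi :=
  θ.mem.choose_spec.choose_spec.choose_spec.choose_spec.choose_spec.2.symm

lemma range_gamProj (θ : IrrX D) : (gamProj D θ.rep).range = MulAction.stabilizer G θ := by
  ext g
  rw [MulAction.mem_stabilizer_iff]
  constructor
  · intro hg
    have hg' : g⁻¹ ∈ (gamProj D θ.rep).range := Subgroup.inv_mem _ hg
    have h := (mem_range_gamProj D θ.rep g⁻¹).1 hg'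
    apply IrrX.ext'
    ext m
    rw [IrrX.smul_chi, ← IrrX.char_rep]
    exact h m
  · intro hg
    have h1 : g⁻¹ ∈ (gamProj D θ.rep).range := by
      refine (mem_range_gamProj D θ.rep g⁻¹).2 (fun m => ?_)
      rw [IrrX.char_rep, ← IrrX.smul_chi, hg]
    have := Subgroup.inv_mem _ h1
    rwa [inv_inv] at this

/-- the multiplicity of `θ` in the restriction of a class function only depends on the orbit -/
lemma B_smul_chi {χ : G → ℂ} (hχ : IsClass χ) (g : G) (θ : IrrX D) :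
    B (fun m => χ (D.ι m)) (g • θ).chi = B (fun m => χ (D.ι m)) θ.chi := by
  have := Fintype.ofFinite M
  rw [B_eq, B_eq]
  congr 1
  rw [← Equiv.sum_comp (D.α g).toEquiv]
  apply Finset.sum_congr rfl
  intro m _
  have e1 : (g • θ).chi ((D.α g).toEquiv m)⁻¹ = θ.chi m⁻¹ := by
    rw [IrrX.smul_chi]
    congr 1
    change (D.α g⁻¹) (D.α g m)⁻¹ = m⁻¹
    rw [map_inv, ← MulAut.mul_apply, ← map_mul, inv_mul_cancel, map_one, MulAut.one_apply]
  have e2 : χ (D.ι ((D.α g).toEquiv m)) = χ (D.ι m) := by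
    change χ (D.ι (D.α g m)) = _
    rw [D.compat, hχ]
  rw [e1, e2]

lemma exists_theta {χ : G → ℂ} (hχ : χ ∈ Irr G) :
    ∃ θ : IrrX D, B (fun m => χ (D.ι m)) θ.chi ≠ 0 := by
  by_contra hcon
  push Not at hcon
  have hc : IsClass (fun m => χ (D.ι m)) := by
    intro a b
    simp only [map_mul, map_inv]
    exact Irr.isClass hχ _ _
  have h0 := complete (fun m => χ (D.ι m)) hc (fun θ hθ => hcon ⟨θ, hθ⟩)
  have h1 := congrFun h0 1
  simp only [map_one, Pi.zero_apply] at h1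
  obtain ⟨n, hn0, hn⟩ := irr_one hχ
  rw [hn] at h1
  have : (n : ℂ) ≠ 0 := by exact_mod_cast hn0.ne'
  exact this h1

/-- the fiber over one orbit -/
def FibG (p : ℕ) (θ : IrrX D) (s : ZMod p) : Type :=
  {ψ : Irr (Gam D θ.rep) // InvM D θ.rep ψ.1 ∧ ScInv D θ.rep ψ.1 ∧
    (((MulAction.stabilizer G θ).index * (Module.finrank ℂ θ.V * deg ψ.1) : ℕ) : ZMod p) ^ 2 = s}

instance (p : ℕ) (θ : IrrX D) (s : ZMod p) : Finite (FibG p θ s) := by
  unfold FibG; infer_instance

lemma cnt_clifford {p : ℕ} [Fact p.Prime] (R : Type) [Fintype R] (lam : R → IrrX D)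
    (h1 : ∀ r r' (x : G), lam r = x • lam r' → r = r')
    (h2 : ∀ θ : IrrX D, ¬ p ∣ (MulAction.stabilizer G θ).index →
      ∃ r, ∃ x : G, θ = x • lam r)
    (s : ZMod p) (hs : s ≠ 0) :
    cnt p G s = ∑ r, Nat.card (FibG p (lam r) s) := by
  rw [← Nat.card_sigma]
  unfold cnt
  symm
  refine Nat.card_congr (Equiv.ofBijective
    (fun y : (Σ r, FibG p (lam r) s) => (⟨⟨cliff D (lam y.1).rep y.2.1.1,
      cliff_irr D (lam y.1).rep y.2.1.2 y.2.2.1 y.2.2.2.1⟩, by
      rw [cliff_deg D (lam y.1).rep y.2.1.2 y.2.2.2.1, range_gamProj]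
      exact y.2.2.2.2⟩ : {χ : Irr G // (deg χ.1 : ZMod p) ^ 2 = s})) ⟨?_, ?_⟩)
  · rintro ⟨r, ψ⟩ ⟨r', ψ'⟩ he
    have he' : cliff D (lam r).rep ψ.1.1 = cliff D (lam r').rep ψ'.1.1 :=
      congrArg (fun t : {χ : Irr G // (deg χ.1 : ZMod p) ^ 2 = s} => t.1.1) he
    have hr : r = r' := by
      by_contra hne
      have h3 : resHat D (lam r).rep (cliff D (lam r').rep ψ'.1.1) = 0 := by
        apply resHat_cliff_ne D (lam r).rep (lam r').rep ψ'.2.1
        intro x hx
        apply hne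
        apply h1 r r' x⁻¹
        apply IrrX.ext'
        rw [IrrX.char_rep] at hx
        rw [hx]
        ext m
        rw [IrrX.smul_chi, inv_inv, ← IrrX.char_rep]
        rfl
      rw [← he', resHat_cliff_self D _ ψ.2.1 (Irr.isClass ψ.1.2) ψ.2.2.1] at h3
      obtain ⟨n, hn0, hn⟩ := irr_one ψ.1.2
      rw [h3] at hn
      have : (n : ℂ) = 0 := hn.symm
      rw [Nat.cast_eq_zero] at this
      omega
    subst hr
    have h4 := congrArg (resHat D (lam r).rep) he'
    rw [resHat_cliff_self D _ ψ.2.1 (Irr.isClass ψ.1.2) ψ.2.2.1,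
      resHat_cliff_self D _ ψ'.2.1 (Irr.isClass ψ'.1.2) ψ'.2.2.1] at h4
    congr 1
    exact Subtype.ext (Subtype.ext h4)
  · rintro ⟨⟨χ, hχ⟩, hdeg⟩
    obtain ⟨θ, hθ⟩ := exists_theta (D := D) hχ
    have hnd : ¬ p ∣ (MulAction.stabilizer G θ).index := by
      obtain ⟨ψ, hψ, hI, hS, hψχ⟩ := exists_cliff D θ.rep hχ (by rw [IrrX.char_rep]; exact hθ)
      intro hd
      apply hs
      rw [← hdeg]
      simp only
      rw [hψχ, cliff_deg D θ.rep hψ hS, range_gamProj]
      have : ((((MulAction.stabilizer G θ).index * (Module.finrank ℂ θ.V * deg ψ) : ℕ)) :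
          ZMod p) = 0 := by
        rw [ZMod.natCast_eq_zero_iff]
        exact Dvd.dvd.mul_right hd _
      rw [this]; simp
    obtain ⟨r, x, hx⟩ := h2 θ hnd
    have hl' : B (fun m => χ (D.ι m)) (lam r).rep.character ≠ 0 := by
      rw [IrrX.char_rep, ← B_smul_chi (Irr.isClass hχ) x, ← hx]
      exact hθ
    obtain ⟨ψ, hψ, hI, hS, hψχ⟩ := exists_cliff D (lam r).rep hχ hl'
    refine ⟨⟨r, ⟨⟨ψ, hψ⟩, hI, hS, ?_⟩⟩, ?_⟩
    · rw [← range_gamProj, ← cliff_deg D (lam r).rep hψ hS, ← hψχ]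
      exact hdeg
    · apply Subtype.ext
      apply Subtype.ext
      exact hψχ.symm

end gset

end Pool.Agent.Helper42.INC
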