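import Pool.Agent.Helper42.INC.Basic

/-! The congruence form of the McKay statement and its reformulation by counting. -/

set_option linter.unusedSectionVars false

namespace Pool.Agent.Helper42.INC

/-- number of irreducible characters with `(degree)² = s` modulo `p` -/
noncomputable def cnt (p : ℕ) (G : Type) [Group G] (s : ZMod p) : ℕ :=
  Nat.card {χ : Irr G // (deg χ.1 : ZMod p) ^ 2 = s}

variable {p : ℕ} {G G' : Type} [Group G] [Group G']

lemma cnt_congr (e : G ≃* G') (s : ZMod p) : cnt p G s = cnt p G' s := by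
  unfold cnt
  apply Nat.card_congr
  refine ((irrEquiv e).subtypeEquiv ?_).symm
  intro χ
  have : deg (irrEquiv e χ).1 = deg χ.1 := by
    simp [deg, irrEquiv]
  rw [this]

lemma sq_eq_iff [Fact p.Prime] (m n : ℕ) :
    ((m : ℤ) ≡ n [ZMOD p] ∨ (m : ℤ) ≡ -n [ZMOD p]) ↔ (m : ZMod p) ^ 2 = (n : ZMod p) ^ 2 := by
  rw [sq_eq_sq_iff_eq_or_eq_neg]
  rw [← ZMod.intCast_eq_intCast_iff, ← ZMod.intCast_eq_intCast_iff]
  push_cast
  rfl

lemma exists_equiv_of_fiber {α β γ : Type*} [Finite α] [Finite β] (f : α → γ) (g : β → γ)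
    (h : ∀ c, Nat.card {a // f a = c} = Nat.card {b // g b = c}) :
    ∃ e : α ≃ β, ∀ a, g (e a) = f a := by
  have h' : ∀ c, Nonempty ({a // f a = c} ≃ {b // g b = c}) := fun c => by
    exact Finite.card_eq.1 (h c)
  let e : ∀ c, {a // f a = c} ≃ {b // g b = c} := fun c => Classical.choice (h' c)
  exact ⟨Equiv.ofFiberEquiv e, fun a => Equiv.ofFiberEquiv_map e a⟩

/-- normalizers of two Sylow subgroups are isomorphic -/
lemma normalizer_equiv [Finite G] [Fact p.Prime] (P P' : Sylow p G) :
    Nonempty (Subgroup.normalizer (P : Set G) ≃* Subgroup.normalizer (P' : Set G)) := by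
  obtain ⟨g, hg⟩ := MulAction.exists_smul_eq G P P'
  have h1 : (Subgroup.normalizer (P : Set G)).map (MulAut.conj g).toMonoidHom =
      Subgroup.normalizer (P' : Set G) := by
    rw [← hg]
    have h2 : ((g • P : Sylow p G) : Set G) = (((P : Subgroup G).map (MulAut.conj g).toMonoidHom :
        Subgroup G) : Set G) := by
      rw [Sylow.coe_smul, Subgroup.coe_map]
      rfl
    rw [h2]
    exact Subgroup.map_equiv_normalizer_eq (P : Subgroup G) (MulAut.conj g)
  rw [← h1]
  exact ⟨(MulAut.conj g).subgroupMap _⟩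

lemma irrP_iff [Finite G] {χ : G → ℂ} (h : χ ∈ Irr G) :
    χ ∈ IrrP p G ↔ (deg χ : ZMod p) ≠ 0 := by
  rw [Ne, ZMod.natCast_eq_zero_iff]
  constructor
  · rintro ⟨_, n, hn, hd⟩
    rwa [deg_eq hn]
  · intro hd
    exact ⟨h, deg χ, (deg_cast h).symm, hd⟩

/-- Q1 in terms of counting -/
lemma mcKay_iff [Finite G] [Fact p.Prime] (P : Sylow p G) :
    McKayCongr p G ↔
      ∀ s : ZMod p, s ≠ 0 → cnt p G s = cnt p (Subgroup.normalizer (P : Set G)) s := by
  constructor
  · intro h s hs
    obtain ⟨e, he⟩ := h P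
    have key : ∀ (K : Type) [Group K] [Finite K], cnt p K s =
        Nat.card {χ : IrrP p K // (deg χ.1 : ZMod p) ^ 2 = s} := by
      intro K _ _
      unfold cnt
      apply Nat.card_congr
      exact
        { toFun := fun χ => ⟨⟨χ.1.1, (irrP_iff χ.1.2).2 (fun h0 => hs (by
            rw [← χ.2, h0]; simp))⟩, χ.2⟩
          invFun := fun χ => ⟨⟨χ.1.1, χ.1.2.1⟩, χ.2⟩
          left_inv := fun χ => by simp
          right_inv := fun χ => by simp }
    rw [key G, key]
    apply Nat.card_congr
    refine e.subtypeEquiv ?_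
    intro χ
    obtain ⟨m, n, hm, hn, hmn⟩ := he χ
    rw [sq_eq_iff] at hmn
    rw [deg_eq hm, deg_eq hn, hmn]
  · intro h P'
    obtain ⟨eN⟩ := normalizer_equiv P P'
    have h' : ∀ s : ZMod p, s ≠ 0 → cnt p G s = cnt p (Subgroup.normalizer (P' : Set G)) s := by
      intro s hs
      rw [h s hs, cnt_congr eN]
    have fin : ∀ (K : Type) [Group K] [Finite K], Finite (IrrP p K) := by
      intro K _ _
      exact Finite.of_injective (fun χ : IrrP p K => (⟨χ.1, χ.2.1⟩ : Irr K))
        (fun a b hab => Subtype.ext (congrArg (fun t : Irr K => t.1) hab))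
    have := fin G
    have := fin (Subgroup.normalizer (P' : Set G))
    obtain ⟨e, he⟩ := exists_equiv_of_fiber
      (fun χ : IrrP p G => (deg χ.1 : ZMod p) ^ 2)
      (fun χ : IrrP p (Subgroup.normalizer (P' : Set G)) => (deg χ.1 : ZMod p) ^ 2) (by
        intro c
        by_cases hc : c = 0
        · have key : ∀ (K : Type) [Group K] [Finite K],
              Nat.card {χ : IrrP p K // (deg χ.1 : ZMod p) ^ 2 = c} = 0 := by
            intro K _ _
            rw [Nat.card_eq_zero]
            left
            refine ⟨fun χ => ?_⟩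
            have h1 := (irrP_iff χ.1.2.1).1 χ.1.2
            have h2 := χ.2.trans hc
            exact h1 (by simpa using h2)
          rw [key G, key]
        · have key : ∀ (K : Type) [Group K] [Finite K], cnt p K c =
              Nat.card {χ : IrrP p K // (deg χ.1 : ZMod p) ^ 2 = c} := by
            intro K _ _
            unfold cnt
            apply Nat.card_congr
            exact
              { toFun := fun χ => ⟨⟨χ.1.1, (irrP_iff χ.1.2).2 (fun h0 => hc (by
                  rw [← χ.2, h0]; simp))⟩, χ.2⟩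
                invFun := fun χ => ⟨⟨χ.1.1, χ.1.2.1⟩, χ.2⟩
                left_inv := fun χ => by simp
                right_inv := fun χ => by simp }
          rw [← key G, ← key]
          exact h' c hc)
    refine ⟨e, fun χ => ⟨deg χ.1, deg (e χ).1, (deg_cast χ.2.1).symm,
      (deg_cast (e χ).2.1).symm, ?_⟩⟩
    rw [sq_eq_iff]
    exact (he χ).symm

end Pool.Agent.Helper42.INC
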