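import Mathlib

/-!
# Irreducible characters and the congruence form of the McKay statement

`McKayCongr p G` is Q1 of MP_5ecade_al for the prime `p` and the group `G`.
-/

namespace Pool.Agent.Helper42.INC

/-- The set of irreducible complex characters of `G`. -/
def Irr (G : Type) [Group G] : Set (G → ℂ) :=
  {χ | ∃ (V : Type) (_ : AddCommGroup V) (_ : Module ℂ V) (_ : FiniteDimensional ℂ V)
    (ρ : Representation ℂ G V), ρ.IsIrreducible ∧ χ = ρ.character}

/-- The set of irreducible complex characters of `G` of degree not divisible by `p`. -/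
def IrrP (p : ℕ) (G : Type) [Group G] : Set (G → ℂ) :=
  {χ | χ ∈ Irr G ∧ ∃ n : ℕ, χ 1 = n ∧ ¬ p ∣ n}

/-- Q1 for the prime `p` and the group `G`: for every Sylow `p`-subgroup `P` of `G` there is a
bijection from the irreducible characters of `G` of degree prime to `p` onto those of the
normalizer of `P` which preserves the degree up to sign modulo `p`. -/
def McKayCongr (p : ℕ) (G : Type) [Group G] : Prop :=
  ∀ P : Sylow p G, ∃ e : IrrP p G ≃ IrrP p (Subgroup.normalizer (P : Set G)),
    ∀ χ : IrrP p G, ∃ m n : ℕ, χ.1 1 = m ∧ (e χ).1 1 = n ∧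
      ((m : ℤ) ≡ n [ZMOD p] ∨ (m : ℤ) ≡ -n [ZMOD p])

end Pool.Agent.Helper42.INC
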