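import Pool.Agent.Helper42.INC.Count

/-! Automorphisms of `ℂ` and Galois conjugates of irreducible characters. -/

set_option linter.unusedSectionVars false

open Cardinal

namespace Pool.Agent.Helper42.INC

/-- Two algebraically closed uncountable extensions of a countable field of the same cardinality
are isomorphic over the field. -/
lemma exists_ringEquiv_of_algebras {K L₁ L₂ : Type} [Field K] [Countable K] [Field L₁] [Field L₂]
    [IsAlgClosed L₁] [IsAlgClosed L₂] [Algebra K L₁] [Algebra K L₂]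
    (h1 : ℵ₀ < #L₁) (h : #L₁ = #L₂) :
    ∃ e : L₁ ≃+* L₂, ∀ x : K, e (algebraMap K L₁ x) = algebraMap K L₂ x := by
  obtain ⟨s, hs⟩ := exists_isTranscendenceBasis K L₁
  obtain ⟨t, ht⟩ := exists_isTranscendenceBasis K L₂
  have hK : #K ≤ ℵ₀ := Cardinal.mk_le_aleph0
  have h2 : #s = #t := by
    rw [← IsAlgClosed.cardinal_eq_cardinal_transcendence_basis_of_aleph0_lt' _ hs hK h1,
      ← IsAlgClosed.cardinal_eq_cardinal_transcendence_basis_of_aleph0_lt' _ ht hK (h ▸ h1), h]
  obtain ⟨e⟩ := Cardinal.eq.1 h2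
  let i1 := IsAlgClosed.isAlgClosure_of_transcendence_basis (Subtype.val : s → L₁) hs
  let i2 := IsAlgClosed.isAlgClosure_of_transcendence_basis (Subtype.val : t → L₂) ht
  let E : Algebra.adjoin K (Set.range (Subtype.val : s → L₁)) ≃ₐ[K]
      Algebra.adjoin K (Set.range (Subtype.val : t → L₂)) :=
    hs.1.aevalEquiv.symm.trans ((MvPolynomial.renameEquiv K e).trans ht.1.aevalEquiv)
  refine ⟨IsAlgClosure.equivOfEquiv L₁ L₂ E.toRingEquiv, fun x => ?_⟩
  have h3 : algebraMap K L₁ x = algebraMap (Algebra.adjoin K (Set.range (Subtype.val : s → L₁))) L₁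
      (algebraMap K _ x) := by
    rw [← IsScalarTower.algebraMap_apply]
  rw [h3, IsAlgClosure.equivOfEquiv_algebraMap]
  have h4 : E.toRingEquiv (algebraMap K _ x) = algebraMap K _ x := E.commutes x
  rw [h4, ← IsScalarTower.algebraMap_apply]

/-- automorphisms of `ℂ` raising `n`-th roots of unity to a prescribed power prime to `n` -/
lemma exists_aut_aux (n : ℕ) (hn : 0 < n) (k : ℕ) (hk : Nat.Coprime k n) (K : Type) [Field K]
    [Algebra ℚ K] [FiniteDimensional ℚ K] [IsCyclotomicExtension {n} ℚ K] :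
    ∃ σ : ℂ ≃+* ℂ, ∀ z : ℂ, z ^ n = 1 → σ z = z ^ k := by
  have : NeZero n := ⟨hn.ne'⟩
  let ι : K →ₐ[ℚ] ℂ := IsAlgClosed.lift
  have hζ : IsPrimitiveRoot (IsCyclotomicExtension.zeta n ℚ K) n :=
    IsCyclotomicExtension.zeta_spec n ℚ K
  have hζk : IsPrimitiveRoot ((IsCyclotomicExtension.zeta n ℚ K) ^ k) n :=
    hζ.pow_of_coprime k hk
  let τ := IsCyclotomicExtension.fromZetaAut hζk (Polynomial.cyclotomic.irreducible_rat hn)
  have hτ : τ (IsCyclotomicExtension.zeta n ℚ K) = (IsCyclotomicExtension.zeta n ℚ K) ^ k :=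
    IsCyclotomicExtension.fromZetaAut_spec hζk (Polynomial.cyclotomic.irreducible_rat hn)
  have hcount : Countable K :=
    (Module.finBasis ℚ K).equivFun.toEquiv.injective.countable
  obtain ⟨e, he⟩ := @exists_ringEquiv_of_algebras K ℂ ℂ _ hcount _ _ _ _ ι.toRingHom.toAlgebra
    (ι.toRingHom.comp (τ : K →+* K)).toAlgebra (by
      rw [Cardinal.mk_complex]; exact Cardinal.aleph0_lt_continuum) rfl
  have he' : ∀ x : K, e (ι x) = ι (τ x) := he
  have hζ' : IsPrimitiveRoot (ι (IsCyclotomicExtension.zeta n ℚ K)) n :=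
    hζ.map_of_injective ι.injective
  refine ⟨e, fun z hz => ?_⟩
  obtain ⟨j, _, rfl⟩ := hζ'.eq_pow_of_pow_eq_one hz
  rw [map_pow, he', hτ, map_pow, ← pow_mul, ← pow_mul, mul_comm]

/-- automorphisms of `ℂ` raising `n`-th roots of unity to a prescribed power prime to `n` -/
lemma exists_aut (n : ℕ) (hn : 0 < n) (k : ℕ) (hk : Nat.Coprime k n) :
    ∃ σ : ℂ ≃+* ℂ, ∀ z : ℂ, z ^ n = 1 → σ z = z ^ k := by
  have : NeZero n := ⟨hn.ne'⟩
  letI : Algebra ℚ (CyclotomicField n ℚ) := CyclotomicField.algebra n ℚ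
  have h1 : IsCyclotomicExtension {n} ℚ (CyclotomicField n ℚ) := inferInstance
  have h2 : FiniteDimensional ℚ (CyclotomicField n ℚ) :=
    IsCyclotomicExtension.finite_of_singleton n ℚ (CyclotomicField n ℚ)
  exact exists_aut_aux n hn k hk (CyclotomicField n ℚ)

section twist

variable {G : Type} [Group G] [Finite G]

/-- Galois conjugates of characters of representations are characters -/
lemma exists_rep_twist (σ : ℂ ≃+* ℂ) {V : Type} [AddCommGroup V] [Module ℂ V]
    [FiniteDimensional ℂ V] (ρ : Representation ℂ G V) :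
    ∃ (n : ℕ) (ρ' : Representation ℂ G (Fin n → ℂ)), ∀ g, ρ'.character g = σ (ρ.character g) := by
  classical
  let b := Module.finBasis ℂ V
  let R : G →* Matrix (Fin (Module.finrank ℂ V)) (Fin (Module.finrank ℂ V)) ℂ :=
    ((LinearMap.toMatrixAlgEquiv b : (V →ₗ[ℂ] V) ≃ₐ[ℂ] _) : (V →ₗ[ℂ] V) →* _).comp ρ
  let R' : G →* Matrix (Fin (Module.finrank ℂ V)) (Fin (Module.finrank ℂ V)) ℂ :=
    ((σ : ℂ →+* ℂ).mapMatrix.toMonoidHom).comp R
  let ρ' : Representation ℂ G (Fin (Module.finrank ℂ V) → ℂ) :=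
    ((Matrix.toLinAlgEquiv' : Matrix (Fin (Module.finrank ℂ V)) _ ℂ ≃ₐ[ℂ] _) :
      Matrix (Fin (Module.finrank ℂ V)) _ ℂ →* _).comp R'
  refine ⟨_, ρ', fun g => ?_⟩
  have h1 : ρ'.character g = Matrix.trace (R' g) := by
    change LinearMap.trace ℂ _ (Matrix.toLin' (R' g)) = _
    rw [Matrix.trace_toLin'_eq]
  have h2 : ρ.character g = Matrix.trace (R g) := by
    change LinearMap.trace ℂ _ (ρ g) = _
    rw [LinearMap.trace_eq_matrix_trace ℂ b]
    rfl
  rw [h1, h2]
  change Matrix.trace ((R g).map σ) = σ (Matrix.trace (R g))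
  simp [Matrix.trace]

lemma B_twist (σ : ℂ ≃+* ℂ) (f g : G → ℂ) :
    B (fun x => σ (f x)) (fun x => σ (g x)) = σ (B f g) := by
  have := Fintype.ofFinite G
  rw [B_eq, B_eq, map_mul, map_inv₀, map_natCast, map_sum]
  simp

/-- Galois conjugates of irreducible characters are irreducible -/
lemma irr_twist (σ : ℂ ≃+* ℂ) {χ : G → ℂ} (h : χ ∈ Irr G) : (fun x => σ (χ x)) ∈ Irr G := by
  have hB := B_irr_self h
  obtain ⟨V, _, _, _, ρ, hρ, rfl⟩ := h
  obtain ⟨n, ρ', hρ'⟩ := exists_rep_twist σ ρ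
  have he : (fun x => σ (ρ.character x)) = ρ'.character := by ext x; exact (hρ' x).symm
  apply irr_of_norm_one
  · rw [he]; exact char_isClass ρ'
  · rintro χ ⟨W, _, _, _, τ, _, rfl⟩
    rw [he]; exact B_char ρ' τ
  · rw [B_twist, hB, map_one]

end twist

end Pool.Agent.Helper42.INC
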