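import Pool.Agent.Helper42.INC.Count

/-! Irreducible characters of a semidirect product with abelian kernel (little groups). -/

set_option linter.unusedSectionVars false

namespace Pool.Agent.Helper42.INC

variable {A H : Type} [CommGroup A] [Group H]

/-- linear characters of `A`, with the action of `H` through `φ` -/
structure CharX (φ : H →* MulAut A) : Type where
  /-- the homomorphism -/
  hom : A →* ℂˣ

section
variable (φ : H →* MulAut A)

/-- forgetting the action -/
def CharX.equiv : CharX φ ≃ (A →* ℂˣ) where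
  toFun l := l.hom
  invFun f := ⟨f⟩
  left_inv _ := rfl
  right_inv _ := rfl

instance [Finite A] : Finite (CharX φ) := Finite.of_equiv _ (CharX.equiv φ).symm

/-- value of a linear character -/
def CharX.val {φ : H →* MulAut A} (l : CharX φ) (a : A) : ℂ := ((l.hom a : ℂˣ) : ℂ)

variable {φ}

lemma CharX.ext {l m : CharX φ} (h : ∀ a, l.val a = m.val a) : l = m := by
  cases l with | mk l => cases m with | mk m =>
  congr 1
  ext a
  exact h a

@[simp] lemma CharX.val_mul (l : CharX φ) (a b : A) : l.val (a * b) = l.val a * l.val b := by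
  unfold CharX.val; rw [map_mul]; rfl

@[simp] lemma CharX.val_one (l : CharX φ) : l.val 1 = 1 := by
  unfold CharX.val; rw [map_one]; rfl

lemma CharX.val_ne_zero (l : CharX φ) (a : A) : l.val a ≠ 0 := Units.ne_zero _

lemma CharX.val_inv (l : CharX φ) (a : A) : l.val a⁻¹ = (l.val a)⁻¹ := by
  have h : l.val a⁻¹ * l.val a = 1 := by rw [← CharX.val_mul]; simp
  exact eq_inv_of_mul_eq_one_left h

variable (φ) in
/-- the action -/
instance : SMul H (CharX φ) where
  smul h l := ⟨l.hom.comp (φ h⁻¹).toMonoidHom⟩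

@[simp] lemma CharX.smul_val (x : H) (l : CharX φ) (a : A) : (x • l).val a = l.val (φ x⁻¹ a) := rfl

variable (φ) in
instance : MulAction H (CharX φ) where
  one_smul l := by
    apply CharX.ext; intro a
    rw [CharX.smul_val]; simp
  mul_smul x y l := by
    apply CharX.ext; intro a
    rw [CharX.smul_val, CharX.smul_val, CharX.smul_val, mul_inv_rev, map_mul]
    rfl

lemma CharX.mem_stab {l : CharX φ} {h : H} :
    h ∈ MulAction.stabilizer H l ↔ ∀ a, l.val (φ h a) = l.val a := by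
  rw [MulAction.mem_stabilizer_iff]
  constructor
  · intro he a
    have := CharX.smul_val h l (φ h a)
    rw [he] at this
    rw [this]; simp
  · intro he
    apply CharX.ext
    intro a
    rw [CharX.smul_val, ← he (φ h⁻¹ a)]
    simp

lemma orth [Finite A] [Fintype A] (l m : CharX φ) [Decidable (l = m)] :
    ∑ a, (l.val a)⁻¹ * m.val a = if l = m then (Nat.card A : ℂ) else 0 := by
  classical
  have h1 : ∀ a, (l.val a)⁻¹ * m.val a = ((Units.coeHom ℂ).comp (l.hom⁻¹ * m.hom)) a := by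
    intro a
    simp [CharX.val]
  rw [Finset.sum_congr rfl (fun a _ => h1 a), sum_hom_units]
  by_cases h : l = m
  · subst h
    rw [if_pos, if_pos rfl, Nat.card_eq_fintype_card]
    ext a; simp
  · rw [if_neg, if_neg h]
    · simp
    · intro he
      apply h
      apply CharX.ext
      intro a
      have h3 : (l.val a)⁻¹ * m.val a = 1 := by
        rw [h1, he]; rfl
      have h4 := CharX.val_ne_zero l a
      field_simp at h3
      exact h3.symm

lemma dual_orth [Finite A] [Fintype (CharX φ)] {a : A} (ha : a ≠ 1) :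
    ∑ l : CharX φ, (l.val a)⁻¹ = 0 := by
  classical
  have hexp : HasEnoughRootsOfUnity ℂ (Monoid.exponent A) := by
    have : NeZero (Monoid.exponent A) := ⟨Monoid.exponent_ne_zero_of_finite⟩
    infer_instance
  obtain ⟨l₀, hl₀⟩ := CommGroup.exists_apply_ne_one_of_hasEnoughRootsOfUnity A ℂ ha
  have hne : (((l₀ a : ℂˣ) : ℂ))⁻¹ ≠ 1 := by
    intro he
    apply hl₀
    rw [inv_eq_one] at he
    exact Units.ext he
  have h1 : ∑ l : CharX φ, (l.val a)⁻¹ = (((l₀ a : ℂˣ) : ℂ))⁻¹ * ∑ l : CharX φ, (l.val a)⁻¹ := by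
    rw [Finset.mul_sum]
    rw [← Equiv.sum_comp ((CharX.equiv φ).trans ((Equiv.mulLeft l₀).trans (CharX.equiv φ).symm))]
    apply Finset.sum_congr rfl
    intro l _
    have : (((CharX.equiv φ).trans ((Equiv.mulLeft l₀).trans (CharX.equiv φ).symm)) l).val a =
      ((l₀ a : ℂˣ) : ℂ) * l.val a := rfl
    rw [this, mul_inv]
  have h2 : (1 - (((l₀ a : ℂˣ) : ℂ))⁻¹) * ∑ l : CharX φ, (l.val a)⁻¹ = 0 := by
    rw [sub_mul, one_mul, ← h1, sub_self]
  rcases mul_eq_zero.1 h2 with h3 | h3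
  · exact absurd (sub_eq_zero.1 h3).symm hne
  · exact h3

end

/-- extension by zero -/
noncomputable def ext0 (K : Subgroup H) (ψ : K → ℂ) (h : H) : ℂ := by
  classical
  exact if hk : h ∈ K then ψ ⟨h, hk⟩ else 0

lemma ext0_mem {K : Subgroup H} (ψ : K → ℂ) (k : K) : ext0 K ψ k = ψ k := by
  unfold ext0; simp

lemma ext0_of_mem {K : Subgroup H} (ψ : K → ℂ) {h : H} (hk : h ∈ K) : ext0 K ψ h = ψ ⟨h, hk⟩ := by
  unfold ext0; simp [hk]

lemma ext0_notMem {K : Subgroup H} (ψ : K → ℂ) {h : H} (hk : h ∉ K) : ext0 K ψ h = 0 := by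
  unfold ext0; simp [hk]

lemma sum_ext0 [Fintype H] (K : Subgroup H) [Fintype K] (ψ : K → ℂ) (F : H → ℂ) :
    ∑ h : H, ext0 K ψ h * F h = ∑ k : K, ψ k * F k := by
  classical
  have h1 : ∑ k : K, ψ k * F k = ∑ k : K, ext0 K ψ k * F k := by
    apply Finset.sum_congr rfl
    intro k _; rw [ext0_mem]
  rw [h1]
  have h2 : ∑ k : K, ext0 K ψ k * F k = ∑ h ∈ Finset.univ.filter (fun h => h ∈ K),
      ext0 K ψ h * F h := by
    symm
    apply Finset.sum_subtype
    simp
  rw [h2, Finset.sum_filter_of_ne]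
  intro h _ hne
  by_contra hk
  apply hne
  rw [ext0_notMem ψ hk, zero_mul]

variable {φ : H →* MulAut A}

/-- stabilizer of a linear character -/
abbrev stab (l : CharX φ) : Subgroup H := MulAction.stabilizer H l

/-- the induced character -/
noncomputable def ind (l : CharX φ) (ψ : stab l → ℂ) (g : A ⋊[φ] H) : ℂ :=
  (Nat.card (stab l) : ℂ)⁻¹ *
    ∑ᶠ x : H, l.val (φ x⁻¹ g.left) * ext0 (stab l) ψ (x⁻¹ * g.right * x)

/-- the isotypic character -/
noncomputable def resl (l : CharX φ) (χ : A ⋊[φ] H → ℂ) (h : stab l) : ℂ :=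
  (Nat.card A : ℂ)⁻¹ * ∑ᶠ a : A, (l.val a)⁻¹ * χ ⟨a, h⟩

section
variable [Finite A] [Finite H]

instance : Finite (A ⋊[φ] H) := Finite.of_equiv _ SemidirectProduct.equivProd.symm

lemma ind_eq [Fintype H] (l : CharX φ) (ψ : stab l → ℂ) (g : A ⋊[φ] H) :
    ind l ψ g = (Nat.card (stab l) : ℂ)⁻¹ *
      ∑ x : H, l.val (φ x⁻¹ g.left) * ext0 (stab l) ψ (x⁻¹ * g.right * x) := by
  unfold ind; rw [finsum_eq_sum_of_fintype]

lemma resl_eq [Fintype A] (l : CharX φ) (χ : A ⋊[φ] H → ℂ) (h : stab l) :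
    resl l χ h = (Nat.card A : ℂ)⁻¹ * ∑ a : A, (l.val a)⁻¹ * χ ⟨a, h⟩ := by
  unfold resl; rw [finsum_eq_sum_of_fintype]

lemma resl_isClass (l : CharX φ) {χ : A ⋊[φ] H → ℂ} (hχ : IsClass χ) : IsClass (resl l χ) := by
  have := Fintype.ofFinite A
  intro g x
  rw [resl_eq, resl_eq]
  congr 1
  rw [← Equiv.sum_comp (φ (g : H)).toEquiv]
  apply Finset.sum_congr rfl
  intro a _
  have h1 : l.val ((φ (g : H)).toEquiv a) = l.val a := CharX.mem_stab.1 g.2 a
  rw [h1]
  congr 1
  rw [← hχ (SemidirectProduct.inr (g : H)) ⟨a, (x : H)⟩]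
  congr 1
  ext <;> simp [mul_assoc]

lemma ind_isClass (l : CharX φ) (ψ : stab l → ℂ) : IsClass (ind l ψ) := by
  have := Fintype.ofFinite H
  have hinr : ∀ (y : H) (g : A ⋊[φ] H),
      ind l ψ (SemidirectProduct.inr y * g * (SemidirectProduct.inr y)⁻¹) = ind l ψ g := by
    intro y g
    rw [ind_eq, ind_eq]
    congr 1
    rw [← Equiv.sum_comp (Equiv.mulLeft y)]
    apply Finset.sum_congr rfl
    intro x _
    simp only [SemidirectProduct.mul_left, SemidirectProduct.left_inr, SemidirectProduct.right_inr,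
      one_mul, SemidirectProduct.inv_left, SemidirectProduct.inv_right, SemidirectProduct.mul_right,
      inv_one, map_one, mul_one, Equiv.coe_mulLeft, mul_inv_rev, map_mul]
    congr 1
    · congr 1
      simp
    · congr 1
      group
  have hinl : ∀ (b : A) (g : A ⋊[φ] H),
      ind l ψ (SemidirectProduct.inl b * g * (SemidirectProduct.inl b)⁻¹) = ind l ψ g := by
    intro b g
    rw [ind_eq, ind_eq]
    congr 1
    apply Finset.sum_congr rfl
    intro x _
    have hr : (SemidirectProduct.inl b * g * (SemidirectProduct.inl b)⁻¹ : A ⋊[φ] H).right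
        = g.right := by simp
    have hl : (SemidirectProduct.inl b * g * (SemidirectProduct.inl b)⁻¹ : A ⋊[φ] H).left
        = b * g.left * φ g.right b⁻¹ := by simp
    rw [hr, hl]
    by_cases hk : x⁻¹ * g.right * x ∈ stab l
    · congr 1
      rw [map_mul, map_mul, CharX.val_mul, CharX.val_mul]
      have h1 : l.val (φ x⁻¹ (φ g.right b⁻¹)) = l.val (φ x⁻¹ b⁻¹) := by
        have := CharX.mem_stab.1 hk (φ x⁻¹ b⁻¹)
        rw [← this, ← MulAut.mul_apply, ← map_mul, ← MulAut.mul_apply, ← map_mul]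
        congr 3
        group
      have h2 : l.val (φ x⁻¹ b⁻¹) = (l.val (φ x⁻¹ b))⁻¹ := by
        rw [← CharX.val_inv, ← map_inv (φ x⁻¹) b]
      rw [h1, h2]
      have := CharX.val_ne_zero l (φ x⁻¹ b)
      field_simp
    · rw [ext0_notMem ψ hk, mul_zero, mul_zero]
  intro g x
  have hg : g = SemidirectProduct.inl g.left * SemidirectProduct.inr g.right :=
    (SemidirectProduct.inl_left_mul_inr_right g).symm
  have h2 : g * x * g⁻¹ = SemidirectProduct.inl g.left *
      (SemidirectProduct.inr g.right * x * (SemidirectProduct.inr g.right)⁻¹) *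
      (SemidirectProduct.inl g.left)⁻¹ := by
    rw [hg]
    simp only [SemidirectProduct.mul_left, SemidirectProduct.mul_right,
      SemidirectProduct.left_inl, SemidirectProduct.left_inr, SemidirectProduct.right_inl,
      SemidirectProduct.right_inr, one_mul, map_one, mul_one]
    group
  rw [h2, hinl, hinr]

/-- the basic formula for the scalar product with an induced character -/
lemma B_ind_star [Fintype A] [Fintype H] (l : CharX φ) [Fintype (stab l)] (ψ : stab l → ℂ)
    {χ : A ⋊[φ] H → ℂ} (hχ : IsClass χ) :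
    B (ind l ψ) χ = (Nat.card A : ℂ)⁻¹ * (Nat.card (stab l) : ℂ)⁻¹ *
      ∑ k : stab l, ∑ a : A, l.val a * ψ k * χ (⟨a, k⟩ : A ⋊[φ] H)⁻¹ := by
  classical
  have : Fintype (A ⋊[φ] H) := Fintype.ofEquiv _ SemidirectProduct.equivProd.symm
  rw [B_eq]
  have hcard : (Nat.card (A ⋊[φ] H) : ℂ) = Nat.card A * Nat.card H := by
    rw [SemidirectProduct.card]; push_cast; ring
  rw [hcard]
  have hsum : ∑ g : A ⋊[φ] H, ind l ψ g * χ g⁻¹ = (Nat.card (stab l) : ℂ)⁻¹ * (Nat.card H : ℂ) *
      ∑ g : A ⋊[φ] H, l.val g.left * ext0 (stab l) ψ g.right * χ g⁻¹ := by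
    have h1 : ∀ x : H, ∑ g : A ⋊[φ] H, l.val (φ x⁻¹ g.left) *
        ext0 (stab l) ψ (x⁻¹ * g.right * x) * χ g⁻¹ =
        ∑ g : A ⋊[φ] H, l.val g.left * ext0 (stab l) ψ g.right * χ g⁻¹ := by
      intro x
      rw [← Equiv.sum_comp (MulAut.conj (SemidirectProduct.inr x : A ⋊[φ] H)).toEquiv]
      apply Finset.sum_congr rfl
      intro g _
      have e0 : (MulAut.conj (SemidirectProduct.inr x : A ⋊[φ] H)).toEquiv g =
        SemidirectProduct.inr x * g * (SemidirectProduct.inr x)⁻¹ := rfl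
      rw [e0]
      have e1 : χ (SemidirectProduct.inr x * g * (SemidirectProduct.inr x)⁻¹)⁻¹ = χ g⁻¹ := by
        rw [← hχ (SemidirectProduct.inr x) g⁻¹]
        congr 1
        group
      rw [e1]
      congr 2
      · congr 1
        simp
      · congr 1
        simp only [SemidirectProduct.mul_right, SemidirectProduct.right_inr,
          SemidirectProduct.inv_right]
        group
    calc ∑ g : A ⋊[φ] H, ind l ψ g * χ g⁻¹ = ∑ g : A ⋊[φ] H, (Nat.card (stab l) : ℂ)⁻¹ *
          ∑ x : H, l.val (φ x⁻¹ g.left) * ext0 (stab l) ψ (x⁻¹ * g.right * x) * χ g⁻¹ := by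
          apply Finset.sum_congr rfl
          intro g _
          rw [ind_eq, mul_assoc, Finset.sum_mul]
      _ = (Nat.card (stab l) : ℂ)⁻¹ * ∑ x : H, ∑ g : A ⋊[φ] H, l.val (φ x⁻¹ g.left) *
        ext0 (stab l) ψ (x⁻¹ * g.right * x) * χ g⁻¹ := by
          rw [← Finset.mul_sum, Finset.sum_comm]
      _ = _ := by
          rw [Finset.sum_congr rfl (fun x _ => h1 x), Finset.sum_const, nsmul_eq_mul,
            Finset.card_univ, ← Nat.card_eq_fintype_card]
          ring
  have hsum2 : ∑ g : A ⋊[φ] H, l.val g.left * ext0 (stab l) ψ g.right * χ g⁻¹ =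
      ∑ k : stab l, ∑ a : A, l.val a * ψ k * χ (⟨a, k⟩ : A ⋊[φ] H)⁻¹ := by
    rw [← Equiv.sum_comp (SemidirectProduct.equivProd (φ := φ)).symm, Fintype.sum_prod_type_right]
    have h3 : ∀ h : H, ∑ a : A, l.val ((SemidirectProduct.equivProd (φ := φ)).symm (a, h)).left *
        ext0 (stab l) ψ ((SemidirectProduct.equivProd (φ := φ)).symm (a, h)).right *
        χ ((SemidirectProduct.equivProd (φ := φ)).symm (a, h))⁻¹ =
        ext0 (stab l) ψ h * ∑ a : A, l.val a * χ (⟨a, h⟩ : A ⋊[φ] H)⁻¹ := by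
      intro h
      rw [Finset.mul_sum]
      apply Finset.sum_congr rfl
      intro a _
      simp only [SemidirectProduct.equivProd, Equiv.coe_fn_symm_mk]
      ring
    rw [Finset.sum_congr rfl (fun h _ => h3 h), sum_ext0]
    apply Finset.sum_congr rfl
    intro k _
    rw [Finset.mul_sum]
    apply Finset.sum_congr rfl
    intro a _
    ring
  rw [hsum, hsum2]
  have hA : (Nat.card A : ℂ) ≠ 0 := by exact_mod_cast Nat.card_pos.ne'
  have hH : (Nat.card H : ℂ) ≠ 0 := by exact_mod_cast Nat.card_pos.ne'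
  have hK : (Nat.card (stab l) : ℂ) ≠ 0 := by exact_mod_cast Nat.card_pos.ne'
  field_simp

/-- Frobenius reciprocity -/
lemma B_ind (l : CharX φ) (ψ : stab l → ℂ) {χ : A ⋊[φ] H → ℂ} (hχ : IsClass χ) :
    B (ind l ψ) χ = B ψ (resl l χ) := by
  have := Fintype.ofFinite A
  have := Fintype.ofFinite H
  have := Fintype.ofFinite (stab l)
  rw [B_ind_star l ψ hχ, B_eq]
  rw [mul_comm (Nat.card A : ℂ)⁻¹, mul_assoc, Finset.mul_sum]
  congr 1
  apply Finset.sum_congr rfl
  intro k _
  rw [resl_eq]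
  rw [← Equiv.sum_comp ((Equiv.inv A).trans (φ (k : H)).toEquiv)]
  rw [Finset.mul_sum, Finset.mul_sum, Finset.mul_sum]
  apply Finset.sum_congr rfl
  intro b _
  have h1 : ((Equiv.inv A).trans (φ (k : H)).toEquiv) b = φ (k : H) b⁻¹ := rfl
  rw [h1, CharX.mem_stab.1 k.2, CharX.val_inv]
  have h2 : (⟨φ (k : H) b⁻¹, k⟩ : A ⋊[φ] H)⁻¹ = ⟨b, ((k⁻¹ : stab l) : H)⟩ := by
    ext
    · simp
    · simp
  rw [h2]
  ring

/-- the representation of `A ⋊ stab l` attached to `l` and a representation of `stab l` -/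
noncomputable def twist (l : CharX φ) {V : Type} [AddCommGroup V] [Module ℂ V]
    (ρ : Representation ℂ (stab l) V) :
    Representation ℂ (A ⋊[φ.comp (stab l).subtype] (stab l)) V where
  toFun g := l.val g.left • ρ g.right
  map_one' := by simp
  map_mul' g h := by
    rw [SemidirectProduct.mul_left, SemidirectProduct.mul_right, CharX.val_mul, map_mul]
    have : l.val ((φ.comp (stab l).subtype) g.right h.left) = l.val h.left :=
      CharX.mem_stab.1 g.right.2 h.left
    rw [this, smul_mul_smul_comm]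

lemma twist_char (l : CharX φ) {V : Type} [AddCommGroup V] [Module ℂ V]
    (ρ : Representation ℂ (stab l) V) (g : A ⋊[φ.comp (stab l).subtype] (stab l)) :
    (twist l ρ).character g = l.val g.left * ρ.character g.right := by
  unfold Representation.character
  change LinearMap.trace ℂ V (l.val g.left • ρ g.right) = _
  rw [map_smul, smul_eq_mul]

/-- restriction of a representation along a homomorphism -/
noncomputable def resRep {G G' V : Type} [Group G] [Group G'] [AddCommGroup V] [Module ℂ V]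
    (f : G →* G') (ρ : Representation ℂ G' V) : Representation ℂ G V := ρ.comp f

/-- the inclusion of `A ⋊ stab l` -/
def incl (l : CharX φ) : (A ⋊[φ.comp (stab l).subtype] (stab l)) →* A ⋊[φ] H :=
  SemidirectProduct.map (MonoidHom.id A) (stab l).subtype (by intro g; ext a; rfl)

lemma B_ind_nat (l : CharX φ) {ψ : stab l → ℂ} (hψ : ψ ∈ Irr (stab l)) {χ : A ⋊[φ] H → ℂ}
    (hχ : χ ∈ Irr (A ⋊[φ] H)) : ∃ n : ℕ, B (ind l ψ) χ = n := by
  classical
  have := Fintype.ofFinite A
  have := Fintype.ofFinite H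
  have := Fintype.ofFinite (stab l)
  have hχc := Irr.isClass hχ
  obtain ⟨V, _, _, _, ρ, hρ, rfl⟩ := hψ
  obtain ⟨W, _, _, _, τ, hτ, rfl⟩ := hχ
  obtain ⟨n, hn⟩ := B_char (twist l ρ) (resRep (incl l) τ)
  refine ⟨n, ?_⟩
  rw [← hn, B_ind_star l _ hχc]
  have : Fintype (A ⋊[φ.comp (stab l).subtype] (stab l)) :=
    Fintype.ofEquiv _ SemidirectProduct.equivProd.symm
  rw [B_eq, SemidirectProduct.card]
  have hcast : (((Nat.card A * Nat.card (stab l) : ℕ) : ℂ))⁻¹ =
      (Nat.card A : ℂ)⁻¹ * (Nat.card (stab l) : ℂ)⁻¹ := by push_cast; rw [mul_inv]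
  rw [hcast]
  congr 1
  rw [← Equiv.sum_comp (SemidirectProduct.equivProd (φ := φ.comp (stab l).subtype)).symm,
    Fintype.sum_prod_type_right]
  apply Finset.sum_congr rfl
  intro k _
  apply Finset.sum_congr rfl
  intro a _
  rw [twist_char]
  have e : (resRep (incl l) τ).character
      ((SemidirectProduct.equivProd (φ := φ.comp (stab l).subtype)).symm (a, k))⁻¹ =
      τ.character (⟨a, k⟩ : A ⋊[φ] H)⁻¹ := by
    change τ.character (incl l _) = _
    rw [map_inv]
    rfl
  rw [e]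
  rfl

open Classical in
lemma resl_ind (l m : CharX φ) (ψ : stab m → ℂ) (k : stab l) :
    resl l (ind m ψ) k = (Nat.card (stab m) : ℂ)⁻¹ *
      ∑ᶠ x : H, (if l = x • m then 1 else 0) * ext0 (stab m) ψ (x⁻¹ * k * x) := by
  have := Fintype.ofFinite A
  have := Fintype.ofFinite H
  rw [resl_eq, finsum_eq_sum_of_fintype]
  have h1 : ∀ a : A, (l.val a)⁻¹ * ind m ψ ⟨a, k⟩ = (Nat.card (stab m) : ℂ)⁻¹ * ∑ x : H,
      ((l.val a)⁻¹ * (x • m).val a) * ext0 (stab m) ψ (x⁻¹ * k * x) := by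
    intro a
    rw [ind_eq, Finset.mul_sum, Finset.mul_sum, Finset.mul_sum]
    apply Finset.sum_congr rfl
    intro x _
    rw [CharX.smul_val]
    ring
  rw [Finset.sum_congr rfl (fun a _ => h1 a), ← Finset.mul_sum, Finset.sum_comm]
  rw [← mul_assoc, mul_comm (Nat.card A : ℂ)⁻¹, mul_assoc, Finset.mul_sum]
  congr 1
  apply Finset.sum_congr rfl
  intro x _
  rw [← Finset.sum_mul, orth]
  have hA : (Nat.card A : ℂ) ≠ 0 := by exact_mod_cast Nat.card_pos.ne'
  split_ifs with h
  · field_simp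
  · ring

lemma resl_ind_ne (l m : CharX φ) (ψ : stab m → ℂ) (h : ∀ x : H, l ≠ x • m) :
    resl l (ind m ψ) = 0 := by
  classical
  ext k
  rw [resl_ind]
  simp [h]

lemma resl_ind_self (l : CharX φ) (ψ : stab l → ℂ) (hψ : IsClass ψ) :
    resl l (ind l ψ) = ψ := by
  classical
  have := Fintype.ofFinite H
  have := Fintype.ofFinite (stab l)
  ext k
  rw [resl_ind, finsum_eq_sum_of_fintype]
  have h1 : ∑ x : H, (if l = x • l then (1 : ℂ) else 0) * ext0 (stab l) ψ (x⁻¹ * k * x) =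
      ∑ x : H, ext0 (stab l) (fun _ => 1) x * ext0 (stab l) ψ (x⁻¹ * k * x) := by
    apply Finset.sum_congr rfl
    intro x _
    congr 1
    by_cases hx : x ∈ stab l
    · rw [ext0_of_mem _ hx, if_pos]
      exact (MulAction.mem_stabilizer_iff.1 hx).symm
    · rw [ext0_notMem _ hx, if_neg]
      intro he
      exact hx (MulAction.mem_stabilizer_iff.2 he.symm)
  rw [h1, sum_ext0]
  have h2 : ∀ x : stab l, (1 : ℂ) * ext0 (stab l) ψ ((x : H)⁻¹ * k * x) = ψ k := by
    intro x
    have e : ((x : H)⁻¹ * k * x) = ((x⁻¹ * k * (x⁻¹)⁻¹ : stab l) : H) := by simp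
    rw [e, ext0_mem, hψ, one_mul]
  rw [Finset.sum_congr rfl (fun x _ => h2 x), Finset.sum_const, nsmul_eq_mul, Finset.card_univ,
    ← Nat.card_eq_fintype_card, ← mul_assoc, inv_mul_cancel₀, one_mul]
  exact_mod_cast Nat.card_pos.ne'

lemma ind_irr (l : CharX φ) {ψ : stab l → ℂ} (hψ : ψ ∈ Irr (stab l)) :
    ind l ψ ∈ Irr (A ⋊[φ] H) := by
  apply irr_of_norm_one _ (ind_isClass l ψ) (fun χ hχ => B_ind_nat l hψ hχ)
  rw [B_ind l ψ (ind_isClass l ψ), resl_ind_self l ψ (Irr.isClass hψ), B_irr_self hψ]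

lemma resl_smul_one (l : CharX φ) (x : H) {χ : A ⋊[φ] H → ℂ} (hχ : IsClass χ) :
    resl (x • l) χ 1 = resl l χ 1 := by
  have := Fintype.ofFinite A
  rw [resl_eq, resl_eq]
  congr 1
  rw [← Equiv.sum_comp (φ x).toEquiv]
  apply Finset.sum_congr rfl
  intro a _
  have h1 : (x • l).val ((φ x).toEquiv a) = l.val a := by
    rw [CharX.smul_val]
    simp
  rw [h1]
  congr 1
  rw [← hχ (SemidirectProduct.inr x) ⟨a, _⟩]
  congr 1
  ext <;> simp

lemma exists_resl_ne {χ : A ⋊[φ] H → ℂ} (hχ : χ ∈ Irr (A ⋊[φ] H)) :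
    ∃ l : CharX φ, resl l χ 1 ≠ 0 := by
  by_contra hcon
  push Not at hcon
  have := Fintype.ofFinite A
  have := Fintype.ofFinite (CharX φ)
  have h1 : ∑ l : CharX φ, resl l χ 1 = 0 := Finset.sum_eq_zero (fun l _ => hcon l)
  have h2 : ∑ l : CharX φ, resl l χ 1 = (Nat.card A : ℂ)⁻¹ * (Fintype.card (CharX φ) * χ 1) := by
    have h3 : ∀ l : CharX φ, resl l χ 1 = (Nat.card A : ℂ)⁻¹ *
        ∑ a : A, (l.val a)⁻¹ * χ ⟨a, 1⟩ := fun l => by rw [resl_eq]; rfl
    rw [Finset.sum_congr rfl (fun l _ => h3 l), ← Finset.mul_sum, Finset.sum_comm]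
    congr 1
    rw [Finset.sum_eq_single 1]
    · simp only [CharX.val_one, inv_one, one_mul]
      rw [Finset.sum_const, nsmul_eq_mul, Finset.card_univ]
      rfl
    · intro a _ ha
      rw [← Finset.sum_mul, dual_orth ha, zero_mul]
    · intro h; exact absurd (Finset.mem_univ _) h
  rw [h1] at h2
  obtain ⟨n, hn0, hn⟩ := irr_one hχ
  rw [hn] at h2
  have hA : (Nat.card A : ℂ) ≠ 0 := by exact_mod_cast Nat.card_pos.ne'
  have hX : (Fintype.card (CharX φ) : ℂ) ≠ 0 := by
    have : Nonempty (CharX φ) := ⟨⟨1⟩⟩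
    exact_mod_cast Fintype.card_pos.ne'
  have hn' : (n : ℂ) ≠ 0 := by exact_mod_cast hn0.ne'
  exact (mul_ne_zero (inv_ne_zero hA) (mul_ne_zero hX hn')) h2.symm

/-- every irreducible character is induced from any linear character below it -/
lemma exists_ind {χ : A ⋊[φ] H → ℂ} (hχ : χ ∈ Irr (A ⋊[φ] H)) (l : CharX φ)
    (hl : resl l χ 1 ≠ 0) : ∃ ψ ∈ Irr (stab l), χ = ind l ψ := by
  have hχc := Irr.isClass hχ
  have h1 : ∃ ψ ∈ Irr (stab l), B (resl l χ) ψ ≠ 0 := by
    by_contra hcon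
    push Not at hcon
    have := complete (resl l χ) (resl_isClass l hχc) hcon
    apply hl
    rw [this]; rfl
  obtain ⟨ψ, hψ, hne⟩ := h1
  refine ⟨ψ, hψ, ?_⟩
  by_contra hneq
  apply hne
  rw [B_symm, ← B_ind l ψ hχc]
  exact B_irr_ne (ind_irr l hψ) hχ (fun h => hneq h.symm)

lemma ind_deg (l : CharX φ) {ψ : stab l → ℂ} (hψ : ψ ∈ Irr (stab l)) :
    deg (ind l ψ) = (stab l).index * deg ψ := by
  have := Fintype.ofFinite H
  apply deg_eq
  rw [ind_eq]
  have h1 : ∀ x : H, l.val (φ x⁻¹ (1 : A ⋊[φ] H).left) *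
      ext0 (stab l) ψ (x⁻¹ * (1 : A ⋊[φ] H).right * x) = deg ψ := by
    intro x
    have e : x⁻¹ * (1 : A ⋊[φ] H).right * x = ((1 : stab l) : H) := by simp
    rw [e, ext0_mem, deg_cast hψ]
    simp
  rw [Finset.sum_congr rfl (fun x _ => h1 x), Finset.sum_const, nsmul_eq_mul, Finset.card_univ,
    ← Nat.card_eq_fintype_card, ← (stab l).card_mul_index]
  push_cast
  have hK : (Nat.card (stab l) : ℂ) ≠ 0 := by exact_mod_cast Nat.card_pos.ne'
  field_simp

end

end Pool.Agent.Helper42.INC
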