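import Pool.Agent.Helper42.INC.Restrict

/-! The affine reduction for the congruence form of the McKay statement. -/

set_option linter.unusedSectionVars false

open MulAction
open scoped Pointwise

namespace Pool.Agent.Helper42.INC

section count

variable {A H : Type} [CommGroup A] [Group H] [Finite A] [Finite H] (φ : H →* MulAut A)
  {p : ℕ} [Fact p.Prime]

/-- the fiber over one orbit -/
def Fib (p : ℕ) {φ : H →* MulAut A} (l : CharX φ) (s : ZMod p) : Type :=
  {ψ : Irr (stab l) // (((stab l).index * deg ψ.1 : ℕ) : ZMod p) ^ 2 = s}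

instance (l : CharX φ) (s : ZMod p) : Finite (Fib p l s) :=
  inferInstanceAs (Finite {ψ : Irr (stab l) // (((stab l).index * deg ψ.1 : ℕ) : ZMod p) ^ 2 = s})

lemma cnt_semi (R : Type) [Fintype R] (lam : R → CharX φ)
    (h1 : ∀ r r' (x : H), lam r = x • lam r' → r = r')
    (h2 : ∀ l : CharX φ, ¬ p ∣ (stab l).index → ∃ r, ∃ x : H, l = x • lam r)
    (s : ZMod p) (hs : s ≠ 0) :
    cnt p (A ⋊[φ] H) s = ∑ r, Nat.card (Fib p (lam r) s) := by
  rw [← Nat.card_sigma]
  unfold cnt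
  symm
  refine Nat.card_congr (Equiv.ofBijective
    (fun y : (Σ r, Fib p (lam r) s) => (⟨⟨ind (lam y.1) y.2.1.1, ind_irr (lam y.1) y.2.1.2⟩, by
      rw [ind_deg (lam y.1) y.2.1.2]
      exact y.2.2⟩ : {χ : Irr (A ⋊[φ] H) // (deg χ.1 : ZMod p) ^ 2 = s})) ⟨?_, ?_⟩)
  · rintro ⟨r, ψ⟩ ⟨r', ψ'⟩ he
    have he' : ind (lam r) ψ.1.1 = ind (lam r') ψ'.1.1 :=
      congrArg (fun t : {χ : Irr (A ⋊[φ] H) // (deg χ.1 : ZMod p) ^ 2 = s} => t.1.1) he
    have hr : r = r' := by
      by_contra hne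
      have h3 : resl (lam r) (ind (lam r') ψ'.1.1) = 0 :=
        resl_ind_ne _ _ _ (fun x hx => hne (h1 r r' x hx))
      rw [← he', resl_ind_self _ _ (Irr.isClass ψ.1.2)] at h3
      obtain ⟨n, hn0, hn⟩ := irr_one ψ.1.2
      rw [h3] at hn
      have : (n : ℂ) = 0 := hn.symm
      rw [Nat.cast_eq_zero] at this
      omega
    subst hr
    have h4 := congrArg (resl (lam r)) he'
    rw [resl_ind_self _ _ (Irr.isClass ψ.1.2), resl_ind_self _ _ (Irr.isClass ψ'.1.2)] at h4
    congr 1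
    exact Subtype.ext (Subtype.ext h4)
  · rintro ⟨⟨χ, hχ⟩, hdeg⟩
    obtain ⟨l, hl⟩ := exists_resl_ne hχ
    have hnd : ¬ p ∣ (stab l).index := by
      obtain ⟨ψ, hψ, hψχ⟩ := exists_ind hχ l hl
      intro hd
      apply hs
      rw [← hdeg]
      simp only
      rw [hψχ, ind_deg l hψ]
      have : ((((stab l).index * deg ψ : ℕ)) : ZMod p) = 0 := by
        rw [ZMod.natCast_eq_zero_iff]
        exact Dvd.dvd.mul_right hd _
      rw [this]; simp
    obtain ⟨r, x, hx⟩ := h2 l hnd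
    have hl' : resl (lam r) χ 1 ≠ 0 := by
      rw [← resl_smul_one (lam r) x (Irr.isClass hχ), ← hx] 
      exact hl
    obtain ⟨ψ, hψ, hψχ⟩ := exists_ind hχ (lam r) hl'
    refine ⟨⟨r, ⟨⟨ψ, hψ⟩, ?_⟩⟩, ?_⟩
    · rw [← ind_deg (lam r) hψ, ← hψχ]
      exact hdeg
    · apply Subtype.ext
      apply Subtype.ext
      exact hψχ.symm

/-- the fiber in terms of the stabilizer -/
lemma card_fib (l : CharX φ) (s : ZMod p) (hi : ¬ p ∣ (stab l).index) :
    Nat.card (Fib p l s) = cnt p (stab l) (s * (((stab l).index : ZMod p) ^ 2)⁻¹) := by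
  unfold Fib cnt
  apply Nat.card_congr
  apply Equiv.subtypeEquivRight
  intro ψ
  have h0 : (((stab l).index : ℕ) : ZMod p) ^ 2 ≠ 0 := by
    apply pow_ne_zero
    rw [Ne, ZMod.natCast_eq_zero_iff]
    exact hi
  rw [eq_mul_inv_iff_mul_eq₀ h0]
  push_cast
  rw [mul_pow, mul_comm]

end count

section main

variable {A H : Type} [CommGroup A] [Group H] [Finite A] [Finite H] (φ : H →* MulAut A)
  {p : ℕ} [Fact p.Prime] (S : Sylow p A) (Q : Sylow p H)

/-- orbits of the normalizer on `Q`-invariant characters -/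
def orbSetoid : Setoid {l : CharX φ // QFix Q l} where
  r l l' := ∃ n ∈ Subgroup.normalizer (Q : Set H), n • l.1 = l'.1
  iseqv :=
    { refl := fun l => ⟨1, Subgroup.one_mem _, one_smul _ _⟩
      symm := by
        rintro l l' ⟨n, hn, h⟩
        exact ⟨n⁻¹, Subgroup.inv_mem _ hn, by rw [← h, inv_smul_smul]⟩
      trans := by
        rintro l l' l'' ⟨n, hn, h⟩ ⟨m, hm, h'⟩
        exact ⟨m * n, Subgroup.mul_mem _ hm hn, by rw [mul_smul, h, h']⟩ }

/-- index set of orbits -/
def Rep : Type := Quotient (orbSetoid φ Q)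

instance : Finite (Rep φ Q) := by
  unfold Rep; infer_instance

variable {φ Q}

/-- representatives -/
noncomputable def lam (r : Rep φ Q) : CharX φ := (Quotient.out r).1

lemma lam_qfix (r : Rep φ Q) : QFix Q (lam r) := (Quotient.out r).2

lemma lam_injective {r r' : Rep φ Q} {n : H} (hn : n ∈ Subgroup.normalizer (Q : Set H))
    (h : lam r = n • lam r') : r = r' := by
  have h1 : (orbSetoid φ Q).r (Quotient.out r') (Quotient.out r) := ⟨n, hn, h.symm⟩
  have h2 := Quotient.sound (s := orbSetoid φ Q) h1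
  exact ((Quotient.out_eq r').symm.trans (h2.trans (Quotient.out_eq r))).symm

lemma exists_lam {l : CharX φ} (hl : QFix Q l) :
    ∃ r : Rep φ Q, ∃ n ∈ Subgroup.normalizer (Q : Set H), l = n • lam r := by
  refine ⟨Quotient.mk (orbSetoid φ Q) ⟨l, hl⟩, ?_⟩
  have h := Quotient.mk_out (s := orbSetoid φ Q) ⟨l, hl⟩
  obtain ⟨n, hn, hnl⟩ := h
  exact ⟨n, hn, hnl.symm⟩

variable (φ Q)

lemma hypH1 (r r' : Rep φ Q) (x : H) (h : lam r = x • lam r') : r = r' := by
  have h1 : QFix Q (x • lam r') := by rw [← h]; exact lam_qfix r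
  obtain ⟨n, hn, hnl⟩ := exists_normalizer (lam_qfix r') h1
  exact lam_injective hn (h.trans hnl.symm)

lemma hypH2 (l : CharX φ) (hl : ¬ p ∣ (stab l).index) :
    ∃ r : Rep φ Q, ∃ x : H, l = x • lam r := by
  obtain ⟨x, hx⟩ := exists_qfix (Q := Q) hl
  obtain ⟨r, n, _, hn⟩ := exists_lam hx
  refine ⟨r, x⁻¹ * n, ?_⟩
  rw [mul_smul, ← hn, inv_smul_smul]

lemma hypN1 (r r' : Rep φ Q) (n : Subgroup.normalizer (Q : Set H))
    (h : resX φ S Q (lam r) = n • resX φ S Q (lam r')) : r = r' := by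
  rw [← resX_smul] at h
  have h1 := resX_injective φ S Q (lam_qfix r) ((lam_qfix r').smul n.2) h
  exact lam_injective n.2 h1

lemma QN_normal : ((QN Q : Sylow p (Subgroup.normalizer (Q : Set H))) :
    Subgroup (Subgroup.normalizer (Q : Set H))).Normal := by
  unfold QN
  rw [Sylow.coe_subtype]
  exact Subgroup.normal_in_normalizer

lemma hypN2 (m : CharX (phiN φ S Q)) (hm : ¬ p ∣ (stab m).index) :
    ∃ r : Rep φ Q, ∃ n : Subgroup.normalizer (Q : Set H), m = n • resX φ S Q (lam r) := by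
  obtain ⟨x, hx⟩ := exists_qfix (Q := QN Q) hm
  have hx' : QFix (QN Q) m := by
    have h1 : x⁻¹ ∈ Subgroup.normalizer ((QN Q : Sylow p (Subgroup.normalizer (Q : Set H))) :
        Set (Subgroup.normalizer (Q : Set H))) := by
      have h2 : Subgroup.normalizer ((QN Q : Sylow p (Subgroup.normalizer (Q : Set H))) :
        Set (Subgroup.normalizer (Q : Set H))) = ⊤ :=
        Subgroup.normalizer_eq_top_iff.2 (QN_normal Q)
      rw [h2]; exact Subgroup.mem_top _
    have h3 := hx.smul h1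
    rwa [inv_smul_smul] at h3
  obtain ⟨l, hl, rfl⟩ := resX_surjective φ S Q hx'
  obtain ⟨r, n, hn, rfl⟩ := exists_lam hl
  exact ⟨r, ⟨n, hn⟩, resX_smul φ S Q ⟨n, hn⟩ (lam r)⟩

lemma stab_resX {l : CharX φ} (hl : QFix Q l) :
    stab (resX φ S Q l) = stabilizer (Subgroup.normalizer (Q : Set H)) l := by
  ext n
  rw [mem_stabilizer_iff, mem_stabilizer_iff, ← resX_smul]
  constructor
  · intro h
    exact resX_injective φ S Q (hl.smul n.2) hl h
  · intro h
    have : (n : H) • l = l := h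
    rw [this]

lemma fib_eq (l : CharX φ) (hl : QFix Q l) (s : ZMod p) (hs : s ≠ 0)
    (hK : McKayCongr p (stab l)) :
    Nat.card (Fib p l s) = Nat.card (Fib p (resX φ S Q l) s) := by
  have hle := (qfix_iff_le Q).1 hl
  have hi := qfix_not_dvd hl
  have hcong := index_modEq hl
  have hst := stab_resX φ S Q hl
  have hi' : ¬ p ∣ (stab (resX φ S Q l)).index := by
    rw [hst]
    intro hd
    exact hi ((hcong.dvd_iff (dvd_refl p)).2 hd)
  rw [card_fib φ l s hi, card_fib _ _ s hi']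
  have hidx : (((stab l).index : ℕ) : ZMod p) = (((stab (resX φ S Q l)).index : ℕ) : ZMod p) := by
    rw [hst]
    exact (ZMod.natCast_eq_natCast_iff _ _ _).2 hcong
  rw [hidx]
  have ht : s * ((((stab (resX φ S Q l)).index : ℕ) : ZMod p) ^ 2)⁻¹ ≠ 0 := by
    apply mul_ne_zero hs
    apply inv_ne_zero
    apply pow_ne_zero
    rw [Ne, ZMod.natCast_eq_zero_iff]
    exact hi'
  rw [(mcKay_iff (Q.subtype hle)).1 hK _ ht]
  rw [cnt_congr (normStabEquiv hle)]
  rw [hst]

lemma cnt_top (K : Subgroup H) (h : K = ⊤) (s : ZMod p) : cnt p K s = cnt p H s := by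
  subst h
  exact cnt_congr Subgroup.topEquiv s

lemma fib_top (l : CharX φ) (h : stab l = ⊤) (s : ZMod p) :
    Nat.card (Fib p l s) = cnt p H s := by
  have h1 : (stab l).index = 1 := by rw [h]; simp
  rw [card_fib φ l s (by rw [h1]; exact (Fact.out : p.Prime).one_lt.ne' ∘ Nat.dvd_one.1), h1,
    cnt_top _ h]
  simp

/-- **Main theorem.** -/
theorem affine_reduction
    (hprop : ∀ K : Subgroup H, K ≠ ⊤ → ¬ p ∣ K.index → McKayCongr p K) :
    McKayCongr p (A ⋊[φ] H) ↔ McKayCongr p H := by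
  classical
  obtain ⟨S⟩ : Nonempty (Sylow p A) := inferInstance
  obtain ⟨Q⟩ : Nonempty (Sylow p H) := inferInstance
  have := Fintype.ofFinite (Rep φ Q)
  have hG : ∀ s : ZMod p, s ≠ 0 → cnt p (A ⋊[φ] H) s =
      ∑ r : Rep φ Q, Nat.card (Fib p (lam r) s) :=
    fun s hs => cnt_semi φ (Rep φ Q) lam (hypH1 φ Q) (hypH2 φ Q) s hs
  have hN : ∀ s : ZMod p, s ≠ 0 →
      cnt p (Subgroup.normalizer (sylowSemi φ S Q : Set (A ⋊[φ] H))) s =
      ∑ r : Rep φ Q, Nat.card (Fib p (resX φ S Q (lam r)) s) := by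
    intro s hs
    rw [← cnt_congr (normSemiEquiv φ S Q)]
    exact cnt_semi (phiN φ S Q) (Rep φ Q) (fun r => resX φ S Q (lam r))
      (hypN1 φ S Q) (hypN2 φ S Q) s hs
  have hterm : ∀ s : ZMod p, s ≠ 0 → ∀ r : Rep φ Q, stab (lam r) ≠ ⊤ →
      Nat.card (Fib p (lam r) s) = Nat.card (Fib p (resX φ S Q (lam r)) s) := by
    intro s hs r hr
    exact fib_eq φ S Q (lam r) (lam_qfix r) s hs (hprop _ hr (qfix_not_dvd (lam_qfix r)))
  have hterm' : ∀ s : ZMod p, ∀ r : Rep φ Q, stab (lam r) = ⊤ →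
      Nat.card (Fib p (lam r) s) = cnt p H s ∧ Nat.card (Fib p (resX φ S Q (lam r)) s) =
        cnt p (Subgroup.normalizer (Q : Set H)) s := by
    intro s r hr
    refine ⟨fib_top φ (lam r) hr s, ?_⟩
    apply fib_top
    rw [stab_resX φ S Q (lam_qfix r), eq_top_iff]
    intro n _
    rw [mem_stabilizer_iff]
    have : (n : H) ∈ stab (lam r) := by rw [hr]; exact Subgroup.mem_top _
    exact mem_stabilizer_iff.1 this
  rw [mcKay_iff (sylowSemi φ S Q), mcKay_iff Q]
  constructor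
  · intro h s hs
    have h1 := h s hs
    rw [hG s hs, hN s hs] at h1
    rw [← Finset.sum_filter_add_sum_filter_not Finset.univ (fun r : Rep φ Q => stab (lam r) = ⊤),
      ← Finset.sum_filter_add_sum_filter_not Finset.univ (fun r : Rep φ Q => stab (lam r) = ⊤)
        (fun r => Nat.card (Fib p (resX φ S Q (lam r)) s))] at h1
    have h2 : ∑ r ∈ Finset.univ.filter (fun r : Rep φ Q => ¬ stab (lam r) = ⊤),
        Nat.card (Fib p (lam r) s) = ∑ r ∈ Finset.univ.filter (fun r : Rep φ Q => ¬ stab (lam r) = ⊤),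
        Nat.card (Fib p (resX φ S Q (lam r)) s) := by
      apply Finset.sum_congr rfl
      intro r hr
      exact hterm s hs r (Finset.mem_filter.1 hr).2
    rw [h2] at h1
    have h3 := Nat.add_right_cancel h1
    rw [Finset.sum_congr rfl (fun r hr => (hterm' s r (Finset.mem_filter.1 hr).2).1),
      Finset.sum_congr rfl (fun r hr => (hterm' s r (Finset.mem_filter.1 hr).2).2),
      Finset.sum_const, Finset.sum_const, smul_eq_mul, smul_eq_mul] at h3
    refine Nat.eq_of_mul_eq_mul_left ?_ h3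
    -- the trivial character gives at least one fixed orbit
    rw [Finset.card_pos]
    have htriv : QFix Q (⟨1⟩ : CharX φ) := by
      apply qfix_of_hom
      intro q _ a
      rfl
    obtain ⟨r, n, hn, hr⟩ := exists_lam htriv
    refine ⟨r, Finset.mem_filter.2 ⟨Finset.mem_univ _, ?_⟩⟩
    have hlam : lam r = (⟨1⟩ : CharX φ) := by
      have h4 : lam r = n⁻¹ • (⟨1⟩ : CharX φ) := by rw [hr, inv_smul_smul]
      rw [h4]
      apply CharX.ext
      intro a
      rfl
    rw [hlam, eq_top_iff]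
    intro x _
    rw [CharX.mem_stab]
    intro a
    rfl
  · intro h s hs
    rw [hG s hs, hN s hs]
    apply Finset.sum_congr rfl
    intro r _
    by_cases hr : stab (lam r) = ⊤
    · rw [(hterm' s r hr).1, (hterm' s r hr).2]
      exact h s hs
    · exact hterm s hs r hr

end main

end Pool.Agent.Helper42.INC
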