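import Pool.Agent.Helper42.INC.SylowOrbit

/-! Sylow subgroups of `A ⋊ H` and their normalizers. -/

set_option linter.unusedSectionVars false

open MulAction
open scoped Pointwise

namespace Pool.Agent.Helper42.INC

variable {A H : Type} [CommGroup A] [Group H] [Finite A] [Finite H] (φ : H →* MulAut A)
  {p : ℕ} [Fact p.Prime]

section
variable (S : Sylow p A)

lemma sylow_stable (f : MulAut A) {a : A} (ha : a ∈ S) : f a ∈ S := by
  have hc : (S : Subgroup A).Characteristic := Sylow.characteristic_of_normal S inferInstance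
  have h := (Subgroup.characteristic_iff_map_eq.1 hc) f
  have : f a ∈ (S : Subgroup A).map f.toMonoidHom := ⟨a, ha, rfl⟩
  rw [h] at this
  exact this

variable (Q : Sylow p H)

/-- the Sylow subgroup `S ⋊ Q` -/
def sylowSub : Subgroup (A ⋊[φ] H) where
  carrier := {g | g.left ∈ S ∧ g.right ∈ Q}
  mul_mem' := by
    rintro a b ⟨ha, ha'⟩ ⟨hb, hb'⟩
    exact ⟨(S : Subgroup A).mul_mem ha (sylow_stable S _ hb), (Q : Subgroup H).mul_mem ha' hb'⟩
  one_mem' := ⟨(S : Subgroup A).one_mem, (Q : Subgroup H).one_mem⟩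
  inv_mem' := by
    rintro a ⟨ha, ha'⟩
    exact ⟨sylow_stable S _ ((S : Subgroup A).inv_mem ha), (Q : Subgroup H).inv_mem ha'⟩

lemma mem_sylowSub {g : A ⋊[φ] H} : g ∈ sylowSub φ S Q ↔ g.left ∈ S ∧ g.right ∈ Q := Iff.rfl

/-- `S ⋊ Q` is a Sylow subgroup -/
noncomputable def sylowSemi : Sylow p (A ⋊[φ] H) :=
  Sylow.ofCard (sylowSub φ S Q) (by
    have h1 : Nat.card (sylowSub φ S Q) = Nat.card S * Nat.card Q := by
      rw [← Nat.card_prod]
      apply Nat.card_congr
      exact
        { toFun := fun g => (⟨g.1.left, g.2.1⟩, ⟨g.1.right, g.2.2⟩)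
          invFun := fun g => ⟨⟨g.1.1, g.2.1⟩, ⟨g.1.2, g.2.2⟩⟩
          left_inv := fun g => rfl
          right_inv := fun g => rfl }
    rw [h1, SemidirectProduct.card, Nat.factorization_mul Nat.card_pos.ne' Nat.card_pos.ne',
      Finsupp.add_apply, pow_add]
    congr 1
    · exact Sylow.card_eq_multiplicity S
    · exact Sylow.card_eq_multiplicity Q)

lemma mem_sylowSemi {g : A ⋊[φ] H} : g ∈ sylowSemi φ S Q ↔ g.left ∈ S ∧ g.right ∈ Q := Iff.rfl

lemma mem_coe_sylowSemi {g : A ⋊[φ] H} : g ∈ (sylowSemi φ S Q : Subgroup (A ⋊[φ] H)) ↔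
    g.left ∈ S ∧ g.right ∈ Q := Iff.rfl

/-- the subgroup `A'` of elements of `A` fixed by `Q` modulo `S` -/
def Apr : Subgroup A where
  carrier := {a | ∀ q ∈ Q, a⁻¹ * φ q a ∈ S}
  mul_mem' := by
    intro a b ha hb q hq
    have h := (S : Subgroup A).mul_mem (ha q hq) (hb q hq)
    rw [map_mul]
    have e : (a * b)⁻¹ * (φ q a * φ q b) = a⁻¹ * φ q a * (b⁻¹ * φ q b) := by
      rw [mul_inv]
      exact mul_mul_mul_comm _ _ _ _
    rw [e]; exact h
  one_mem' := by intro q _; simpa using (S : Subgroup A).one_mem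
  inv_mem' := by
    intro a ha q hq
    have h := (S : Subgroup A).inv_mem (ha q hq)
    rw [map_inv]
    rwa [mul_inv] at h

lemma mem_Apr {a : A} : a ∈ Apr φ S Q ↔ ∀ q ∈ Q, a⁻¹ * φ q a ∈ S := Iff.rfl

lemma S_le_Apr {a : A} (ha : a ∈ S) : a ∈ Apr φ S Q := by
  intro q _
  exact (S : Subgroup A).mul_mem ((S : Subgroup A).inv_mem ha) (sylow_stable S _ ha)

lemma Apr_stable {n : H} (hn : n ∈ Subgroup.normalizer (Q : Set H)) {a : A}
    (ha : a ∈ Apr φ S Q) : φ n a ∈ Apr φ S Q := by
  intro q hq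
  have h := ha _ (normalizer_conj_mem hn hq)
  have h2 := sylow_stable S (φ n) h
  rw [map_mul, map_inv] at h2
  rw [← MulAut.mul_apply, ← map_mul] at h2
  have e : n * (n⁻¹ * q * n) = q * n := by group
  rw [e, map_mul, MulAut.mul_apply] at h2
  exact h2

/-- the action of the normalizer on `A'` -/
def phiN : (Subgroup.normalizer (Q : Set H)) →* MulAut (Apr φ S Q) where
  toFun n :=
    { toFun := fun a => ⟨φ n a, Apr_stable φ S Q n.2 a.2⟩
      invFun := fun a => ⟨φ ((n⁻¹ : Subgroup.normalizer (Q : Set H)) : H) a,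
        Apr_stable φ S Q (n⁻¹).2 a.2⟩
      left_inv := fun a => by
        apply Subtype.ext
        simp
      right_inv := fun a => by
        apply Subtype.ext
        simp
      map_mul' := fun a b => by
        apply Subtype.ext
        simp }
  map_one' := by ext a; simp
  map_mul' m n := by ext a; simp

lemma phiN_apply (n : Subgroup.normalizer (Q : Set H)) (a : Apr φ S Q) :
    ((phiN φ S Q n a : Apr φ S Q) : A) = φ n a := rfl

lemma mem_normalizer_sylowSemi {g : A ⋊[φ] H} :
    g ∈ Subgroup.normalizer (sylowSemi φ S Q : Set (A ⋊[φ] H)) ↔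
      g.left ∈ Apr φ S Q ∧ g.right ∈ Subgroup.normalizer (Q : Set H) := by
  have hle : ∀ g : A ⋊[φ] H, (g.left ∈ Apr φ S Q ∧ g.right ∈ Subgroup.normalizer (Q : Set H)) →
      ∀ x ∈ sylowSemi φ S Q, g * x * g⁻¹ ∈ sylowSemi φ S Q := by
    rintro g ⟨hl, hr⟩ x hx
    rw [mem_sylowSemi] at hx ⊢
    refine ⟨?_, ?_⟩
    · have h1 : φ g.right x.left ∈ S := sylow_stable S _ hx.1
      have h2 := (S : Subgroup A).inv_mem (hl _ (normalizer_conj_mem' hr hx.2))
      have h3 := (S : Subgroup A).mul_mem h1 h2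
      have e : (g * x * g⁻¹).left =
          φ g.right x.left * (g.left⁻¹ * φ (g.right * x.right * g.right⁻¹) g.left)⁻¹ := by
        simp only [SemidirectProduct.mul_left, SemidirectProduct.mul_right,
          SemidirectProduct.inv_left, map_mul, MulAut.mul_apply, mul_inv, inv_inv, map_inv]
        rw [mul_comm g.left, mul_assoc]
      rw [e]; exact h3
    · exact normalizer_conj_mem' hr hx.2
  have hinv : ∀ g : A ⋊[φ] H, (g.left ∈ Apr φ S Q ∧ g.right ∈ Subgroup.normalizer (Q : Set H)) →
      (g⁻¹.left ∈ Apr φ S Q ∧ g⁻¹.right ∈ Subgroup.normalizer (Q : Set H)) := by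
    rintro g ⟨hl, hr⟩
    have hr' := (Subgroup.normalizer (Q : Set H)).inv_mem hr
    refine ⟨?_, hr'⟩
    rw [SemidirectProduct.inv_left]
    exact Apr_stable φ S Q hr' ((Apr φ S Q).inv_mem hl)
  constructor
  · intro hg
    have hg' := (Subgroup.mem_normalizer_iff (H := (sylowSemi φ S Q : Subgroup (A ⋊[φ] H)))).1 hg
    have hr : g.right ∈ Subgroup.normalizer (Q : Set H) := by
      refine (Subgroup.mem_normalizer_iff (H := (Q : Subgroup H))).2 (fun q => ?_)
      have h1 := hg' (SemidirectProduct.inr q)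
      have e1 : (SemidirectProduct.inr q : A ⋊[φ] H) ∈ (sylowSemi φ S Q : Subgroup (A ⋊[φ] H)) ↔
          q ∈ Q := by
        rw [mem_coe_sylowSemi]
        simp [show (1 : A) ∈ S from (S : Subgroup A).one_mem]
      constructor
      · intro hq
        have h2 := h1.1 (e1.2 hq)
        rw [mem_coe_sylowSemi] at h2
        exact h2.2
      · intro hq
        -- use inverse
        have h3 := hg' (g⁻¹ * SemidirectProduct.inr (g.right * q * g.right⁻¹) * g)
        have e3 : g * (g⁻¹ * SemidirectProduct.inr (g.right * q * g.right⁻¹) * g) * g⁻¹ =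
          SemidirectProduct.inr (g.right * q * g.right⁻¹) := by group
        rw [e3] at h3
        have h4 : (SemidirectProduct.inr (g.right * q * g.right⁻¹) : A ⋊[φ] H) ∈
            (sylowSemi φ S Q : Subgroup (A ⋊[φ] H)) := by
          rw [mem_coe_sylowSemi]
          refine ⟨?_, ?_⟩
          · rw [SemidirectProduct.left_inr]; exact (S : Subgroup A).one_mem
          · rw [SemidirectProduct.right_inr]; exact hq
        have h5 := h3.2 h4
        rw [mem_coe_sylowSemi] at h5
        have h6 := h5.2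
        simp only [SemidirectProduct.mul_right, SemidirectProduct.right_inr,
          SemidirectProduct.inv_right] at h6
        have e6 : g.right⁻¹ * (g.right * q * g.right⁻¹) * g.right = q := by group
        rwa [e6] at h6
    refine ⟨?_, hr⟩
    intro q hq
    have hq' := normalizer_conj_mem hr hq
    have h1 := (hg' (SemidirectProduct.inr (g.right⁻¹ * q * g.right))).1 (by
      rw [mem_coe_sylowSemi]
      refine ⟨?_, ?_⟩
      · rw [SemidirectProduct.left_inr]; exact (S : Subgroup A).one_mem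
      · rw [SemidirectProduct.right_inr]; exact hq')
    rw [mem_coe_sylowSemi] at h1
    have h2 := h1.1
    simp only [SemidirectProduct.mul_left, SemidirectProduct.mul_right, SemidirectProduct.left_inr,
      SemidirectProduct.right_inr, SemidirectProduct.inv_left, map_one, mul_one] at h2
    rw [← MulAut.mul_apply, ← map_mul] at h2
    have e : g.right * (g.right⁻¹ * q * g.right) * g.right⁻¹ = q := by group
    rw [e, map_inv] at h2
    have h3 := (S : Subgroup A).inv_mem h2
    rw [mul_inv, inv_inv] at h3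
    exact h3
  · intro hg
    refine (Subgroup.mem_normalizer_iff (H := (sylowSemi φ S Q : Subgroup (A ⋊[φ] H)))).2
      (fun x => ⟨fun hx => hle g hg x hx, fun hx => ?_⟩)
    have h1 := hle g⁻¹ (hinv g hg) _ hx
    have e : g⁻¹ * (g * x * g⁻¹) * g⁻¹⁻¹ = x := by group
    rw [e] at h1
    exact h1

/-- the normalizer of the Sylow subgroup is `A' ⋊ N_H(Q)` -/
noncomputable def normSemiEquiv :
    (Apr φ S Q) ⋊[phiN φ S Q] (Subgroup.normalizer (Q : Set H)) ≃*
      Subgroup.normalizer (sylowSemi φ S Q : Set (A ⋊[φ] H)) where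
  toFun g := ⟨⟨(g.left : A), (g.right : H)⟩, (mem_normalizer_sylowSemi φ S Q).2
    ⟨g.left.2, g.right.2⟩⟩
  invFun g := ⟨⟨g.1.left, ((mem_normalizer_sylowSemi φ S Q).1 g.2).1⟩,
    ⟨g.1.right, ((mem_normalizer_sylowSemi φ S Q).1 g.2).2⟩⟩
  left_inv g := rfl
  right_inv g := rfl
  map_mul' g h := rfl

end

end Pool.Agent.Helper42.INC
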