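import Pool.Agent.Helper42.INC.SylowOrbit

/-! Representatives of orbits of size prime to `p`, general version. -/

set_option linter.unusedSectionVars false

open MulAction

namespace Pool.Agent.Helper42.INC

section

variable {G X : Type} [Group G] [Finite G] [MulAction G X] {p : ℕ} [Fact p.Prime]
  (Q : Sylow p G)

/-- orbits of the normalizer on `Q`-invariant points -/
def orbS (X : Type) [MulAction G X] : Setoid {l : X // QFix Q l} where
  r l l' := ∃ n ∈ Subgroup.normalizer (Q : Set G), n • l.1 = l'.1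
  iseqv :=
    { refl := fun l => ⟨1, Subgroup.one_mem _, one_smul _ _⟩
      symm := by
        rintro l l' ⟨n, hn, h⟩
        exact ⟨n⁻¹, Subgroup.inv_mem _ hn, by rw [← h, inv_smul_smul]⟩
      trans := by
        rintro l l' l'' ⟨n, hn, h⟩ ⟨m, hm, h'⟩
        exact ⟨m * n, Subgroup.mul_mem _ hm hn, by rw [mul_smul, h, h']⟩ }

/-- index set of orbits -/
def RepX (X : Type) [MulAction G X] : Type := Quotient (orbS Q X)

instance [Finite X] : Finite (RepX Q X) := by
  unfold RepX; infer_instance

variable {Q}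

/-- representatives -/
noncomputable def repX (r : RepX Q X) : X := (Quotient.out r).1

lemma repX_qfix (r : RepX Q X) : QFix Q (repX r) := (Quotient.out r).2

lemma repX_injective {r r' : RepX Q X} {n : G} (hn : n ∈ Subgroup.normalizer (Q : Set G))
    (h : repX r = n • repX r') : r = r' := by
  have h1 : (orbS Q X).r (Quotient.out r') (Quotient.out r) := ⟨n, hn, h.symm⟩
  have h2 := Quotient.sound (s := orbS Q X) h1
  exact ((Quotient.out_eq r').symm.trans (h2.trans (Quotient.out_eq r))).symm

lemma exists_repX {l : X} (hl : QFix Q l) :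
    ∃ r : RepX Q X, ∃ n ∈ Subgroup.normalizer (Q : Set G), l = n • repX r := by
  refine ⟨Quotient.mk (orbS Q X) ⟨l, hl⟩, ?_⟩
  have h := Quotient.mk_out (s := orbS Q X) ⟨l, hl⟩
  obtain ⟨n, hn, hnl⟩ := h
  exact ⟨n, hn, hnl.symm⟩

lemma repX_h1 (r r' : RepX Q X) (x : G) (h : repX r = x • repX r') : r = r' := by
  have h1 : QFix Q (x • repX r') := by rw [← h]; exact repX_qfix r
  obtain ⟨n, hn, hnl⟩ := exists_normalizer (repX_qfix r') h1
  exact repX_injective hn (h.trans hnl.symm)

lemma repX_h2 (l : X) (hl : ¬ p ∣ (stabilizer G l).index) :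
    ∃ r : RepX Q X, ∃ x : G, l = x • repX r := by
  obtain ⟨x, hx⟩ := exists_qfix (Q := Q) hl
  obtain ⟨r, n, _, hn⟩ := exists_repX hx
  refine ⟨r, x⁻¹ * n, ?_⟩
  rw [mul_smul, ← hn, inv_smul_smul]

end

end Pool.Agent.Helper42.INC
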