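import Pool.Agent.Helper42.INC.Step
import Pool.Agent.Helper42.INC.Main

/-! Reduction steps for a minimal counterexample. -/

set_option linter.unusedSectionVars false

open MulAction
open scoped Pointwise IsMulCommutative

namespace Pool.Agent.Helper42.INC

section basic

variable {p : ℕ} [Fact p.Prime] {G : Type} [Group G] [Finite G]

lemma mcKay_of_cnt (P : Sylow p G)
    (h : ∀ s : ZMod p, s ≠ 0 → cnt p G s = cnt p (Subgroup.normalizer (P : Set G)) s) :
    McKayCongr p G := (mcKay_iff P).2 h

/-- a normal Sylow subgroup -/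
lemma mcKay_of_normalizer_top (P : Sylow p G) (hP : Subgroup.normalizer (P : Set G) = ⊤) :
    McKayCongr p G := by
  apply mcKay_of_cnt P
  intro s _
  rw [hP]
  exact (cnt_congr Subgroup.topEquiv s).symm

lemma mcKay_of_normal (P : Sylow p G) (hP : (P : Subgroup G).Normal) : McKayCongr p G :=
  mcKay_of_normalizer_top P (Subgroup.normalizer_eq_top_iff.2 hP)

/-- the normalizer inside an intermediate subgroup -/
noncomputable def normSubEquiv (P : Sylow p G) (H : Subgroup G)
    (hPH : (P : Subgroup G) ≤ H) (hNH : Subgroup.normalizer (P : Set G) ≤ H) :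
    Subgroup.normalizer ((P.subtype hPH : Sylow p H) : Set H) ≃*
      Subgroup.normalizer (P : Set G) where
  toFun x := ⟨x.1.1, by
      refine (Subgroup.mem_normalizer_iff (H := (P : Subgroup G))).2 (fun q => ?_)
      constructor
      · intro hq
        exact (Subgroup.mem_normalizer_iff.1 x.2 ⟨q, hPH hq⟩).1 hq
      · intro hq
        have hqK : q ∈ H := by
          have h3 := H.mul_mem (H.mul_mem (H.inv_mem x.1.2) (hPH hq)) x.1.2
          have h4 : (x.1.1)⁻¹ * (x.1.1 * q * (x.1.1)⁻¹) * x.1.1 = q := by group
          rwa [h4] at h3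
        exact (Subgroup.mem_normalizer_iff.1 x.2 ⟨q, hqK⟩).2 hq⟩
  invFun n := ⟨⟨n, hNH n.2⟩, by
      refine (Subgroup.mem_normalizer_iff (H := ((P.subtype hPH : Sylow p H) :
        Subgroup H))).2 (fun q => ?_)
      exact Subgroup.mem_normalizer_iff.1 n.2 q.1⟩
  left_inv _ := rfl
  right_inv _ := rfl
  map_mul' _ _ := rfl

/-- central elements normalize -/
lemma center_le_normalizer (P : Sylow p G) :
    Subgroup.center G ≤ Subgroup.normalizer (P : Set G) := by
  intro z hz
  refine (Subgroup.mem_normalizer_iff (H := (P : Subgroup G))).2 (fun q => ?_)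
  have : z * q * z⁻¹ = q := by
    rw [← Subgroup.mem_center_iff.1 hz q, mul_inv_cancel_right]
  rw [this]

end basic

section quotient

variable {p : ℕ} [Fact p.Prime] {G : Type} [Group G] [Finite G]

/-- the index of the center of a homomorphic image -/
lemma index_center_le_of_surj {X Y : Type} [Group X] [Group Y] [Finite X] (f : X →* Y)
    (hf : Function.Surjective f) (K : Subgroup X) (hK : K ≤ Subgroup.center X) :
    (Subgroup.center Y).index ≤ K.index := by
  have : Finite Y := Finite.of_surjective f hf
  have h1 : K.map f ≤ Subgroup.center Y := by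
    rintro _ ⟨k, hk, rfl⟩
    rw [Subgroup.mem_center_iff]
    intro y
    obtain ⟨x, rfl⟩ := hf y
    rw [← map_mul, ← map_mul, Subgroup.mem_center_iff.1 (hK hk)]
  have h2 : (Subgroup.center Y).index ∣ K.index :=
    (Subgroup.index_dvd_of_le h1).trans (Subgroup.index_map_dvd K hf)
  exact Nat.le_of_dvd (Nat.pos_of_ne_zero Subgroup.index_ne_zero_of_finite) h2

lemma card_quotient_lt (K : Subgroup G) (hK : K ≠ ⊥) : Nat.card (G ⧸ K) < Nat.card G := by
  have h1 := K.card_mul_index
  have h2 : Nat.card (G ⧸ K) = K.index := rfl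
  have h3 : 1 < Nat.card K := (Subgroup.one_lt_card_iff_ne_bot K).2 hK
  have h4 : 0 < K.index := Nat.pos_of_ne_zero Subgroup.index_ne_zero_of_finite
  rw [h2, ← h1]
  nlinarith

/-- Case (iv): a normal subgroup `M` with `M N_G(P) < G` -/
lemma case_frattini (ih : ∀ (X : Type) [Group X] [Finite X],
      ((Subgroup.center X).index < (Subgroup.center G).index ∨
        ((Subgroup.center X).index ≤ (Subgroup.center G).index ∧ Nat.card X < Nat.card G)) →
      McKayCongr p X)
    (M : Subgroup G) (hM : M.Normal) (hMc : ¬ M ≤ Subgroup.center G) (P : Sylow p G)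
    (hP : M ⊔ Subgroup.normalizer (P : Set G) ≠ ⊤) : McKayCongr p G := by
  set M' := M ⊔ Subgroup.center G with hM'
  have hM'n : M'.Normal := inferInstance
  have hlt : Subgroup.center G < M' := by
    refine lt_of_le_of_ne le_sup_right (fun h => hMc ?_)
    rw [h]
    exact le_sup_left
  have hidx : M'.index < (Subgroup.center G).index := Subgroup.index_strictAnti hlt
  have hH : M' ⊔ Subgroup.normalizer (P : Set G) = M ⊔ Subgroup.normalizer (P : Set G) := by
    rw [hM', sup_assoc, sup_eq_right.2 (center_le_normalizer P)]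
  apply mcKay_of_cnt P
  intro s hs
  have hPN : (P : Subgroup G) ≤ Subgroup.normalizer (P : Set G) :=
    Subgroup.le_normalizer (H := (P : Subgroup G))
  have hstep := step M' P (by
    intro θ hθ ν
    have hnor : (ν.ker.map (scStar (NP.ofNormal M') θ.rep)).Normal := by
      refine ⟨fun a ha g => ?_⟩
      have h2 : a ∈ Subgroup.center _ := by
        obtain ⟨c, _, rfl⟩ := ha
        exact scStar_central _ _ c
      have h3 : g * a * g⁻¹ = a := by
        rw [Subgroup.mem_center_iff.1 h2 g, mul_assoc, mul_inv_cancel, mul_one]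
      rw [h3]; exact ha
    refine ⟨TStar (NP.ofNormal M') θ.rep ⧸ ν.ker.map (scStar (NP.ofNormal M') θ.rep),
      inferInstance, inferInstance, QuotientGroup.mk' _, QuotientGroup.mk'_surjective _,
      QuotientGroup.ker_mk' _, ?_⟩
    apply ih
    left
    refine lt_of_le_of_lt ?_ hidx
    have h1 : (starMap M' θ.rep).ker ≤ Subgroup.center _ := by
      rw [starMap_ker]
      rintro _ ⟨c, rfl⟩
      exact scStar_central _ _ c
    have h2 := index_center_le_of_surj (QuotientGroup.mk'
      (ν.ker.map (scStar (NP.ofNormal M') θ.rep))) (QuotientGroup.mk'_surjective _) _ h1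
    refine h2.trans ?_
    rw [Subgroup.index_ker]
    exact Subgroup.card_le_card_group _) s hs
  rw [hstep]
  set H := M' ⊔ Subgroup.normalizer (P : Set G) with hHdef
  have hNH : Subgroup.normalizer (P : Set G) ≤ H := le_sup_right
  have hPH : (P : Subgroup G) ≤ H := hPN.trans hNH
  have hHlt : Nat.card H < Nat.card G := by
    refine lt_of_le_of_ne (Subgroup.card_le_card_group H) (fun he => hP ?_)
    rw [← hH]
    exact Subgroup.eq_top_of_card_eq H he
  have hHind : (Subgroup.center H).index ≤ (Subgroup.center G).index := by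
    have h1 : (Subgroup.center G).subgroupOf H ≤ Subgroup.center H := by
      intro z hz
      rw [Subgroup.mem_center_iff]
      intro x
      apply Subtype.ext
      exact Subgroup.mem_center_iff.1 (Subgroup.mem_subgroupOf.1 hz) x
    have h2 : (Subgroup.center H).index ∣ (Subgroup.center G).index :=
      (Subgroup.index_dvd_of_le h1).trans
        (Subgroup.relIndex_dvd_index_of_normal (Subgroup.center G) H)
    exact Nat.le_of_dvd (Nat.pos_of_ne_zero Subgroup.index_ne_zero_of_finite) h2
  have hMcK := ih H (Or.inr ⟨hHind, hHlt⟩)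
  rw [(mcKay_iff (P.subtype hPH)).1 hMcK s hs]
  exact cnt_congr (normSubEquiv P H hPH hNH) s

/-- Case (ii): the center is not cyclic -/
lemma case_cyclic (ih : ∀ (X : Type) [Group X] [Finite X],
      ((Subgroup.center X).index < (Subgroup.center G).index ∨
        ((Subgroup.center X).index ≤ (Subgroup.center G).index ∧ Nat.card X < Nat.card G)) →
      McKayCongr p X)
    (hc : ¬ IsCyclic (Subgroup.center G)) : McKayCongr p G := by
  obtain ⟨P⟩ : Nonempty (Sylow p G) := inferInstance
  have hζ : ∀ c : Subgroup.center G, (Subgroup.center G).subtype c ∈ Subgroup.center G :=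
    fun c => c.2
  apply abs_of_rel (C := Subgroup.center G) P (Subgroup.center G).subtype hζ
  intro s hs
  apply rel_of_abs (C := Subgroup.center G) P (Subgroup.center G).subtype hζ _ s hs
  intro ν
  have hnor : (ν.ker.map (Subgroup.center G).subtype).Normal := by
    refine ⟨fun a ha g => ?_⟩
    have h2 : a ∈ Subgroup.center G := by
      obtain ⟨c, _, rfl⟩ := ha
      exact c.2
    have h3 : g * a * g⁻¹ = a := by
      rw [Subgroup.mem_center_iff.1 h2 g, mul_assoc, mul_inv_cancel, mul_one]
    rw [h3]; exact ha
  refine ⟨G ⧸ ν.ker.map (Subgroup.center G).subtype, inferInstance, inferInstance,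
    QuotientGroup.mk' _, QuotientGroup.mk'_surjective _, QuotientGroup.ker_mk' _, ?_⟩
  apply ih
  right
  refine ⟨index_center_le_of_surj _ (QuotientGroup.mk'_surjective _) _ le_rfl, ?_⟩
  have hker : ν.ker ≠ ⊥ := by
    intro h
    apply hc
    have hinj : Function.Injective ν := (MonoidHom.ker_eq_bot_iff ν).1 h
    have hinj' : Function.Injective ((Units.coeHom ℂ).comp ν) :=
      Units.val_injective.comp hinj
    exact isCyclic_of_subgroup_isDomain ((Units.coeHom ℂ).comp ν) hinj'
  have hmap : ν.ker.map (Subgroup.center G).subtype ≠ ⊥ := by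
    intro h
    exact hker ((Subgroup.map_eq_bot_iff_of_injective _ Subtype.val_injective).1 h)
  exact card_quotient_lt _ hmap

end quotient

end Pool.Agent.Helper42.INC
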