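import Pool.Agent.Helper42.INC.Inflate

/-! Central extensions: normalizers of Sylow subgroups, and the relative form of the statement. -/

set_option linter.unusedSectionVars false

open scoped Pointwise

namespace Pool.Agent.Helper42.INC

section centralext

variable {p : ℕ} [Fact p.Prime] {X Y : Type} [Group X] [Group Y] [Finite X] [Finite Y]
  (f : X →* Y) (hf : Function.Surjective f)

lemma mem_mapSurjective {P : Sylow p X} {y : Y} : y ∈ P.mapSurjective hf ↔ ∃ q ∈ P, f q = y :=
  Iff.rfl

/-- central `p`-elements lie in every Sylow subgroup -/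
lemma central_mem_sylow (P : Sylow p X) {k : X} (hk : k ∈ Subgroup.center X) {n : ℕ}
    (hn : k ^ p ^ n = 1) : k ∈ P := by
  have h1 : (Subgroup.zpowers k).Normal := by
    refine ⟨fun a ha g => ?_⟩
    have h2 : a ∈ Subgroup.center X := (Subgroup.zpowers_le.2 hk) ha
    have h3 : g * a * g⁻¹ = a := by
      rw [Subgroup.mem_center_iff.1 h2 g, mul_assoc, mul_inv_cancel, mul_one]
    rw [h3]; exact ha
  have h2 : IsPGroup p (Subgroup.zpowers k) := by
    rintro ⟨a, i, rfl⟩
    refine ⟨n, ?_⟩
    apply Subtype.ext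
    change (k ^ i) ^ p ^ n = 1
    rw [← zpow_natCast, ← zpow_mul, mul_comm, zpow_mul, zpow_natCast, hn, one_zpow]
  have h3 : Subgroup.zpowers k ≤ P := h2.le_sylow_of_normal P
  exact h3 (Subgroup.mem_zpowers k)

include hf in
lemma normalizer_central (hc : f.ker ≤ Subgroup.center X) (P : Sylow p X) {x : X} :
    x ∈ Subgroup.normalizer (P : Set X) ↔
      f x ∈ Subgroup.normalizer ((P.mapSurjective hf : Sylow p Y) : Set Y) := by
  constructor
  · intro hx
    refine (Subgroup.mem_normalizer_iff (H := (P.mapSurjective hf : Subgroup Y))).2 (fun y => ?_)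
    constructor
    · rintro ⟨q, hq, rfl⟩
      exact ⟨x * q * x⁻¹, normalizer_conj_mem' hx hq, by simp⟩
    · rintro ⟨q, hq, hqy⟩
      refine ⟨x⁻¹ * q * x, normalizer_conj_mem hx hq, ?_⟩
      change f q = f x * y * (f x)⁻¹ at hqy
      rw [map_mul, map_mul, map_inv, hqy]
      group
  · have key : ∀ x : X, f x ∈ Subgroup.normalizer ((P.mapSurjective hf : Sylow p Y) : Set Y) →
        ∀ q ∈ P, x * q * x⁻¹ ∈ P := by
      intro x hx q hq
      have h1 : f x * f q * (f x)⁻¹ ∈ (P.mapSurjective hf : Sylow p Y) :=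
        normalizer_conj_mem' hx ⟨q, hq, rfl⟩
      obtain ⟨q', hq', he⟩ := h1
      change f q' = f x * f q * (f x)⁻¹ at he
      set k := q'⁻¹ * (x * q * x⁻¹) with hk
      have hkk : k ∈ f.ker := by
        rw [MonoidHom.mem_ker, hk, map_mul, map_inv, map_mul, map_mul, map_inv, he]
        group
      have hkc := hc hkk
      obtain ⟨n, hn⟩ := P.isPGroup' ⟨q', hq'⟩
      obtain ⟨m, hm⟩ := P.isPGroup' ⟨q, hq⟩
      have hn' : q' ^ p ^ (n + m) = 1 := by
        have := congrArg Subtype.val hn
        change q' ^ p ^ n = 1 at this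
        rw [pow_add, pow_mul, this, one_pow]
      have hm' : (x * q * x⁻¹) ^ p ^ (n + m) = 1 := by
        have := congrArg Subtype.val hm
        change q ^ p ^ m = 1 at this
        rw [conj_pow, pow_add, mul_comm (p ^ n), pow_mul, this, one_pow, mul_one, mul_inv_cancel]
      have hkp : k ^ p ^ (n + m) = 1 := by
        have hcomm : Commute q' k := (Subgroup.mem_center_iff.1 hkc q')
        have h2 : x * q * x⁻¹ = q' * k := by rw [hk, mul_inv_cancel_left]
        rw [h2, hcomm.mul_pow, hn', one_mul] at hm'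
        exact hm'
      have hkP := central_mem_sylow P hkc hkp
      have h2 : x * q * x⁻¹ = q' * k := by rw [hk, mul_inv_cancel_left]
      rw [h2]
      exact (P : Subgroup X).mul_mem hq' hkP
    intro hx
    refine (Subgroup.mem_normalizer_iff (H := (P : Subgroup X))).2 (fun q => ⟨key x hx q, ?_⟩)
    intro hq
    have hx' : f x⁻¹ ∈ Subgroup.normalizer ((P.mapSurjective hf : Sylow p Y) : Set Y) := by
      rw [map_inv]; exact Subgroup.inv_mem _ hx
    have h3 := key x⁻¹ hx' _ hq
    have e : x⁻¹ * (x * q * x⁻¹) * x⁻¹⁻¹ = q := by group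
    rwa [e] at h3

/-- the induced map on normalizers -/
noncomputable def normMap (hc : f.ker ≤ Subgroup.center X) (P : Sylow p X) :
    Subgroup.normalizer (P : Set X) →*
      Subgroup.normalizer ((P.mapSurjective hf : Sylow p Y) : Set Y) :=
  (f.comp (Subgroup.normalizer (P : Set X)).subtype).codRestrict _
    (fun x => (normalizer_central f hf hc P).1 x.2)

lemma normMap_surjective (hc : f.ker ≤ Subgroup.center X) (P : Sylow p X) :
    Function.Surjective (normMap f hf hc P) := by
  rintro ⟨y, hy⟩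
  obtain ⟨x, rfl⟩ := hf y
  exact ⟨⟨x, (normalizer_central f hf hc P).2 hy⟩, rfl⟩

lemma mem_ker_normMap (hc : f.ker ≤ Subgroup.center X) (P : Sylow p X)
    (x : Subgroup.normalizer (P : Set X)) :
    x ∈ (normMap f hf hc P).ker ↔ (x : X) ∈ f.ker := by
  rw [MonoidHom.mem_ker, MonoidHom.mem_ker]
  exact ⟨fun h => congrArg Subtype.val h, fun h => Subtype.ext h⟩

end centralext

section rel

variable {p : ℕ} [Fact p.Prime] {X : Type} [Group X] [Finite X] {C : Type} [CommGroup C] [Finite C]

/-- a central homomorphism lands in the normalizer -/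
def toNorm (ζ : C →* X) (hζ : ∀ c, ζ c ∈ Subgroup.center X) (P : Sylow p X) :
    C →* Subgroup.normalizer (P : Set X) :=
  ζ.codRestrict _ (fun c => by
    refine (Subgroup.mem_normalizer_iff (H := (P : Subgroup X))).2 (fun q => ?_)
    have : ζ c * q * (ζ c)⁻¹ = q := by
      rw [← Subgroup.mem_center_iff.1 (hζ c) q, mul_inv_cancel_right]
    rw [this])

lemma toNorm_central (ζ : C →* X) (hζ : ∀ c, ζ c ∈ Subgroup.center X) (P : Sylow p X) (c : C) :
    toNorm ζ hζ P c ∈ Subgroup.center (Subgroup.normalizer (P : Set X)) := by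
  rw [Subgroup.mem_center_iff]
  intro x
  apply Subtype.ext
  exact Subgroup.mem_center_iff.1 (hζ c) x

/-- equivalence between characters trivial on the kernel of `ν` and powers of `ν` -/
noncomputable def kerPow (ν : C →* ℂˣ) :
    {ν' : C →* ℂˣ // ν.ker ≤ ν'.ker} ≃ Subgroup.zpowers ν :=
  Equiv.subtypeEquivRight (fun ν' => le_ker_iff ν ν')

/-- the relative statement follows from the absolute one for central quotients -/
theorem rel_of_abs (P : Sylow p X) (ζ : C →* X) (hζ : ∀ c, ζ c ∈ Subgroup.center X)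
    (h : ∀ ν : C →* ℂˣ, ∃ (Y : Type) (_ : Group Y) (_ : Finite Y) (f : X →* Y),
      Function.Surjective f ∧ f.ker = ν.ker.map ζ ∧ McKayCongr p Y)
    (s : ZMod p) (hs : s ≠ 0) (ν : C →* ℂˣ) :
    cntR p ζ ν s = cntR p (toNorm ζ hζ P) ν s := by
  classical
  have hv := vanish (Γ := (C →* ℂˣ))
    (fun ν => (cntR p ζ ν s : ℤ) - (cntR p (toNorm ζ hζ P) ν s : ℤ)) (by
      intro ν k hk
      rw [cntR_pow p ζ ν k hk, cntR_pow p (toNorm ζ hζ P) ν k hk]) (by
      intro ν
      have := Fintype.ofFinite (Subgroup.zpowers ν)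
      have := Fintype.ofFinite {ν' : C →* ℂˣ // ν.ker ≤ ν'.ker}
      rw [finsum_eq_sum_of_fintype]
      rw [← Equiv.sum_comp (kerPow ν)]
      have e : ∀ ν' : {ν' : C →* ℂˣ // ν.ker ≤ ν'.ker}, ((kerPow ν ν' : Subgroup.zpowers ν) :
        C →* ℂˣ) = ν'.1 := fun ν' => rfl
      simp only [e]
      rw [Finset.sum_sub_distrib]
      have e1 := cnt_eq_sum_of p ζ hζ s ν.ker
      have e2 := cnt_eq_sum_of p (toNorm ζ hζ P) (toNorm_central ζ hζ P) s ν.ker
      rw [← Nat.cast_sum, ← Nat.cast_sum, ← e1, ← e2]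
      obtain ⟨Y, _, _, f, hf, hker, hY⟩ := h ν
      have hc : f.ker ≤ Subgroup.center X := by
        rw [hker]
        rintro _ ⟨c, _, rfl⟩
        exact hζ c
      have e3 : Nat.card {χ : Irr X // (∀ c ∈ ν.ker, ∀ x, χ.1 (ζ c * x) = χ.1 x) ∧
          (deg χ.1 : ZMod p) ^ 2 = s} = cnt p Y s := by
        rw [cnt_infl f hf]
        apply Nat.card_congr
        apply Equiv.subtypeEquivRight
        intro χ
        rw [hker]
        constructor
        · rintro ⟨h1, h2⟩
          refine ⟨?_, h2⟩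
          rintro _ ⟨c, hc', rfl⟩ x
          exact h1 c hc' x
        · rintro ⟨h1, h2⟩
          exact ⟨fun c hc' x => h1 _ ⟨c, hc', rfl⟩ x, h2⟩
      have e4 : Nat.card {χ : Irr (Subgroup.normalizer (P : Set X)) //
          (∀ c ∈ ν.ker, ∀ x, χ.1 (toNorm ζ hζ P c * x) = χ.1 x) ∧
          (deg χ.1 : ZMod p) ^ 2 = s} =
          cnt p (Subgroup.normalizer ((P.mapSurjective hf : Sylow p Y) : Set Y)) s := by
        rw [cnt_infl (normMap f hf hc P) (normMap_surjective f hf hc P)]
        apply Nat.card_congr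
        apply Equiv.subtypeEquivRight
        intro χ
        constructor
        · rintro ⟨h1, h2⟩
          refine ⟨?_, h2⟩
          intro k hk x
          rw [mem_ker_normMap, hker] at hk
          obtain ⟨c, hc', hck⟩ := hk
          have : k = toNorm ζ hζ P c := Subtype.ext hck.symm
          rw [this]
          exact h1 c hc' x
        · rintro ⟨h1, h2⟩
          refine ⟨fun c hc' x => h1 _ ?_ x, h2⟩
          rw [mem_ker_normMap, hker]
          exact ⟨c, hc', rfl⟩
      rw [e3, e4, (mcKay_iff _).1 hY s hs, sub_self])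
  have := hv ν
  omega

/-- summing the relative statement over all central characters -/
theorem abs_of_rel (P : Sylow p X) (ζ : C →* X) (hζ : ∀ c, ζ c ∈ Subgroup.center X)
    (h : ∀ s : ZMod p, s ≠ 0 → ∀ ν : C →* ℂˣ, cntR p ζ ν s = cntR p (toNorm ζ hζ P) ν s) :
    McKayCongr p X := by
  rw [mcKay_iff P]
  intro s hs
  have := Fintype.ofFinite {ν : C →* ℂˣ // (⊥ : Subgroup C) ≤ ν.ker}
  have e1 := cnt_eq_sum_of p ζ hζ s ⊥
  have e2 := cnt_eq_sum_of p (toNorm ζ hζ P) (toNorm_central ζ hζ P) s ⊥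
  have e3 : ∀ (W : Type) [Group W] [Finite W] (ξ : C →* W), cnt p W s =
      Nat.card {χ : Irr W // (∀ c ∈ (⊥ : Subgroup C), ∀ x, χ.1 (ξ c * x) = χ.1 x) ∧
        (deg χ.1 : ZMod p) ^ 2 = s} := by
    intro W _ _ ξ
    unfold cnt
    apply Nat.card_congr
    apply Equiv.subtypeEquivRight
    intro χ
    constructor
    · intro hd
      refine ⟨?_, hd⟩
      intro c hc x
      rw [Subgroup.mem_bot] at hc
      rw [hc, map_one, one_mul]
    · exact fun h => h.2
  rw [e3 X ζ, e3 _ (toNorm ζ hζ P), e1, e2]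
  apply Finset.sum_congr rfl
  intro ν _
  exact h s hs ν.1

end rel

end Pool.Agent.Helper42.INC
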