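import Pool.Agent.Helper42.INC.NormSemi

/-! Restriction of `Q`-invariant linear characters from `A` to `A'`. -/

set_option linter.unusedSectionVars false

open MulAction
open scoped Pointwise

namespace Pool.Agent.Helper42.INC

variable {A H : Type} [CommGroup A] [Group H] [Finite A] [Finite H] (φ : H →* MulAut A)
  {p : ℕ} [Fact p.Prime] (S : Sylow p A) (Q : Sylow p H)

lemma qfix_hom {φ : H →* MulAut A} {Q : Sylow p H} {l : CharX φ} (h : QFix Q l) {q : H}
    (hq : q ∈ Q) (a : A) : l.hom (φ q a) = l.hom a := by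
  have h1 := CharX.mem_stab.1 (mem_stabilizer_iff.2 (h q hq)) a
  exact Units.ext h1

lemma qfix_of_hom {φ : H →* MulAut A} {Q : Sylow p H} {l : CharX φ}
    (h : ∀ q ∈ Q, ∀ a, l.hom (φ q a) = l.hom a) : QFix Q l := by
  intro q hq
  rw [← mem_stabilizer_iff, CharX.mem_stab]
  intro a
  exact congrArg Units.val (h q hq a)

lemma Q_le_N : (Q : Subgroup H) ≤ Subgroup.normalizer (Q : Set H) :=
  Subgroup.le_normalizer

/-- `Q` as a Sylow subgroup of its normalizer -/
noncomputable def QN : Sylow p (Subgroup.normalizer (Q : Set H)) := Q.subtype (Q_le_N Q)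

/-- restriction -/
def resX (l : CharX φ) : CharX (phiN φ S Q) := ⟨l.hom.comp (Apr φ S Q).subtype⟩

lemma resX_smul (n : Subgroup.normalizer (Q : Set H)) (l : CharX φ) :
    resX φ S Q ((n : H) • l) = n • resX φ S Q l := by
  apply CharX.ext
  intro a
  rfl

lemma resX_qfix {l : CharX φ} (h : QFix Q l) : QFix (QN Q) (resX φ S Q l) := by
  intro q hq
  rw [← resX_smul, h q.1 hq]

/-- the norm map -/
noncomputable def nrm : A →* A where
  toFun a := ∏ᶠ q : (Q : Subgroup H), φ (q : H) a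
  map_one' := by simp
  map_mul' a b := by
    have := Fintype.ofFinite (Q : Subgroup H)
    rw [finprod_eq_prod_of_fintype, finprod_eq_prod_of_fintype, finprod_eq_prod_of_fintype,
      ← Finset.prod_mul_distrib]
    simp

lemma nrm_eq [Fintype (Q : Subgroup H)] (a : A) : nrm φ Q a = ∏ q : (Q : Subgroup H), φ (q : H) a := by
  change ∏ᶠ q : (Q : Subgroup H), φ (q : H) a = _
  rw [finprod_eq_prod_of_fintype]

lemma nrm_fixed {q : H} (hq : q ∈ Q) (a : A) : φ q (nrm φ Q a) = nrm φ Q a := by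
  have := Fintype.ofFinite (Q : Subgroup H)
  rw [nrm_eq, map_prod]
  rw [← Equiv.prod_comp (Equiv.mulLeft (⟨q, hq⟩ : (Q : Subgroup H))) (fun x : (Q : Subgroup H) => φ (x : H) a)]
  apply Finset.prod_congr rfl
  intro x _
  rw [← MulAut.mul_apply, ← map_mul]
  rfl

lemma nrm_smul {q : H} (hq : q ∈ Q) (a : A) : nrm φ Q (φ q a) = nrm φ Q a := by
  have := Fintype.ofFinite (Q : Subgroup H)
  rw [nrm_eq, nrm_eq]
  rw [← Equiv.prod_comp (Equiv.mulRight (⟨q, hq⟩ : (Q : Subgroup H))) (fun x : (Q : Subgroup H) => φ (x : H) a)]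
  apply Finset.prod_congr rfl
  intro x _
  rw [← MulAut.mul_apply, ← map_mul]
  rfl

lemma nrm_mem (a : A) : nrm φ Q a ∈ Apr φ S Q := by
  intro q hq
  rw [nrm_fixed φ Q hq]
  simpa using (S : Subgroup A).one_mem

lemma pow_mem (a : A) : a ^ (S : Subgroup A).index ∈ Apr φ S Q :=
  S_le_Apr φ S Q (Subgroup.pow_index_mem (S : Subgroup A) a)

lemma coprime_card : Nat.Coprime (Nat.card Q) (S : Subgroup A).index := by
  obtain ⟨n, hn⟩ := IsPGroup.iff_card.1 Q.isPGroup'
  rw [hn]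
  apply Nat.Coprime.pow_left
  rw [Nat.Prime.coprime_iff_not_dvd Fact.out]
  exact S.not_dvd_index

lemma hom_nrm {l : CharX φ} (h : QFix Q l) (a : A) : l.hom (nrm φ Q a) = l.hom a ^ Nat.card Q := by
  have := Fintype.ofFinite (Q : Subgroup H)
  rw [nrm_eq, map_prod, Finset.prod_congr rfl (fun (q : (Q : Subgroup H)) _ => qfix_hom h q.2 a)]
  simp

lemma resX_injective {l l' : CharX φ} (h : QFix Q l) (h' : QFix Q l')
    (he : resX φ S Q l = resX φ S Q l') : l = l' := by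
  have hval : ∀ a ∈ Apr φ S Q, l.hom a = l'.hom a := by
    intro a ha
    have h1 : (resX φ S Q l).hom ⟨a, ha⟩ = (resX φ S Q l').hom ⟨a, ha⟩ := by rw [he]
    exact h1
  apply CharX.ext
  intro a
  suffices hs : l.hom a = l'.hom a from congrArg Units.val hs
  have h1 := hval _ (nrm_mem φ S Q a)
  have h2 := hval _ (pow_mem φ S Q a)
  rw [hom_nrm φ Q h, hom_nrm φ Q h'] at h1
  rw [map_pow, map_pow] at h2
  have h3 : (l.hom a / l'.hom a) ^ Nat.card Q = 1 := by rw [div_pow, h1, div_self']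
  have h4 : (l.hom a / l'.hom a) ^ (S : Subgroup A).index = 1 := by rw [div_pow, h2, div_self']
  have h5 : (l.hom a / l'.hom a) ^ Nat.gcd (Nat.card Q) (S : Subgroup A).index = 1 :=
    pow_gcd_eq_one.2 ⟨h3, h4⟩
  rw [(coprime_card S Q).gcd_eq_one, pow_one] at h5
  exact div_eq_one.1 h5

lemma resX_surjective {m : CharX (phiN φ S Q)} (hm : QFix (QN Q) m) :
    ∃ l : CharX φ, QFix Q l ∧ resX φ S Q l = m := by
  set f₁ : A →* ℂˣ :=
    { toFun := fun a => m.hom ⟨nrm φ Q a, nrm_mem φ S Q a⟩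
      map_one' := by
        have : (⟨nrm φ Q 1, nrm_mem φ S Q 1⟩ : Apr φ S Q) = 1 := Subtype.ext (by simp)
        rw [this, map_one]
      map_mul' := fun a b => by
        rw [← map_mul]; congr 1; apply Subtype.ext; simp } with hf₁
  set k := (S : Subgroup A).index with hk
  set f₂ : A →* ℂˣ :=
    { toFun := fun a => m.hom ⟨a ^ k, pow_mem φ S Q a⟩
      map_one' := by
        have : (⟨1 ^ k, pow_mem φ S Q 1⟩ : Apr φ S Q) = 1 := Subtype.ext (by simp)
        rw [this, map_one]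
      map_mul' := fun a b => by
        rw [← map_mul]; congr 1; apply Subtype.ext; simp [mul_pow] } with hf₂
  have hmq : ∀ q (hq : q ∈ Q) (a : Apr φ S Q), m.hom (phiN φ S Q ⟨q, Q_le_N Q hq⟩ a) = m.hom a :=
    fun q hq a => qfix_hom hm (q := ⟨q, Q_le_N Q hq⟩) hq a
  have hf₁q : ∀ q ∈ Q, ∀ a, f₁ (φ q a) = f₁ a := by
    intro q hq a
    change m.hom ⟨nrm φ Q (φ q a), _⟩ = m.hom ⟨nrm φ Q a, _⟩
    congr 1
    apply Subtype.ext
    exact nrm_smul φ Q hq a
  have hf₂q : ∀ q ∈ Q, ∀ a, f₂ (φ q a) = f₂ a := by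
    intro q hq a
    change m.hom ⟨(φ q a) ^ k, _⟩ = m.hom ⟨a ^ k, _⟩
    rw [← hmq q hq ⟨a ^ k, _⟩]
    congr 1
    apply Subtype.ext
    rw [phiN_apply]
    exact (map_pow (φ q) a k).symm
  have hf₁r : ∀ a : Apr φ S Q, f₁ a = m.hom a ^ (Nat.card Q) := by
    intro a
    have := Fintype.ofFinite (Q : Subgroup H)
    have h1 : (⟨nrm φ Q a, nrm_mem φ S Q a⟩ : Apr φ S Q) =
        ∏ q : (Q : Subgroup H), phiN φ S Q ⟨q.1, Q_le_N Q q.2⟩ a := by
      apply Subtype.ext
      rw [Subgroup.val_finsetProd]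
      exact nrm_eq φ Q a
    change m.hom ⟨nrm φ Q a, _⟩ = _
    rw [h1, map_prod, Finset.prod_congr rfl (fun (q : (Q : Subgroup H)) _ => hmq q.1 q.2 a)]
    simp
  have hf₂r : ∀ a : Apr φ S Q, f₂ a = m.hom a ^ k := by
    intro a
    change m.hom ⟨(a : A) ^ k, _⟩ = _
    rw [← map_pow]
    rfl
  have hbez := Nat.gcd_eq_gcd_ab (Nat.card Q) k
  rw [(coprime_card S Q).gcd_eq_one] at hbez
  set u := Nat.gcdA (Nat.card Q) k
  set v := Nat.gcdB (Nat.card Q) k
  refine ⟨⟨f₁ ^ u * f₂ ^ v⟩, ?_, ?_⟩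
  · apply qfix_of_hom
    intro q hq a
    simp only [MonoidHom.mul_apply, MonoidHom.zpow_apply]
    rw [hf₁q q hq, hf₂q q hq]
  · apply CharX.ext
    intro a
    suffices hs : (f₁ ^ u * f₂ ^ v) (a : A) = m.hom a from congrArg Units.val hs
    simp only [MonoidHom.mul_apply, MonoidHom.zpow_apply]
    rw [hf₁r, hf₂r, ← zpow_natCast, ← zpow_natCast, ← zpow_mul, ← zpow_mul, ← zpow_add]
    rw [← hbez]
    simp

end Pool.Agent.Helper42.INC
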