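import Pool.Agent.Helper42.INC.Clifford2
import Pool.Agent.Helper42.INC.Orb

/-! The quotient `T* = Gam / M` and the comparison with the subgroup `M N_G(P)`. -/

set_option linter.unusedSectionVars false

open MulAction
open scoped Pointwise

namespace Pool.Agent.Helper42.INC

section star

variable {M G : Type} [Group M] [Group G] [Finite M] [Finite G] (D : NP M G)
  {V : Type} [AddCommGroup V] [Module ℂ V] [FiniteDimensional ℂ V] (ρ : Representation ℂ M V)
  [hρ : ρ.IsIrreducible]

instance gamInc_normal : (gamInc D ρ).range.Normal := by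
  refine ⟨?_⟩
  rintro _ ⟨m, rfl⟩ γ
  rw [gam_conj]
  exact ⟨_, rfl⟩

/-- `T*` -/
abbrev TStar : Type := Gam D ρ ⧸ (gamInc D ρ).range

/-- the projection onto `T*` -/
noncomputable abbrev toStar : Gam D ρ →* TStar D ρ := QuotientGroup.mk' _

/-- scalars in `T*` -/
noncomputable def scStar : Sc M V →* TStar D ρ := (toStar D ρ).comp (gamSc D ρ)

/-- the inverse scalar character -/
def invSc : Sc M V →* ℂˣ where
  toFun c := (c.1)⁻¹
  map_one' := by simp
  map_mul' a b := by simp [mul_comm]

lemma scStar_central (c : Sc M V) : scStar D ρ c ∈ Subgroup.center (TStar D ρ) := by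
  rw [Subgroup.mem_center_iff]
  intro x
  obtain ⟨γ, rfl⟩ := QuotientGroup.mk'_surjective _ x
  change toStar D ρ γ * toStar D ρ (gamSc D ρ c) = toStar D ρ (gamSc D ρ c) * toStar D ρ γ
  rw [← map_mul, ← map_mul, Subgroup.mem_center_iff.1 (gamSc_central D ρ c)]

/-- the fiber as a relative count on `T*` -/
lemma card_fib_star {p : ℕ} (i : ℕ) (s : ZMod p) [Fact p.Prime] (hi : (i : ZMod p) ≠ 0) :
    Nat.card {ψ : Irr (Gam D ρ) // InvM D ρ ψ.1 ∧ ScInv D ρ ψ.1 ∧
      ((i * deg ψ.1 : ℕ) : ZMod p) ^ 2 = s} =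
    cntR p (scStar D ρ) (invSc (M := M) (V := V)) (s * ((i : ZMod p) ^ 2)⁻¹) := by
  classical
  unfold cntR
  have hsurj : Function.Surjective (toStar D ρ) := QuotientGroup.mk'_surjective _
  have h0 : (i : ZMod p) ^ 2 ≠ 0 := pow_ne_zero 2 hi
  have e1 : {ψ : Irr (Gam D ρ) // InvM D ρ ψ.1 ∧ ScInv D ρ ψ.1 ∧
      ((i * deg ψ.1 : ℕ) : ZMod p) ^ 2 = s} ≃
      {ψ : {χ : Irr (Gam D ρ) // ∀ k ∈ (toStar D ρ).ker, ∀ x, χ.1 (k * x) = χ.1 x} //
        ScInv D ρ ψ.1.1 ∧ ((i * deg ψ.1.1 : ℕ) : ZMod p) ^ 2 = s} := by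
    refine ((Equiv.subtypeSubtypeEquivSubtypeInter
      (fun ψ : Irr (Gam D ρ) => ∀ k ∈ (toStar D ρ).ker, ∀ x, ψ.1 (k * x) = ψ.1 x)
      (fun ψ : Irr (Gam D ρ) => ScInv D ρ ψ.1 ∧ ((i * deg ψ.1 : ℕ) : ZMod p) ^ 2 = s)).trans
      (Equiv.subtypeEquivRight (fun ψ => ?_))).symm
    rw [QuotientGroup.ker_mk']
    constructor
    · rintro ⟨h1, h2, h3⟩
      exact ⟨fun m γ => h1 _ ⟨m, rfl⟩ γ, h2, h3⟩
    · rintro ⟨h1, h2, h3⟩
      refine ⟨?_, h2, h3⟩
      rintro _ ⟨m, rfl⟩ γ
      exact h1 m γ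
  rw [Nat.card_congr e1]
  symm
  apply Nat.card_congr
  refine (inflEquiv (toStar D ρ) hsurj).subtypeEquiv ?_
  intro η
  have hd : deg ((inflEquiv (toStar D ρ) hsurj) η).1.1 = deg η.1 := by
    change deg (fun x => η.1 (toStar D ρ x)) = _
    unfold deg
    simp only [map_one]
  have hsc : Over (scStar D ρ) (invSc (M := M) (V := V)) η.1 ↔
      ScInv D ρ ((inflEquiv (toStar D ρ) hsurj) η).1.1 := by
    have hval : ∀ x, ((inflEquiv (toStar D ρ) hsurj) η).1.1 x = η.1 (toStar D ρ x) := fun x => rfl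
    constructor
    · intro h c γ
      rw [hval, hval, map_mul]
      have h2 := h c (toStar D ρ γ)
      have e4 : ((invSc c : ℂˣ) : ℂ) = (c.1 : ℂ)⁻¹ := by
        change (((c.1)⁻¹ : ℂˣ) : ℂ) = _
        rw [Units.val_inv_eq_inv_val]
      rw [e4] at h2
      exact h2
    · intro h c x
      obtain ⟨γ, rfl⟩ := hsurj x
      have h2 := h c γ
      rw [hval, hval, map_mul] at h2
      have e4 : ((invSc c : ℂˣ) : ℂ) = (c.1 : ℂ)⁻¹ := by
        change (((c.1)⁻¹ : ℂˣ) : ℂ) = _
        rw [Units.val_inv_eq_inv_val]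
      rw [e4]
      exact h2
  rw [hd, ← hsc]
  apply and_congr_right
  intro _
  rw [eq_mul_inv_iff_mul_eq₀ h0]
  push_cast
  rw [mul_pow, mul_comm]

/-- transport of relative counts -/
lemma cntR_congr {p : ℕ} {X X' C : Type} [Group X] [Group X'] [CommGroup C]
    (e : X ≃* X') (ζ : C →* X) (ζ' : C →* X') (h : ∀ c, e (ζ c) = ζ' c) (ν : C →* ℂˣ)
    (s : ZMod p) : cntR p ζ ν s = cntR p ζ' ν s := by
  unfold cntR
  apply Nat.card_congr
  refine ((irrEquiv e).subtypeEquiv ?_).symm
  intro χ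
  have hd : deg (irrEquiv e χ).1 = deg χ.1 := by simp [deg, irrEquiv]
  have hval : ∀ x, (irrEquiv e χ).1 x = χ.1 (e x) := fun x => rfl
  rw [hd]
  apply and_congr_left
  intro _
  constructor
  · intro h1 c x
    rw [hval, hval, map_mul, h]
    exact h1 c (e x)
  · intro h1 c x
    have h2 := h1 c (e.symm x)
    rw [hval, hval, map_mul, h, MulEquiv.apply_symm_apply] at h2
    exact h2

end star

section subgroup

variable {G : Type} [Group G] [Finite G] (M : Subgroup G) [hM : M.Normal]

/-- a normal subgroup as a normal pair -/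
def NP.ofNormal : NP M G where
  ι := M.subtype
  inj := Subtype.val_injective
  α := MulAut.conjNormal
  compat g m := by simp

/-- the same normal subgroup in an intermediate subgroup -/
def NP.ofLe (H : Subgroup G) (h : M ≤ H) : NP M H where
  ι := Subgroup.inclusion h
  inj := Subgroup.inclusion_injective h
  α := MulAut.conjNormal.comp H.subtype
  compat g m := by
    apply Subtype.ext
    simp

variable {p : ℕ} [Fact p.Prime] (P : Sylow p G)

/-- Frattini argument: the normalizer of `PM/M` is `M N_G(P) / M` -/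
lemma frattini (g : G) :
    (QuotientGroup.mk' M g ∈ Subgroup.normalizer
      ((P.mapSurjective (QuotientGroup.mk'_surjective M) : Sylow p (G ⧸ M)) : Set (G ⧸ M))) ↔
      g ∈ M ⊔ Subgroup.normalizer (P : Set G) := by
  set f := QuotientGroup.mk' M with hf
  have hfs := QuotientGroup.mk'_surjective M
  constructor
  · intro hg
    set E : Subgroup G := (P.mapSurjective hfs : Subgroup (G ⧸ M)).comap f with hE
    have h1 : (P : Subgroup G) ≤ E := by
      intro q hq
      exact ⟨q, hq, rfl⟩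
    have h2 : ((g • P : Sylow p G) : Subgroup G) ≤ E := by
      intro y hy
      rw [Sylow.smul_def, Sylow.pointwise_smul_def] at hy
      rw [Subgroup.mem_smul_pointwise_iff_exists] at hy
      obtain ⟨q, hq, rfl⟩ := hy
      change f (g * q * g⁻¹) ∈ (P.mapSurjective hfs : Sylow p (G ⧸ M))
      rw [map_mul, map_mul, map_inv]
      exact normalizer_conj_mem' hg ⟨q, hq, rfl⟩
    obtain ⟨y, hy⟩ := MulAction.exists_smul_eq E ((g • P).subtype h2) (P.subtype h1)
    rw [Sylow.smul_subtype] at hy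
    have h4 : (y : G) • g • P = P := Sylow.subtype_injective hy
    have h5 : (y : G) * g ∈ Subgroup.normalizer (P : Set G) := by
      rw [← Sylow.smul_eq_iff_mem_normalizer, mul_smul]; exact h4
    have h6 : (y : G) ∈ M ⊔ Subgroup.normalizer (P : Set G) := by
      obtain ⟨q, hq, hqy⟩ := y.2
      have h7 : (y : G) * q⁻¹ ∈ M := by
        rw [← QuotientGroup.ker_mk' M, MonoidHom.mem_ker, map_mul, map_inv, ← hf, ← hqy]
        exact mul_inv_cancel _
      have h8 : (y : G) = ((y : G) * q⁻¹) * q := by group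
      rw [h8]
      exact Subgroup.mul_mem _ (Subgroup.mem_sup_left h7)
        (Subgroup.mem_sup_right (Subgroup.le_normalizer (H := (P : Subgroup G)) hq))
    have h9 : g = (y : G)⁻¹ * ((y : G) * g) := by group
    rw [h9]
    exact Subgroup.mul_mem _ (Subgroup.inv_mem _ h6) (Subgroup.mem_sup_right h5)
  · intro hg
    have hle : M ⊔ Subgroup.normalizer (P : Set G) ≤ (Subgroup.normalizer
        ((P.mapSurjective hfs : Sylow p (G ⧸ M)) : Set (G ⧸ M))).comap f := by
      rw [sup_le_iff]
      constructor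
      · intro m hm
        rw [Subgroup.mem_comap]
        have : f m = 1 := (QuotientGroup.eq_one_iff m).2 hm
        rw [this]
        exact Subgroup.one_mem _
      · intro n hn
        rw [Subgroup.mem_comap]
        refine (Subgroup.mem_normalizer_iff (H := (P.mapSurjective hfs : Subgroup (G ⧸ M)))).2
          (fun y => ?_)
        constructor
        · rintro ⟨q, hq, rfl⟩
          refine ⟨n * q * n⁻¹, normalizer_conj_mem' hn hq, ?_⟩
          change f (n * q * n⁻¹) = f n * f q * (f n)⁻¹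
          rw [map_mul, map_mul, map_inv]
        · rintro ⟨q, hq, hqy⟩
          refine ⟨n⁻¹ * q * n, normalizer_conj_mem hn hq, ?_⟩
          change f q = f n * y * (f n)⁻¹ at hqy
          change f (n⁻¹ * q * n) = y
          rw [map_mul, map_mul, map_inv, hqy]
          group
    exact hle hg

end subgroup

end Pool.Agent.Helper42.INC
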