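import Pool.Agent.Helper42.INC.Star

/-! Comparison of `G` and `M N_G(P)`. -/

set_option linter.unusedSectionVars false

open MulAction
open scoped Pointwise

namespace Pool.Agent.Helper42.INC

section tostar

variable {G : Type} [Group G] [Finite G] (M : Subgroup G) [hM : M.Normal]
  {V : Type} [AddCommGroup V] [Module ℂ V] [FiniteDimensional ℂ V] (ρ : Representation ℂ M V)
  [hρ : ρ.IsIrreducible]

/-- the map `T* → G / M` -/
noncomputable def starMap : TStar (NP.ofNormal M) ρ →* G ⧸ M :=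
  QuotientGroup.map _ M (gamProj (NP.ofNormal M) ρ) (by
    rintro _ ⟨m, rfl⟩
    rw [Subgroup.mem_comap, gamProj_inc]
    exact m.2)

lemma starMap_mk (γ : Gam (NP.ofNormal M) ρ) :
    starMap M ρ (toStar _ ρ γ) = QuotientGroup.mk' M (gamProj (NP.ofNormal M) ρ γ) := rfl

lemma starMap_ker : (starMap M ρ).ker = (scStar (NP.ofNormal M) ρ).range := by
  ext x
  obtain ⟨γ, rfl⟩ := QuotientGroup.mk'_surjective _ x
  constructor
  · intro h
    have h1 : QuotientGroup.mk' M (gamProj (NP.ofNormal M) ρ γ) = 1 := h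
    have h2 : gamProj (NP.ofNormal M) ρ γ ∈ M := (QuotientGroup.eq_one_iff _).1 h1
    set m : M := ⟨_, h2⟩ with hm
    have h3 : gamProj (NP.ofNormal M) ρ (γ * (gamInc (NP.ofNormal M) ρ m)⁻¹) = 1 := by
      rw [map_mul, map_inv, gamProj_inc]
      exact mul_inv_cancel _
    obtain ⟨c, hc⟩ := gam_ker _ ρ h3
    refine ⟨c, ?_⟩
    change toStar _ ρ (gamSc _ ρ c) = toStar _ ρ γ
    rw [← hc, map_mul, map_inv]
    have h4 : toStar (NP.ofNormal M) ρ (gamInc (NP.ofNormal M) ρ m) = 1 :=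
      (QuotientGroup.eq_one_iff _).2 ⟨m, rfl⟩
    rw [h4, inv_one, mul_one]
  · rintro ⟨c, hc⟩
    rw [MonoidHom.mem_ker, ← hc]
    change QuotientGroup.mk' M (gamProj (NP.ofNormal M) ρ (gamSc _ ρ c)) = 1
    rw [gamProj_sc, map_one]

/-- the comparison of the groups of pairs -/
noncomputable def gamUp (H : Subgroup G) (h : M ≤ H) :
    Gam (NP.ofLe M H h) ρ →* Gam (NP.ofNormal M) ρ where
  toFun γ := ⟨((γ.1.1 : G), γ.1.2), γ.2⟩
  map_one' := rfl
  map_mul' _ _ := rfl

lemma gamUp_proj (H : Subgroup G) (h : M ≤ H) (γ : Gam (NP.ofLe M H h) ρ) :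
    gamProj (NP.ofNormal M) ρ (gamUp M ρ H h γ) = (gamProj (NP.ofLe M H h) ρ γ : G) := rfl

lemma gamUp_inc (H : Subgroup G) (h : M ≤ H) (m : M) :
    gamUp M ρ H h (gamInc (NP.ofLe M H h) ρ m) = gamInc (NP.ofNormal M) ρ m := rfl

lemma gamUp_sc (H : Subgroup G) (h : M ≤ H) (c : Sc M V) :
    gamUp M ρ H h (gamSc (NP.ofLe M H h) ρ c) = gamSc (NP.ofNormal M) ρ c := rfl

lemma gamUp_injective (H : Subgroup G) (h : M ≤ H) : Function.Injective (gamUp M ρ H h) := by
  intro a b hab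
  apply Subtype.ext
  apply Prod.ext
  · apply Subtype.ext
    exact congrArg (fun t => t.1.1) hab
  · exact congrArg (fun t => t.1.2) hab

lemma mem_range_gamUp (H : Subgroup G) (h : M ≤ H) (γ : Gam (NP.ofNormal M) ρ) :
    γ ∈ (gamUp M ρ H h).range ↔ gamProj (NP.ofNormal M) ρ γ ∈ H := by
  constructor
  · rintro ⟨γ', rfl⟩
    rw [gamUp_proj]
    exact (gamProj (NP.ofLe M H h) ρ γ').2
  · intro hγ
    exact ⟨⟨(⟨_, hγ⟩, γ.1.2), γ.2⟩, rfl⟩

/-- the comparison of the quotients -/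
noncomputable def starUp (H : Subgroup G) (h : M ≤ H) :
    TStar (NP.ofLe M H h) ρ →* TStar (NP.ofNormal M) ρ :=
  QuotientGroup.map _ _ (gamUp M ρ H h) (by
    rintro _ ⟨m, rfl⟩
    rw [Subgroup.mem_comap, gamUp_inc]
    exact ⟨m, rfl⟩)

lemma starUp_mk (H : Subgroup G) (h : M ≤ H) (γ : Gam (NP.ofLe M H h) ρ) :
    starUp M ρ H h (toStar _ ρ γ) = toStar _ ρ (gamUp M ρ H h γ) := rfl

lemma starUp_sc (H : Subgroup G) (h : M ≤ H) (c : Sc M V) :
    starUp M ρ H h (scStar _ ρ c) = scStar _ ρ c := rfl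

lemma starUp_injective (H : Subgroup G) (h : M ≤ H) : Function.Injective (starUp M ρ H h) := by
  rw [injective_iff_map_eq_one]
  intro x hx
  obtain ⟨γ, rfl⟩ := QuotientGroup.mk'_surjective _ x
  have h1 : toStar (NP.ofNormal M) ρ (gamUp M ρ H h γ) = 1 := hx
  obtain ⟨m, hm⟩ := (QuotientGroup.eq_one_iff _).1 h1
  refine (QuotientGroup.eq_one_iff _).2 ⟨m, ?_⟩
  apply gamUp_injective M ρ H h
  rw [gamUp_inc, hm]

lemma mem_range_starUp (H : Subgroup G) (h : M ≤ H) (γ : Gam (NP.ofNormal M) ρ) :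
    toStar _ ρ γ ∈ (starUp M ρ H h).range ↔ gamProj (NP.ofNormal M) ρ γ ∈ H := by
  rw [← mem_range_gamUp]
  constructor
  · rintro ⟨x, hx⟩
    obtain ⟨γ', rfl⟩ := QuotientGroup.mk'_surjective _ x
    have h1 : toStar (NP.ofNormal M) ρ (gamUp M ρ H h γ') = toStar _ ρ γ := hx
    obtain ⟨m, hm⟩ := (QuotientGroup.eq).1 h1
    refine ⟨γ' * gamInc _ ρ m, ?_⟩
    rw [map_mul, gamUp_inc, hm]
    group
  · rintro ⟨γ', rfl⟩
    exact ⟨toStar _ ρ γ', rfl⟩

variable {p : ℕ} [Fact p.Prime] (P : Sylow p G)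

lemma exists_starSylow (hP : (P : Subgroup G) ≤ (gamProj (NP.ofNormal M) ρ).range) :
    ∃ P' : Sylow p (TStar (NP.ofNormal M) ρ), ∀ x,
      x ∈ Subgroup.normalizer (P' : Set (TStar (NP.ofNormal M) ρ)) ↔
      x ∈ (starUp M ρ (M ⊔ Subgroup.normalizer (P : Set G)) le_sup_left).range := by
  set f := starMap M ρ with hf
  set f' := f.rangeRestrict with hf'
  have hsurj : Function.Surjective f' := f.rangeRestrict_surjective
  set Pb : Sylow p (G ⧸ M) := P.mapSurjective (QuotientGroup.mk'_surjective M) with hPb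
  have hle : (Pb : Subgroup (G ⧸ M)) ≤ f.range := by
    rintro _ ⟨g, hg, rfl⟩
    obtain ⟨γ, hγ⟩ := hP hg
    refine ⟨toStar _ ρ γ, ?_⟩
    rw [hf, starMap_mk, hγ]
  obtain ⟨P', hP'⟩ := Sylow.mapSurjective_surjective hsurj p (Pb.subtype hle)
  refine ⟨P', fun x => ?_⟩
  have hc : f'.ker ≤ Subgroup.center (TStar (NP.ofNormal M) ρ) := by
    rw [hf', MonoidHom.ker_rangeRestrict, hf, starMap_ker]
    rintro _ ⟨c, rfl⟩
    exact scStar_central _ ρ c
  rw [normalizer_central f' hsurj hc P', hP']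
  obtain ⟨γ, rfl⟩ := QuotientGroup.mk'_surjective _ x
  change _ ↔ toStar _ ρ γ ∈ _
  rw [mem_range_starUp, ← frattini M P, ← hPb]
  have hval : ((f' (toStar _ ρ γ) : f.range) : G ⧸ M) =
      QuotientGroup.mk' M (gamProj (NP.ofNormal M) ρ γ) := rfl
  constructor
  · intro h
    refine (Subgroup.mem_normalizer_iff (H := (Pb : Subgroup (G ⧸ M)))).2 (fun y => ?_)
    have key : ∀ z : f.range, z ∈ (Pb.subtype hle : Sylow p f.range) ↔ (z : G ⧸ M) ∈ Pb :=
      fun z => Iff.rfl
    have hz := Subgroup.mem_normalizer_iff.1 h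
    constructor
    · intro hy
      exact (hz ⟨y, hle hy⟩).1 hy
    · intro hy
      have h1 := hle hy
      have hr : QuotientGroup.mk' M (gamProj (NP.ofNormal M) ρ γ) ∈ f.range := by
        rw [← hval]; exact (f' (toStar _ ρ γ)).2
      have h2 : y ∈ f.range := by
        have h3 := f.range.mul_mem (f.range.mul_mem (f.range.inv_mem hr) h1) hr
        have h4 : (QuotientGroup.mk' M (gamProj (NP.ofNormal M) ρ γ))⁻¹ *
          (QuotientGroup.mk' M (gamProj (NP.ofNormal M) ρ γ) * y *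
            (QuotientGroup.mk' M (gamProj (NP.ofNormal M) ρ γ))⁻¹) *
          QuotientGroup.mk' M (gamProj (NP.ofNormal M) ρ γ) = y := by group
        rwa [h4] at h3
      exact (hz ⟨y, h2⟩).2 hy
  · intro h
    refine (Subgroup.mem_normalizer_iff (H := ((Pb.subtype hle : Sylow p f.range) :
      Subgroup f.range))).2 (fun y => ?_)
    exact Subgroup.mem_normalizer_iff.1 h y.1

end tostar

section step

variable {G : Type} [Group G] [Finite G] (M : Subgroup G) [hM : M.Normal]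
  {p : ℕ} [Fact p.Prime] (P : Sylow p G)

/-- characters of `M` as points for the subgroup `H` -/
def IrrX.down {M : Subgroup G} [M.Normal] (H : Subgroup G) (h : M ≤ H)
    (θ : IrrX (NP.ofNormal M)) : IrrX (NP.ofLe M H h) := ⟨θ.chi, θ.mem⟩

/-- characters of `M` as points for the group `G` -/
def IrrX.up {M : Subgroup G} [M.Normal] (H : Subgroup G) (h : M ≤ H)
    (θ : IrrX (NP.ofLe M H h)) : IrrX (NP.ofNormal M) := ⟨θ.chi, θ.mem⟩

lemma down_smul (H : Subgroup G) (h : M ≤ H) (x : H) (θ : IrrX (NP.ofNormal M)) :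
    x • θ.down H h = ((x : G) • θ).down H h := rfl

lemma up_smul (H : Subgroup G) (h : M ≤ H) (x : H) (θ : IrrX (NP.ofLe M H h)) :
    (x • θ).up H h = (x : G) • θ.up H h := rfl

lemma down_up (H : Subgroup G) (h : M ≤ H) (θ : IrrX (NP.ofLe M H h)) :
    (θ.up H h).down H h = θ := rfl

lemma up_down (H : Subgroup G) (h : M ≤ H) (θ : IrrX (NP.ofNormal M)) :
    (θ.down H h).up H h = θ := rfl

/-- congruence of the two stabilizer indices -/
lemma index_down (θ : IrrX (NP.ofNormal M)) (hθ : QFix P θ) :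
    (stabilizer G θ).index ≡ (stabilizer (M ⊔ Subgroup.normalizer (P : Set G) : Subgroup G)
      (θ.down (M ⊔ Subgroup.normalizer (P : Set G)) le_sup_left)).index [MOD p] := by
  set H := M ⊔ Subgroup.normalizer (P : Set G) with hH
  have hMH : M ≤ H := le_sup_left
  have hNH : Subgroup.normalizer (P : Set G) ≤ H := le_sup_right
  have hPN : (P : Subgroup G) ≤ Subgroup.normalizer (P : Set G) :=
    Subgroup.le_normalizer (H := (P : Subgroup G))
  have hPH : (P : Subgroup G) ≤ H := hPN.trans hNH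
  have h1 := index_modEq hθ
  have hθ' : QFix (P.subtype hPH) (θ.down H hMH) := by
    intro q hq
    rw [down_smul]
    have := hθ (q : G) hq
    rw [this]
  have h2 := index_modEq hθ'
  refine h1.trans (Nat.ModEq.trans ?_ h2.symm)
  rw [index_stabilizer, index_stabilizer, ← Nat.card_coe_set_eq, ← Nat.card_coe_set_eq]
  suffices hs : Nat.card (orbit (Subgroup.normalizer (P : Set G)) θ) =
      Nat.card (orbit (Subgroup.normalizer ((P.subtype hPH : Sylow p H) : Set H))
        (θ.down H hMH)) by rw [hs]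
  apply Nat.card_congr
  exact
    { toFun := fun y => ⟨y.1.down H hMH, by
        obtain ⟨n, hn⟩ := y.2
        refine ⟨⟨⟨n, hNH n.2⟩, ?_⟩, ?_⟩
        · refine (Subgroup.mem_normalizer_iff (H := ((P.subtype hPH : Sylow p H) :
            Subgroup H))).2 (fun q => ?_)
          exact Subgroup.mem_normalizer_iff.1 n.2 q.1
        · rw [← hn]
          rfl⟩
      invFun := fun y => ⟨y.1.up H hMH, by
        obtain ⟨n, hn⟩ := y.2
        refine ⟨⟨n.1.1, ?_⟩, ?_⟩
        · refine (Subgroup.mem_normalizer_iff (H := (P : Subgroup G))).2 (fun q => ?_)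
          constructor
          · intro hq
            exact (Subgroup.mem_normalizer_iff.1 n.2 ⟨q, hPH hq⟩).1 hq
          · intro hq
            have hqK : q ∈ H := by
              have h3 := H.mul_mem (H.mul_mem (H.inv_mem n.1.2) (hPH hq)) n.1.2
              have h4 : (n.1.1)⁻¹ * (n.1.1 * q * (n.1.1)⁻¹) * n.1.1 = q := by group
              rwa [h4] at h3
            exact (Subgroup.mem_normalizer_iff.1 n.2 ⟨q, hqK⟩).2 hq
        · rw [← hn]
          rfl⟩
      left_inv := fun y => rfl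
      right_inv := fun y => rfl }

/-- the fibers over a `P`-invariant character agree -/
lemma fib_eq_star (θ : IrrX (NP.ofNormal M)) (hθ : QFix P θ)
    (h : ∀ ν : Sc M θ.V →* ℂˣ, ∃ (Y : Type) (_ : Group Y) (_ : Finite Y)
      (f : TStar (NP.ofNormal M) θ.rep →* Y),
      Function.Surjective f ∧ f.ker = ν.ker.map (scStar (NP.ofNormal M) θ.rep) ∧ McKayCongr p Y)
    (s : ZMod p) (hs : s ≠ 0) :
    Nat.card (FibG p θ s) = Nat.card (FibG p
      (θ.down (M ⊔ Subgroup.normalizer (P : Set G)) le_sup_left) s) := by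
  set H := M ⊔ Subgroup.normalizer (P : Set G) with hH
  have hMH : M ≤ H := le_sup_left
  have := nontrivial_of_irr θ.rep
  set θ' := θ.down H hMH with hθ'
  have e1 : Nat.card (FibG p θ s) = Nat.card {ψ : Irr (Gam (NP.ofNormal M) θ.rep) //
      InvM (NP.ofNormal M) θ.rep ψ.1 ∧ ScInv (NP.ofNormal M) θ.rep ψ.1 ∧
      ((((stabilizer G θ).index * Module.finrank ℂ θ.V) * deg ψ.1 : ℕ) : ZMod p) ^ 2 = s} := by
    apply Nat.card_congr
    apply Equiv.subtypeEquivRight
    intro ψ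
    rw [mul_assoc]
  have e2 : Nat.card (FibG p θ' s) = Nat.card {ψ : Irr (Gam (NP.ofLe M H hMH) θ.rep) //
      InvM (NP.ofLe M H hMH) θ.rep ψ.1 ∧ ScInv (NP.ofLe M H hMH) θ.rep ψ.1 ∧
      ((((stabilizer H θ').index * Module.finrank ℂ θ.V) * deg ψ.1 : ℕ) : ZMod p) ^ 2 = s} := by
    apply Nat.card_congr
    apply Equiv.subtypeEquivRight
    intro ψ
    rw [mul_assoc]
    exact Iff.rfl
  rw [e1, e2]
  have hidx : (((stabilizer G θ).index * Module.finrank ℂ θ.V : ℕ) : ZMod p) =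
      (((stabilizer H θ').index * Module.finrank ℂ θ.V : ℕ) : ZMod p) := by
    have h1 := index_down M P θ hθ
    have h2 := (ZMod.natCast_eq_natCast_iff _ _ _).2 h1
    push_cast
    rw [h2]
  by_cases hi : (((stabilizer G θ).index * Module.finrank ℂ θ.V : ℕ) : ZMod p) = 0
  · have z1 : ∀ (D : NP M G) , IsEmpty {ψ : Irr (Gam D θ.rep) //
      InvM D θ.rep ψ.1 ∧ ScInv D θ.rep ψ.1 ∧
      ((((stabilizer G θ).index * Module.finrank ℂ θ.V) * deg ψ.1 : ℕ) : ZMod p) ^ 2 = s} := by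
      intro D
      refine ⟨fun ψ => hs ?_⟩
      rw [← ψ.2.2.2, Nat.cast_mul, hi]
      simp
    have z2 : ∀ (D : NP M H) , IsEmpty {ψ : Irr (Gam D θ.rep) //
      InvM D θ.rep ψ.1 ∧ ScInv D θ.rep ψ.1 ∧
      ((((stabilizer H θ').index * Module.finrank ℂ θ.V) * deg ψ.1 : ℕ) : ZMod p) ^ 2 = s} := by
      intro D
      refine ⟨fun ψ => hs ?_⟩
      rw [← ψ.2.2.2, Nat.cast_mul, ← hidx, hi]
      simp
    have := z1 (NP.ofNormal M)
    have := z2 (NP.ofLe M H hMH)
    rw [Nat.card_of_isEmpty, Nat.card_of_isEmpty]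
  · have hi' : (((stabilizer H θ').index * Module.finrank ℂ θ.V : ℕ) : ZMod p) ≠ 0 := by
      rw [← hidx]; exact hi
    rw [card_fib_star (NP.ofNormal M) θ.rep _ s hi, card_fib_star (NP.ofLe M H hMH) θ.rep _ s hi',
      ← hidx]
    set s' : ZMod p := s * ((((stabilizer G θ).index * Module.finrank ℂ θ.V : ℕ) : ZMod p) ^ 2)⁻¹
      with hs'
    have hs0 : s' ≠ 0 := mul_ne_zero hs (inv_ne_zero (pow_ne_zero 2 hi))
    have hPr : (P : Subgroup G) ≤ (gamProj (NP.ofNormal M) θ.rep).range := by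
      rw [range_gamProj]
      exact (qfix_iff_le P).1 hθ
    obtain ⟨P', hP'⟩ := exists_starSylow M θ.rep P hPr
    rw [rel_of_abs P' (scStar (NP.ofNormal M) θ.rep) (scStar_central _ _) h s' hs0]
    have hN : Subgroup.normalizer (P' : Set (TStar (NP.ofNormal M) θ.rep)) =
        (starUp M θ.rep H hMH).range := by
      ext x; exact hP' x
    set e : Subgroup.normalizer (P' : Set (TStar (NP.ofNormal M) θ.rep)) ≃*
        TStar (NP.ofLe M H hMH) θ.rep :=
      (MulEquiv.subgroupCongr hN).trans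
        (MonoidHom.ofInjective (starUp_injective M θ.rep H hMH)).symm with he
    apply cntR_congr e
    intro c
    rw [he, MulEquiv.trans_apply, MulEquiv.symm_apply_eq]
    apply Subtype.ext
    rfl

/-- **The step**: `G` and `M N_G(P)` have the same counts -/
theorem step (h : ∀ θ : IrrX (NP.ofNormal M), QFix P θ →
      ∀ ν : Sc M θ.V →* ℂˣ, ∃ (Y : Type) (_ : Group Y) (_ : Finite Y)
      (f : TStar (NP.ofNormal M) θ.rep →* Y),
      Function.Surjective f ∧ f.ker = ν.ker.map (scStar (NP.ofNormal M) θ.rep) ∧ McKayCongr p Y)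
    (s : ZMod p) (hs : s ≠ 0) :
    cnt p G s = cnt p (M ⊔ Subgroup.normalizer (P : Set G) : Subgroup G) s := by
  classical
  set H := M ⊔ Subgroup.normalizer (P : Set G) with hH
  have hMH : M ≤ H := le_sup_left
  have hNH : Subgroup.normalizer (P : Set G) ≤ H := le_sup_right
  have hPN : (P : Subgroup G) ≤ Subgroup.normalizer (P : Set G) :=
    Subgroup.le_normalizer (H := (P : Subgroup G))
  have hPH : (P : Subgroup G) ≤ H := hPN.trans hNH
  have := Fintype.ofFinite (RepX P (IrrX (NP.ofNormal M)))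
  rw [cnt_clifford (D := NP.ofNormal M) (RepX P (IrrX (NP.ofNormal M))) repX repX_h1 repX_h2 s hs,
    cnt_clifford (D := NP.ofLe M H hMH) (RepX P (IrrX (NP.ofNormal M)))
      (fun r => (repX r).down H hMH) ?_ ?_ s hs]
  · apply Finset.sum_congr rfl
    intro r _
    exact fib_eq_star M P (repX r) (repX_qfix r) (h _ (repX_qfix r)) s hs
  · intro r r' x hx
    apply repX_h1 r r' (x : G)
    have := congrArg (fun t => IrrX.up H hMH t) hx
    exact this
  · intro θ hθ
    obtain ⟨x, hx⟩ := exists_qfix (Q := P.subtype hPH) hθ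
    have hx' : QFix P ((x : G) • θ.up H hMH) := by
      intro q hq
      have := congrArg (fun t => IrrX.up H hMH t) (hx ⟨q, hPH hq⟩ hq)
      exact this
    obtain ⟨r, n, hn, hr⟩ := exists_repX hx'
    refine ⟨r, x⁻¹ * ⟨n, hNH hn⟩, ?_⟩
    rw [mul_smul, down_smul]
    change θ = x⁻¹ • (n • repX r).down H hMH
    rw [← hr]
    change θ = x⁻¹ • x • θ
    rw [inv_smul_smul]

end step

end Pool.Agent.Helper42.INC
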