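import Pool.Agent.Helper42.INC.Schur
import Pool.Agent.Helper42.INC.Relative

/-!
# The central extension attached to an irreducible character of a normal subgroup

For a normal subgroup `M` of `G` and an irreducible representation `ρ` of `M`, `Gam` is the finite
group of pairs `(g, X)` where the operator `X` implements conjugation by `g` on `ρ`, with
determinant of order dividing `|M|`.
-/

set_option linter.unusedSectionVars false

open scoped Pointwise

namespace Pool.Agent.Helper42.INC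

/-- a normal subgroup, given by an injective homomorphism and the conjugation action -/
structure NP (M G : Type) [Group M] [Group G] where
  /-- the inclusion -/
  ι : M →* G
  inj : Function.Injective ι
  /-- the action -/
  α : G →* MulAut M
  compat : ∀ g m, ι (α g m) = g * ι m * g⁻¹

section

variable {M G : Type} [Group M] [Group G] [Finite M] [Finite G] (D : NP M G)
  {V : Type} [AddCommGroup V] [Module ℂ V] [FiniteDimensional ℂ V] (ρ : Representation ℂ M V)

lemma NP.alpha_iota (m m' : M) : D.α (D.ι m) m' = m * m' * m⁻¹ := by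
  apply D.inj
  rw [D.compat]; simp

/-- the group of pairs -/
noncomputable def Gam : Subgroup (G × (V →ₗ[ℂ] V)ˣ) where
  carrier := {x | (∀ m, (x.2 : V →ₗ[ℂ] V) * ρ m = ρ (D.α x.1 m) * (x.2 : V →ₗ[ℂ] V)) ∧
    LinearMap.det (x.2 : V →ₗ[ℂ] V) ^ (Nat.card M) = 1}
  one_mem' := by
    refine ⟨fun m => ?_, ?_⟩
    · simp
    · simp
  mul_mem' := by
    rintro x y ⟨hx, hx'⟩ ⟨hy, hy'⟩
    refine ⟨fun m => ?_, ?_⟩
    · rw [Prod.snd_mul, Units.val_mul, mul_assoc, hy, ← mul_assoc, hx, mul_assoc, Prod.fst_mul,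
        map_mul]
      rfl
    · rw [Prod.snd_mul, Units.val_mul, map_mul, mul_pow, hx', hy', one_mul]
  inv_mem' := by
    rintro x ⟨hx, hx'⟩
    refine ⟨fun m => ?_, ?_⟩
    · have h := hx (D.α x.1⁻¹ m)
      rw [← MulAut.mul_apply, ← map_mul, mul_inv_cancel, map_one, MulAut.one_apply] at h
      rw [Prod.snd_inv, Prod.fst_inv, Units.inv_mul_eq_iff_eq_mul, ← mul_assoc, h, mul_assoc,
        Units.mul_inv, mul_one]
    · have h1 : LinearMap.det ((x⁻¹).2 : V →ₗ[ℂ] V) * LinearMap.det (x.2 : V →ₗ[ℂ] V) = 1 := by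
        rw [← map_mul, Prod.snd_inv, Units.inv_mul, map_one]
      have h2 : LinearMap.det ((x⁻¹).2 : V →ₗ[ℂ] V) ^ (Nat.card M) *
          LinearMap.det (x.2 : V →ₗ[ℂ] V) ^ (Nat.card M) = 1 := by
        rw [← mul_pow, h1, one_pow]
      rwa [hx', mul_one] at h2

/-- projection to `G` -/
noncomputable def gamProj : Gam D ρ →* G := (MonoidHom.fst _ _).comp (Gam D ρ).subtype

/-- the tautological representation -/
noncomputable def gamRep : Representation ℂ (Gam D ρ) V :=
  (Units.coeHom (V →ₗ[ℂ] V)).comp ((MonoidHom.snd _ _).comp (Gam D ρ).subtype)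

lemma gamRep_comm (γ : Gam D ρ) (m : M) :
    gamRep D ρ γ * ρ m = ρ (D.α (gamProj D ρ γ) m) * gamRep D ρ γ := γ.2.1 m

/-- the inclusion of `M` -/
noncomputable def gamInc : M →* Gam D ρ where
  toFun m := ⟨(D.ι m, MonoidHom.toHomUnits ρ m), by
    refine ⟨fun m' => ?_, ?_⟩
    · change ρ m * ρ m' = ρ (D.α (D.ι m) m') * ρ m
      rw [D.alpha_iota, ← map_mul, ← map_mul, inv_mul_cancel_right]
    · change LinearMap.det (ρ m) ^ (Nat.card M) = 1
      rw [← map_pow, ← map_pow, pow_card_eq_one', map_one, map_one]⟩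
  map_one' := by
    apply Subtype.ext
    simp
  map_mul' m m' := by
    apply Subtype.ext
    simp

@[simp] lemma gamProj_inc (m : M) : gamProj D ρ (gamInc D ρ m) = D.ι m := rfl

@[simp] lemma gamRep_inc (m : M) : gamRep D ρ (gamInc D ρ m) = ρ m := rfl

lemma gamInc_injective : Function.Injective (gamInc D ρ) := by
  intro m m' h
  apply D.inj
  rw [← gamProj_inc D ρ, h, gamProj_inc]

lemma gam_conj (γ : Gam D ρ) (m : M) :
    γ * gamInc D ρ m * γ⁻¹ = gamInc D ρ (D.α (gamProj D ρ γ) m) := by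
  apply Subtype.ext
  apply Prod.ext
  · exact (D.compat _ _).symm
  · apply Units.ext
    have h := gamRep_comm D ρ γ m
    change gamRep D ρ γ * ρ m * gamRep D ρ γ⁻¹ = ρ (D.α (gamProj D ρ γ) m)
    rw [h, mul_assoc, ← map_mul, mul_inv_cancel, map_one, mul_one]

/-- the scalars -/
noncomputable abbrev Sc (M : Type) (V : Type) [AddCommGroup V] [Module ℂ V] : Subgroup ℂˣ :=
  rootsOfUnity (Module.finrank ℂ V * Nat.card M) ℂ

/-- the inclusion of the scalars -/
noncomputable def gamSc : Sc M V →* Gam D ρ where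
  toFun c := ⟨(1, Units.map (algebraMap ℂ (V →ₗ[ℂ] V)).toMonoidHom c.1), by
    refine ⟨fun m => ?_, ?_⟩
    · change (algebraMap ℂ (V →ₗ[ℂ] V)) (c.1 : ℂ) * ρ m = ρ (D.α 1 m) *
        (algebraMap ℂ (V →ₗ[ℂ] V)) (c.1 : ℂ)
      rw [map_one, MulAut.one_apply]
      exact Algebra.commutes _ _
    · change LinearMap.det ((algebraMap ℂ (V →ₗ[ℂ] V)) (c.1 : ℂ)) ^ (Nat.card M) = 1
      have h1 : (algebraMap ℂ (V →ₗ[ℂ] V)) (c.1 : ℂ) = (c.1 : ℂ) • LinearMap.id := by
        rw [Algebra.algebraMap_eq_smul_one]; rfl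
      rw [h1, LinearMap.det_smul, LinearMap.det_id, mul_one, ← pow_mul]
      have h2 := c.2
      rw [mem_rootsOfUnity] at h2
      exact congrArg Units.val h2⟩
  map_one' := by
    apply Subtype.ext
    simp
  map_mul' c c' := by
    apply Subtype.ext
    simp

@[simp] lemma gamProj_sc (c : Sc M V) : gamProj D ρ (gamSc D ρ c) = 1 := rfl

lemma gamRep_sc (c : Sc M V) : gamRep D ρ (gamSc D ρ c) = (c.1 : ℂ) • (1 : V →ₗ[ℂ] V) := by
  change (algebraMap ℂ (V →ₗ[ℂ] V)) (c.1 : ℂ) = _
  rw [Algebra.algebraMap_eq_smul_one]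

lemma gamSc_central (c : Sc M V) : gamSc D ρ c ∈ Subgroup.center (Gam D ρ) := by
  rw [Subgroup.mem_center_iff]
  intro γ
  apply Subtype.ext
  apply Prod.ext
  · change gamProj D ρ γ * 1 = 1 * gamProj D ρ γ
    rw [one_mul, mul_one]
  · apply Units.ext
    change gamRep D ρ γ * gamRep D ρ (gamSc D ρ c) = gamRep D ρ (gamSc D ρ c) * gamRep D ρ γ
    rw [gamRep_sc]
    simp

/-- the scalar character of the tautological representation -/
noncomputable def gamChar : Gam D ρ → ℂ := (gamRep D ρ).character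

lemma gamChar_sc_mul (c : Sc M V) (γ : Gam D ρ) :
    gamChar D ρ (gamSc D ρ c * γ) = (c.1 : ℂ) * gamChar D ρ γ := by
  change LinearMap.trace ℂ V (gamRep D ρ (gamSc D ρ c * γ)) = _
  rw [map_mul, gamRep_sc, smul_mul_assoc, one_mul, map_smul, smul_eq_mul]
  rfl

lemma gamChar_one : gamChar D ρ 1 = Module.finrank ℂ V := Representation.char_one _

lemma gamChar_inc (m : M) : gamChar D ρ (gamInc D ρ m) = ρ.character m := rfl

section irr
variable [hρ : ρ.IsIrreducible]

lemma gam_ker {γ : Gam D ρ} (h : gamProj D ρ γ = 1) : ∃ c : Sc M V, γ = gamSc D ρ c := by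
  have hcomm : ∀ m, gamRep D ρ γ * ρ m = ρ m * gamRep D ρ γ := by
    intro m
    rw [gamRep_comm, h, map_one, MulAut.one_apply]
  obtain ⟨a, ha⟩ :=
    (Representation.IsIrreducible.algebraMap_intertwiningMap_bijective_of_isAlgClosed
      (ρ := ρ)).2 (⟨gamRep D ρ γ, fun m => hcomm m⟩ : Representation.IntertwiningMap ρ ρ)
  have ha' : gamRep D ρ γ = a • (1 : V →ₗ[ℂ] V) := by
    have : (⟨gamRep D ρ γ, fun m => hcomm m⟩ : Representation.IntertwiningMap ρ ρ).toLinearMap =
      a • (1 : V →ₗ[ℂ] V) := by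
      rw [← ha]; rfl
    exact this
  have hdet : LinearMap.det (gamRep D ρ γ) ^ (Nat.card M) = 1 := γ.2.2
  rw [ha', LinearMap.det_smul, map_one, mul_one, ← pow_mul] at hdet
  have ha0 : a ≠ 0 := by
    rintro rfl
    have hd : Module.finrank ℂ V * Nat.card M ≠ 0 := by
      apply mul_ne_zero
      · have := finrank_ne_zero_of_irr ρ
        exact_mod_cast this
      · exact Nat.card_pos.ne'
    rw [zero_pow hd] at hdet
    exact zero_ne_one hdet
  refine ⟨⟨Units.mk0 a ha0, ?_⟩, ?_⟩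
  · rw [mem_rootsOfUnity]
    ext
    simpa using hdet
  · apply Subtype.ext
    apply Prod.ext
    · exact h
    · apply Units.ext
      change gamRep D ρ γ = gamRep D ρ (gamSc D ρ _)
      rw [gamRep_sc, ha']
      rfl

instance finite_sc [Nontrivial V] : Finite (Sc M V) := by
  have : NeZero (Module.finrank ℂ V * Nat.card M) :=
    ⟨mul_ne_zero (Module.finrank_pos (R := ℂ) (M := V)).ne' Nat.card_pos.ne'⟩
  infer_instance

include hρ in
lemma nontrivial_of_irr : Nontrivial V := ((isIrreducible_iff ρ).1 hρ).1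

instance gam_finite : Finite (Gam D ρ) := by
  have := nontrivial_of_irr ρ
  have h1 : Finite (gamProj D ρ).ker := by
    apply Finite.of_surjective (fun c : Sc M V => (⟨gamSc D ρ c, by
      rw [MonoidHom.mem_ker, gamProj_sc]⟩ : (gamProj D ρ).ker))
    rintro ⟨γ, hγ⟩
    obtain ⟨c, hc⟩ := gam_ker D ρ hγ
    exact ⟨c, Subtype.ext hc.symm⟩
  have := Fintype.ofFinite (gamProj D ρ).ker
  have := Fintype.ofFinite G
  have := Group.fintypeOfKerOfCodom (gamProj D ρ)
  infer_instance

/-- the range of the projection is the stabilizer of the character -/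
lemma mem_range_gamProj (g : G) :
    (∃ γ, gamProj D ρ γ = g) ↔ ∀ m, ρ.character (D.α g m) = ρ.character m := by
  constructor
  · rintro ⟨γ, rfl⟩ m
    have h := gamRep_comm D ρ γ m
    have h2 : ρ (D.α (gamProj D ρ γ) m) = gamRep D ρ γ * ρ m * gamRep D ρ γ⁻¹ := by
      rw [h, mul_assoc, ← map_mul, mul_inv_cancel, map_one, mul_one]
    change LinearMap.trace ℂ V (ρ (D.α (gamProj D ρ γ) m)) = LinearMap.trace ℂ V (ρ m)
    rw [h2, mul_assoc, LinearMap.trace_mul_comm, mul_assoc, ← map_mul, inv_mul_cancel, map_one,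
      mul_one]
  · intro h
    have := Fintype.ofFinite M
    let ρ' : Representation ℂ M V := ρ.comp (D.α g).toMonoidHom
    have hρ' : ρ'.IsIrreducible := by
      rw [isIrreducible_iff] at hρ ⊢
      refine ⟨hρ.1, fun W hW => hρ.2 W (fun m v hv => ?_)⟩
      have := hW ((D.α g).symm m) v hv
      simpa [ρ'] using this
    have hchar : ρ'.character = ρ.character := by ext m; exact h m
    have hne : Nonempty (Representation.Equiv ρ ρ') := by
      by_contra hcon
      have h1 := Representation.char_orthonormal ρ' ρ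
      rw [if_neg hcon] at h1
      have h2 : B ρ'.character ρ.character = 0 := by rw [B_eq]; exact h1
      rw [hchar] at h2
      have h3 : B ρ.character ρ.character = 1 :=
        B_irr_self ⟨V, _, _, ‹_›, ρ, hρ, rfl⟩
      rw [h3] at h2
      exact one_ne_zero h2
    obtain ⟨e⟩ := hne
    let E : (V →ₗ[ℂ] V)ˣ := (LinearMap.GeneralLinearGroup.ofLinearEquiv e.toLinearEquiv)
    have hE : ∀ m, (E : V →ₗ[ℂ] V) * ρ m = ρ (D.α g m) * (E : V →ₗ[ℂ] V) := by
      intro m
      ext v
      exact Representation.IntertwiningMap.isIntertwining _ _ e.toIntertwiningMap m v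
    have hd0 : 0 < Module.finrank ℂ V := by
      have := finrank_ne_zero_of_irr ρ
      rw [Nat.pos_iff_ne_zero]
      exact_mod_cast this
    obtain ⟨c, hc⟩ := IsAlgClosed.exists_pow_nat_eq (LinearMap.det (E : V →ₗ[ℂ] V))⁻¹ hd0
    have hdet : LinearMap.det (E : V →ₗ[ℂ] V) ≠ 0 :=
      (LinearMap.isUnit_det (E : V →ₗ[ℂ] V) E.isUnit).ne_zero
    have hc0 : c ≠ 0 := by
      rintro rfl
      rw [zero_pow hd0.ne'] at hc
      exact (inv_ne_zero hdet) hc.symm
    let X : (V →ₗ[ℂ] V)ˣ := Units.map (algebraMap ℂ (V →ₗ[ℂ] V)).toMonoidHom (Units.mk0 c hc0) * E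
    have hX : (X : V →ₗ[ℂ] V) = c • (E : V →ₗ[ℂ] V) := by
      change (algebraMap ℂ (V →ₗ[ℂ] V)) c * (E : V →ₗ[ℂ] V) = _
      rw [Algebra.algebraMap_eq_smul_one, smul_mul_assoc, one_mul]
    refine ⟨⟨(g, X), ?_, ?_⟩, rfl⟩
    · intro m
      change (X : V →ₗ[ℂ] V) * ρ m = ρ (D.α g m) * (X : V →ₗ[ℂ] V)
      rw [hX, smul_mul_assoc, hE, mul_smul_comm]
    · change LinearMap.det (X : V →ₗ[ℂ] V) ^ _ = 1
      rw [hX, LinearMap.det_smul, hc, inv_mul_cancel₀ hdet, one_pow]

end irr

end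

end Pool.Agent.Helper42.INC
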